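import Pool.Agent.H31.SX.Comb

/-! # All but one of the points are collinear -/

set_option autoImplicit false

namespace Pool.Agent.H31.SX

open Finset

variable {ι : Type*} [Fintype ι] [DecidableEq ι]

set_option linter.unusedSectionVars false

theorem comb3 {L : Finset (Finset ι)} (h : IsLS L) (h6 : ∀ l ∈ L, l.card ≤ 6)
    (hshort : (L.filter (fun l => l.card < 6)).card ≤ Fintype.card ι)
    (hlang : 4 ≤ Fintype.card ι → (∀ l ∈ L, 3 * l.card < 2 * Fintype.card ι) →
      Fintype.card ι * (Fintype.card ι + 3) ≤ 3 * ∑ l ∈ L, l.card)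
    (hN : 2 ≤ Fintype.card ι) : ∃ l ∈ L, Fintype.card ι ≤ l.card + 1 := by
  set N := Fintype.card ι with hNdef
  by_cases hN4 : 4 ≤ N
  swap
  · obtain ⟨i, j, hij⟩ := Fintype.one_lt_card_iff.mp (by omega : 1 < Fintype.card ι)
    obtain ⟨l0, hl0, _, _⟩ := h.ex i j hij
    exact ⟨l0, hl0, by have := h.two l0 hl0; omega⟩
  by_cases hall : ∀ l ∈ L, 3 * l.card < 2 * N
  · exfalso
    have h1 := hlang hN4 hall
    have h2 := five_sum h h6
    have h3 : (N : ℝ) * (N + 3) ≤ 3 * ∑ l ∈ L, (l.card : ℝ) := by exact_mod_cast h1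
    have h4 : (((L.filter (fun l => l.card < 6)).card : ℕ) : ℝ) ≤ N := by exact_mod_cast hshort
    rw [← hNdef] at h2
    have h5 : N < 5 := by
      by_contra h5
      have h5 : (5 : ℝ) ≤ N := by
        have : 5 ≤ N := by omega
        exact_mod_cast this
      nlinarith
    have hN : N = 4 := by omega
    rw [hN] at h1 hall hshort
    have h7 : ∀ l ∈ L, l.card = 2 := fun l hl => by
      have := hall l hl
      have := h.two l hl
      omega
    have h8 : L.filter (fun l => l.card < 6) = L := by
      rw [Finset.filter_eq_self]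
      intro l hl
      rw [h7 l hl]
      norm_num
    rw [h8] at hshort
    rw [Finset.sum_congr rfl h7, Finset.sum_const, smul_eq_mul] at h1
    omega
  · simp only [not_forall, not_lt] at hall
    obtain ⟨l0, hl0, hbig⟩ := hall
    refine ⟨l0, hl0, ?_⟩
    by_contra hlt
    have h1 := h6 l0 hl0
    have hcompl : 2 ≤ (l0ᶜ).card := by
      rw [Finset.card_compl]
      omega
    obtain ⟨D, hD, D', hD', hne⟩ := Finset.one_lt_card.mp (by omega : 1 < (l0ᶜ).card)
    rw [Finset.mem_compl] at hD hD'
    obtain ⟨m, hm⟩ := h.exists_line D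
    obtain ⟨m', hm'⟩ := h.exists_line D'
    have hA : (l0.image m).card = l0.card := by
      rw [Finset.card_image_of_injOn]
      intro P hP P' hP' heq
      exact h.inj hl0 hD hm hP hP' heq
    have hB : (l0.image m').card = l0.card := by
      rw [Finset.card_image_of_injOn]
      intro P hP P' hP' heq
      exact h.inj hl0 hD' hm' hP hP' heq
    have hAL : ∀ l ∈ l0.image m, l ∈ L ∧ D ∈ l := by
      intro l hl
      obtain ⟨P, hP, rfl⟩ := Finset.mem_image.mp hl
      have := hm P (fun e => hD (e ▸ hP))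
      exact ⟨this.1, this.2.1⟩
    have hBL : ∀ l ∈ l0.image m', l ∈ L ∧ D' ∈ l := by
      intro l hl
      obtain ⟨P, hP, rfl⟩ := Finset.mem_image.mp hl
      have := hm' P (fun e => hD' (e ▸ hP))
      exact ⟨this.1, this.2.1⟩
    have hAB : (l0.image m ∩ l0.image m').card ≤ 1 := by
      rw [Finset.card_le_one]
      intro l hl l' hl'
      rw [Finset.mem_inter] at hl hl'
      exact h.un l (hAL l hl.1).1 l' (hAL l' hl'.1).1 D D' hne (hAL l hl.1).2 (hBL l hl.2).2
        (hAL l' hl'.1).2 (hBL l' hl'.2).2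
    have hU : 2 * l0.card ≤ (l0.image m ∪ l0.image m').card + 1 := by
      have := Finset.card_union_add_card_inter (l0.image m) (l0.image m')
      omega
    have hsub : l0.image m ∪ l0.image m' ⊆ L.filter (fun l => l.card < 6) := by
      intro l hl
      have hl2 : l ∈ L ∧ ∃ E, E ∈ l ∧ E ∉ l0 := by
        rcases Finset.mem_union.mp hl with h2 | h2
        · exact ⟨(hAL l h2).1, D, (hAL l h2).2, hD⟩
        · exact ⟨(hBL l h2).1, D', (hBL l h2).2, hD'⟩
      obtain ⟨hlL, E, hE, hE0⟩ := hl2
      rw [Finset.mem_filter]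
      refine ⟨hlL, ?_⟩
      have hint : (l ∩ l0).card ≤ 1 := by
        rw [Finset.card_le_one]
        intro P hP P' hP'
        by_contra hPP
        rw [Finset.mem_inter] at hP hP'
        have := h.un l hlL l0 hl0 P P' hPP hP.1 hP'.1 hP.2 hP'.2
        exact hE0 (this ▸ hE)
      have hdiff : (l \ l0).card ≤ (l0ᶜ).card := by
        refine Finset.card_le_card ?_
        intro x hx
        rw [Finset.mem_sdiff] at hx
        exact Finset.mem_compl.mpr hx.2
      rw [Finset.card_compl] at hdiff
      have := Finset.card_sdiff_add_card_inter l l0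
      omega
    have := Finset.card_le_card hsub
    omega

end Pool.Agent.H31.SX
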