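import Pool.Agent.H31.SX.Core
import Pool.Agent.H31.SX.Comb3

/-! # A zero, a second zero on its tangent: the finite case is impossible -/

set_option autoImplicit false

namespace Pool.Agent.H31.SX

open Polynomial
open scoped LinearAlgebra.Projectivization

set_option linter.unusedSectionVars false

variable {K : Type*} [Field K]

/-- The order of contact at `u` does not depend on the second vector. -/
theorem dvd_change [Infinite K] {F : MvPolynomial (Fin 3) K} (hF : F.IsHomogeneous 6)
    {u w : Fin 3 → K} (h : X ^ 5 ∣ res F u w) (α β : K) :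
    X ^ 5 ∣ res F u (α • w + β • u) := by
  obtain ⟨g, hg⟩ := h
  have hd : g.natDegree ≤ 1 := by
    by_cases hg0 : g = 0
    · simp [hg0]
    · have h1 := res_natDegree_le hF u w
      rw [hg, natDegree_mul (pow_ne_zero 5 X_ne_zero) hg0, natDegree_X_pow] at h1
      omega
  obtain ⟨c1, c0, hc⟩ := exists_eq_X_add_C_of_natDegree_le_one hd
  refine ⟨C (α ^ 5) * ((1 + C β * X) * C c0 + C (c1 * α) * X), ?_⟩
  have hfin : ({x : K | 1 + β * x = 0}).Finite := by
    refine (Set.finite_singleton (-β⁻¹)).subset ?_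
    intro x hx
    rw [Set.mem_ofPred_eq] at hx
    have hb : β ≠ 0 := by
      rintro rfl
      simp at hx
    rw [Set.mem_singleton_iff]
    field_simp
    linear_combination hx
  refine eq_of_infinite_eval_eq _ _ (hfin.infinite_compl.mono ?_)
  intro x hx
  have hx' : 1 + β * x ≠ 0 := hx
  change eval x _ = eval x _
  rw [res_eval]
  have h1 : u + x • (α • w + β • u) = (1 + β * x) • (u + (α * x / (1 + β * x)) • w) := by
    funext m
    simp only [Pi.add_apply, Pi.smul_apply, smul_eq_mul]
    have h0 : (1 + β * x) * (α * x / (1 + β * x)) = α * x := mul_div_cancel₀ _ hx'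
    linear_combination -(w m) * h0
  rw [h1, eval_smul hF, ← res_eval, hg, hc]
  simp only [eval_mul, eval_add, eval_pow, eval_X, eval_C, eval_one]
  field_simp
  ring

theorem res_smul_smul [Infinite K] {F : MvPolynomial (Fin 3) K} (hF : F.IsHomogeneous 6)
    (u w : Fin 3 → K) (c : K) : res F (c • u) (c • w) = C (c ^ 6) * res F u w := by
  refine eq_of_infinite_eval_eq _ _ (Set.infinite_univ.mono ?_)
  intro x _
  change eval x _ = eval x _
  have h1 : c • u + x • c • w = c • (u + x • w) := by module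
  rw [res_eval, h1, eval_smul hF, eval_mul, eval_C, res_eval]

theorem dvd_smul1 [Infinite K] {F : MvPolynomial (Fin 3) K} (hF : F.IsHomogeneous 6)
    {u w : Fin 3 → K} (h : X ^ 5 ∣ res F u w) {c : K} (hc : c ≠ 0) :
    X ^ 5 ∣ res F (c • u) w := by
  have h1 := dvd_change hF h c⁻¹ 0
  rw [zero_smul, add_zero] at h1
  have h2 := res_smul_smul hF u (c⁻¹ • w) c
  rw [smul_smul, mul_inv_cancel₀ hc, one_smul] at h2
  rw [h2]
  exact Dvd.dvd.mul_left h1 _

theorem dvd_smul2 [Infinite K] {F : MvPolynomial (Fin 3) K} (hF : F.IsHomogeneous 6)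
    {u w : Fin 3 → K} (h : X ^ 5 ∣ res F u w) (c : K) :
    X ^ 5 ∣ res F u (c • w) := by
  have h1 := dvd_change hF h c 0
  rwa [zero_smul, add_zero] at h1

/-- The direction of a line of contact five lies on the tangent. -/
theorem dvd_tangent {F : MvPolynomial (Fin 3) K} {u w : Fin 3 → K}
    (h : X ^ 5 ∣ res F u w) : dt (gr F u) w = 0 := by
  obtain ⟨g, hg⟩ := h
  have h1 := res_derivative_eval F u w 0
  rw [zero_smul, add_zero, hg] at h1
  rw [← h1]
  simp [derivative_mul]

section Fin1

variable [DecidableEq K] {ι : Type*} [Fintype ι] [DecidableEq ι]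

theorem sum_counts [Infinite K] {F : MvPolynomial (Fin 3) K} (hF : F.IsHomogeneous 6)
    {u w : Fin 3 → K} (hFw : MvPolynomial.eval w F ≠ 0) (hsp : (res F u w).Splits) :
    ∑ a ∈ (res F u w).roots.toFinset, (res F u w).roots.count a = 6 := by
  rw [Multiset.toFinset_sum_count_eq, ← hsp.natDegree_eq_card_roots, res_deg6 hF u hFw]

/-- A line with exactly two of the points. -/
theorem two [Infinite K] (h4 : ∀ p : K[X], p.natDegree ≤ 4 → p.Splits)
    {F : MvPolynomial (Fin 3) K} (hF : F.IsHomogeneous 6) (hfin : ¬ (ZZ F).Infinite)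
    {v : ι → Fin 3 → K} (hZ : FZ F v) {i j : ι} (hij : i ≠ j) (hcard : (ln v i j).card = 2)
    (hj : dt (gr F (v j)) (v i) ≠ 0) : X ^ 5 ∣ res F (v i) (v j) := by
  obtain ⟨w, hw1, hw2, hw3⟩ := secant h4 hF hfin hZ hij
  have hw : cr (v i) w ≠ 0 := by rw [hw1]; exact hZ.ind i j hij
  obtain ⟨τ, hτ, hc⟩ := bij (n := 5) hF hZ hw hw2
  have hgne := res_ne hF (v i) hw2
  rw [hw1, ← ln_eq_pts, hcard] at hc
  have h0r : (0 : K) ∈ (res F (v i) w).roots := by
    rw [mem_roots hgne]
    change (res F (v i) w).eval 0 = 0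
    rw [res_eval, zero_smul, add_zero, hZ.zero i]
  obtain ⟨r, hr0, hT⟩ : ∃ r, r ≠ 0 ∧ (res F (v i) w).roots.toFinset = {0, r} := by
    obtain ⟨x, y, hxy, hE⟩ := Finset.card_eq_two.mp hc.symm
    have h0 : (0 : K) ∈ ({x, y} : Finset K) := by
      rw [← hE]
      exact Multiset.mem_toFinset.mpr h0r
    rw [Finset.mem_insert, Finset.mem_singleton] at h0
    rcases h0 with rfl | rfl
    · exact ⟨y, hxy.symm, hE⟩
    · exact ⟨x, hxy, by rw [hE, Finset.pair_comm]⟩
  have hr : r ∈ (res F (v i) w).roots := by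
    rw [← Multiset.mem_toFinset, hT]
    simp
  obtain ⟨hτr, c, hc0, hx⟩ := hτ r hr
  have hτi : τ r ≠ i := by
    intro hE
    rw [hE] at hx
    have h1 : cr (v i) (v i + r • w) = r • cr (v i) w := by
      refine ext3 ?_ ?_ ?_ <;> simp <;> ring
    have h2 : cr (v i) (c • v i) = 0 := by
      refine ext3 ?_ ?_ ?_ <;> simp <;> ring
    rw [hx, h2] at h1
    rcases smul_eq_zero.mp h1.symm with h3 | h3
    · exact hr0 h3
    · exact hw h3
  have hτj : τ r = j := by
    rw [hw1, ← ln_eq_pts] at hτr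
    by_contra hne
    have hsub : ({i, j, τ r} : Finset ι) ⊆ ln v i j := by
      intro k hk
      simp only [Finset.mem_insert, Finset.mem_singleton] at hk
      rcases hk with rfl | rfl | rfl
      · exact mem_ln.mpr (d3_left _ _)
      · exact mem_ln.mpr (d3_right _ _)
      · exact hτr
    have h3 := Finset.card_le_card hsub
    rw [hcard, Finset.card_eq_three.mpr ⟨i, j, τ r, hij, hτi.symm, (Ne.symm hne), rfl⟩] at h3
    omega
  obtain ⟨t1, t2, t3⟩ := tang hF hZ hc0 hx
  rw [hτj] at t1 t2 t3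
  have hdw : dt (gr F (v j)) w ≠ 0 := by
    intro h0
    rw [h0, mul_zero, neg_zero] at t3
    exact hj t3
  have hcr : (res F (v i) w).roots.count r ≤ 1 := by
    rw [count_roots]
    by_contra hlt
    exact hdw (t2.mp ((one_lt_rootMultiplicity_iff_isRoot hgne).mp (by omega)).2)
  have hsum := sum_counts hF hw2 hw3
  rw [hT, Finset.sum_pair hr0.symm] at hsum
  have h5 : 5 ≤ (res F (v i) w).roots.count 0 := by omega
  rw [count_roots] at h5
  have h6 : X ^ 5 ∣ res F (v i) w := by
    have h7 := (pow_dvd_pow _ h5).trans (pow_rootMultiplicity_dvd (res F (v i) w) 0)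
    rwa [C_0, sub_zero] at h7
  have hperp : dt (cr (v i) w) (v j) = 0 := by
    rw [hw1]
    exact d3_right _ _
  obtain ⟨s, t, hst⟩ := in_span hw hperp
  rw [hst, add_comm]
  exact dvd_change hF h6 t s

/-- The finite case is impossible. -/
theorem chain [Infinite K] (φ : K →+* ℂ) (h4 : ∀ p : K[X], p.natDegree ≤ 4 → p.Splits)
    {F : MvPolynomial (Fin 3) K} (hF : F.IsHomogeneous 6) (hfin : ¬ (ZZ F).Infinite)
    {v : ι → Fin 3 → K} (hZ : FZ F v) {a b : ι} {r : Fin 3 → K}
    (hab : dt (gr F (v a)) (v b) = 0) (hba : dt (gr F (v b)) (v a) ≠ 0)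
    (h5 : ¬ X ^ 5 ∣ res F (v a) (v b)) (hr : dt (gr F (v b)) r = 0)
    (h5r : ¬ X ^ 5 ∣ res F (v b) r) : False := by
  have hbb : dt (gr F (v b)) (v b) = 0 := by rw [euler hF, hZ.zero b, mul_zero]
  have hne : a ≠ b := by
    rintro rfl
    exact hba hbb
  have hN : 2 ≤ Fintype.card ι := Fintype.one_lt_card_iff.mpr ⟨a, b, hne⟩
  have hsm := smooth h4 hF hfin hZ (by omega)
  obtain ⟨h6, hshort⟩ := short_le h4 hF hfin hZ hsm
  have hLS := lns_isLS hZ.ind
  -- the tangent at `a`
  have haa : dt (gr F (v a)) (v a) = 0 := by rw [euler hF, hZ.zero a, mul_zero]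
  have hTa : pts v (gr F (v a)) = ln v a b :=
    pts_eq_ln (hsm a) (hZ.ind a b hne) (mem_pts.mpr haa) (mem_pts.mpr hab)
  -- contact of order five at `b` in any direction contradicts `h5r`
  have hb5 : ∀ w, cr (v b) w ≠ 0 → ¬ X ^ 5 ∣ res F (v b) w := by
    intro w hw hd
    have hdw := dvd_tangent hd
    obtain ⟨s, hs⟩ := perp_par hw hbb hdw
    have hs0 : s ≠ 0 := by
      rintro rfl
      rw [zero_smul] at hs
      exact hsm b hs
    rw [hs, dt_smul_left, mul_eq_zero, or_iff_right hs0] at hr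
    obtain ⟨x, y, hxy⟩ := in_span hw hr
    apply h5r
    rw [hxy, add_comm]
    exact dvd_change hF hd y x
  have ha5 : ∀ w, cr (v a) w ≠ 0 → ¬ X ^ 5 ∣ res F (v a) w := by
    intro w hw hd
    have hdw := dvd_tangent hd
    obtain ⟨s, hs⟩ := perp_par hw haa hdw
    have hs0 : s ≠ 0 := by
      rintro rfl
      rw [zero_smul] at hs
      exact hsm a hs
    rw [hs, dt_smul_left, mul_eq_zero, or_iff_right hs0] at hab
    obtain ⟨x, y, hxy⟩ := in_span hw hab
    apply h5
    rw [hxy, add_comm]
    exact dvd_change hF hd y x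
  -- a point off the line `ab`
  obtain ⟨c, hc⟩ : ∃ c, c ∉ ln v a b := by
    obtain ⟨w, hw, hdw, hFw, hsp, hcount⟩ := tangent h4 hF hfin hZ (hsm b)
    obtain ⟨τ, hτ, hcard⟩ := bij (n := 5) hF hZ hw hFw
    obtain ⟨s, hs⟩ := perp_par hw hbb hdw
    have hs0 : s ≠ 0 := by
      rintro rfl
      rw [zero_smul] at hs
      exact hsm b hs
    have hroot : ∃ x ∈ (res F (v b) w).roots, x ≠ 0 := by
      by_contra hno
      simp only [not_exists, not_and, not_not] at hno
      apply hb5 w hw
      have hsum := sum_counts hF hFw hsp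
      have hsub : (res F (v b) w).roots.toFinset ⊆ {0} := by
        intro x hx
        rw [Finset.mem_singleton]
        exact hno x (Multiset.mem_toFinset.mp hx)
      rcases Finset.subset_singleton_iff.mp hsub with hE | hE
      · rw [hE] at hsum
        simp at hsum
      · rw [hE, Finset.sum_singleton, count_roots] at hsum
        have h7 := (pow_dvd_pow (X - C (0 : K)) (by omega : 5 ≤ (res F (v b) w).rootMultiplicity 0)).trans
          (pow_rootMultiplicity_dvd (res F (v b) w) 0)
        rwa [C_0, sub_zero] at h7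
    obtain ⟨x, hx, hx0⟩ := hroot
    obtain ⟨hτx, c, hc0, hxc⟩ := hτ x hx
    refine ⟨τ x, fun hmem => ?_⟩
    have hτb : τ x ≠ b := by
      intro hE
      rw [hE] at hxc
      have h1 : cr (v b) (v b + x • w) = x • cr (v b) w := by
        refine ext3 ?_ ?_ ?_ <;> simp <;> ring
      have h2 : cr (v b) (c • v b) = 0 := by
        refine ext3 ?_ ?_ ?_ <;> simp <;> ring
      rw [hxc, h2] at h1
      rcases smul_eq_zero.mp h1.symm with h3 | h3
      · exact hx0 h3
      · exact hw h3
    -- the tangent at `b` is the line through `b` and `τ x`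
    have hTb : pts v (gr F (v b)) = ln v b (τ x) := by
      refine pts_eq_ln (hsm b) (hZ.ind b _ hτb.symm) (mem_pts.mpr hbb) ?_
      rw [hs, pts_smul hs0]
      exact hτx
    have hEq : ln v a b = ln v b (τ x) :=
      hLS.un _ (mem_lns.mpr ⟨a, b, hne, rfl⟩) _ (mem_lns.mpr ⟨b, τ x, hτb.symm, rfl⟩) b (τ x)
        hτb.symm (mem_ln.mpr (d3_right _ _)) hmem (mem_ln.mpr (d3_left _ _))
        (mem_ln.mpr (d3_right _ _))
    have ha' : a ∈ pts v (gr F (v b)) := by
      rw [hTb, ← hEq]
      exact mem_ln.mpr (d3_left _ _)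
    exact hba (mem_pts.mp ha')
  -- all but one of the points are collinear
  obtain ⟨l0, hl0, hl0c⟩ := comb3 hLS h6 hshort (langerK φ hZ.ind) hN
  obtain ⟨D, hD⟩ : ∃ D, D ∉ l0 := by
    by_contra hall
    simp only [not_exists, not_not] at hall
    have hEq : ln v a b = l0 :=
      hLS.un _ (mem_lns.mpr ⟨a, b, hne, rfl⟩) _ hl0 a b hne (mem_ln.mpr (d3_left _ _))
        (mem_ln.mpr (d3_right _ _)) (hall a) (hall b)
    exact hc (hEq ▸ hall c)
  have honly : ∀ i, i ≠ D → i ∈ l0 := by
    intro i hi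
    by_contra hni
    have hsub : ({i, D} : Finset ι) ⊆ l0ᶜ := by
      intro k hk
      rw [Finset.mem_insert, Finset.mem_singleton] at hk
      rw [Finset.mem_compl]
      rcases hk with rfl | rfl
      · exact hni
      · exact hD
    have h8 := Finset.card_le_card hsub
    rw [Finset.card_pair hi, Finset.card_compl] at h8
    omega
  have htwo : ∀ i, i ≠ D → (ln v i D).card = 2 := by
    intro i hi
    have hE : ln v i D = {i, D} := by
      refine Finset.Subset.antisymm ?_ ?_
      · intro k hk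
        rw [Finset.mem_insert, Finset.mem_singleton]
        by_contra hno
        rw [not_or] at hno
        have hEq : ln v i D = l0 :=
          hLS.un _ (mem_lns.mpr ⟨i, D, hi, rfl⟩) _ hl0 i k (Ne.symm hno.1)
            (mem_ln.mpr (d3_left _ _)) hk (honly i hi) (honly k hno.2)
        exact hD (hEq ▸ mem_ln.mpr (d3_right _ _))
      · intro k hk
        rw [Finset.mem_insert, Finset.mem_singleton] at hk
        rcases hk with rfl | rfl
        · exact mem_ln.mpr (d3_left _ _)
        · exact mem_ln.mpr (d3_right _ _)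
    rw [hE, Finset.card_pair hi]
  have hsym : ln v a b = ln v b a := by
    ext k
    rw [mem_ln, mem_ln, d3_swap12]
    exact neg_eq_zero
  by_cases hDa : D = a
  · subst hDa
    have h8 := htwo b hne.symm
    rw [← hsym] at h8
    exact h5 (two h4 hF hfin hZ hne h8 hba)
  · by_cases hDb : D = b
    · subst hDb
      exact h5 (two h4 hF hfin hZ hne (htwo a hne) hba)
    · have hDa' : a ≠ D := Ne.symm hDa
      have hDb' : b ≠ D := Ne.symm hDb
      have h9 : dt (gr F (v D)) (v a) = 0 := by
        by_contra hno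
        exact ha5 (v D) (hZ.ind a D hDa') (two h4 hF hfin hZ hDa' (htwo a hDa') hno)
      have h10 : dt (gr F (v D)) (v b) = 0 := by
        by_contra hno
        exact hb5 (v D) (hZ.ind b D hDb') (two h4 hF hfin hZ hDb' (htwo b hDb') hno)
      have h11 : dt (gr F (v D)) (v D) = 0 := by rw [euler hF, hZ.zero D, mul_zero]
      have h12 : pts v (gr F (v D)) = ln v a b :=
        pts_eq_ln (hsm D) (hZ.ind a b hne) (mem_pts.mpr h9) (mem_pts.mpr h10)
      have h13 : ln v a b = l0 :=
        hLS.un _ (mem_lns.mpr ⟨a, b, hne, rfl⟩) _ hl0 a b hne (mem_ln.mpr (d3_left _ _))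
          (mem_ln.mpr (d3_right _ _)) (honly a hDa') (honly b hDb')
      apply hD
      rw [← h13, ← h12, mem_pts]
      exact h11

end Fin1

/-- A sextic form with a zero `p`, a second zero `q` on the tangent at `p` such that `p` is not on
the tangent at `q`, and both tangents of contact order at most four. -/
theorem core_chain [Infinite K] (φ : K →+* ℂ) (h4 : ∀ p : K[X], p.natDegree ≤ 4 → p.Splits)
    {F : MvPolynomial (Fin 3) K} (hF : F.IsHomogeneous 6) {p q r : Fin 3 → K}
    (hp : MvPolynomial.eval p F = 0) (hq : MvPolynomial.eval q F = 0)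
    (hpq : dt (gr F p) q = 0) (hqp : dt (gr F q) p ≠ 0) (hqr : dt (gr F q) r = 0)
    (h5 : ¬ X ^ 5 ∣ res F p q) (h5r : ¬ X ^ 5 ∣ res F q r) : (ZZ F).Infinite := by
  classical
  by_contra hinf
  have hfin := Set.not_infinite.mp hinf
  have hZ := FZ_of_finite hF hfin
  have hp0 : p ≠ 0 := by
    rintro rfl
    apply hqp
    unfold dt
    simp
  have hq0 : q ≠ 0 := by
    rintro rfl
    apply h5r
    have h1 : res F (0 : Fin 3 → K) r = X ^ 5 * (X * C (MvPolynomial.eval r F)) := by
      refine eq_of_infinite_eval_eq _ _ (Set.infinite_univ.mono ?_)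
      intro x _
      change eval x _ = eval x _
      rw [res_eval, zero_add, eval_smul hF]
      simp
      ring
    rw [h1]
    exact dvd_mul_right _ _
  obtain ⟨a, c, hc, rfl⟩ := hZ.compl p hp0 hp
  obtain ⟨b, d, hd, rfl⟩ := hZ.compl q hq0 hq
  rw [gr_smul (n := 5) hF, dt_smul_left, dt_smul, mul_eq_zero, or_iff_right (pow_ne_zero 5 hc),
    mul_eq_zero, or_iff_right hd] at hpq
  rw [gr_smul (n := 5) hF, dt_smul_left, dt_smul] at hqp
  rw [gr_smul (n := 5) hF, dt_smul_left, mul_eq_zero, or_iff_right (pow_ne_zero 5 hd)] at hqr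
  refine chain φ h4 hF hinf hZ hpq (right_ne_zero_of_mul (right_ne_zero_of_mul hqp)) ?_ hqr ?_
  · intro h
    exact h5 (dvd_smul1 hF (dvd_smul2 hF h d) hc)
  · intro h
    exact h5r (dvd_smul1 hF h hd)

end Pool.Agent.H31.SX
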