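import Pool.Agent.H31.SX.Langer

/-! # Linear spaces with few short lines -/

set_option autoImplicit false

namespace Pool.Agent.H31.SX

open Finset

variable {ι : Type*} [Fintype ι] [DecidableEq ι]

set_option linter.unusedSectionVars false

/-- Counting pairs. -/
theorem five_sum {L : Finset (Finset ι)} (h : IsLS L) (h6 : ∀ l ∈ L, l.card ≤ 6) :
    5 * ∑ l ∈ L, (l.card : ℝ) ≤ (Fintype.card ι : ℝ) ^ 2 - Fintype.card ι +
      9 * (L.filter (fun l => l.card < 6)).card := by
  have h1 := h.sum_pairs (fun _ => 1)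
  have hcard : ∀ l : Finset ι, ∑ p ∈ l.offDiag, (1 : ℝ) = (l.card : ℝ) ^ 2 - l.card := by
    intro l
    rw [sum_offDiag l (fun _ _ => 1)]
    simp
    ring
  simp only [hcard] at h1
  rw [Finset.card_univ] at h1
  rw [← h1]
  have h2 : (9 : ℝ) * (L.filter (fun l => l.card < 6)).card =
      ∑ l ∈ L, if l.card < 6 then (9 : ℝ) else 0 := by
    rw [Finset.sum_ite, Finset.sum_const, Finset.sum_const_zero, add_zero, nsmul_eq_mul]
    ring
  rw [h2, ← Finset.sum_add_distrib, Finset.mul_sum]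
  refine Finset.sum_le_sum fun l hl => ?_
  have h3 := h6 l hl
  have h4 := h.two l hl
  generalize l.card = n at h3 h4 ⊢
  interval_cases n <;> norm_num

/-- The line through two points of a linear space. -/
theorem IsLS.exists_line {L : Finset (Finset ι)} (h : IsLS L) (D : ι) :
    ∃ m : ι → Finset ι, ∀ P, P ≠ D → m P ∈ L ∧ D ∈ m P ∧ P ∈ m P := by
  classical
  refine ⟨fun P => if hP : P ≠ D then (h.ex D P hP.symm).choose else ∅, fun P hP => ?_⟩
  simp only [dif_pos hP]
  exact (h.ex D P hP.symm).choose_spec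

theorem IsLS.inj {L : Finset (Finset ι)} (h : IsLS L) {l : Finset ι} (hl : l ∈ L) {D : ι}
    (hD : D ∉ l) {m : ι → Finset ι} (hm : ∀ P, P ≠ D → m P ∈ L ∧ D ∈ m P ∧ P ∈ m P)
    {P P' : ι} (hP : P ∈ l) (hP' : P' ∈ l) (heq : m P = m P') : P = P' := by
  by_contra hne
  have h1 : P ≠ D := fun e => hD (e ▸ hP)
  have h1' : P' ≠ D := fun e => hD (e ▸ hP')
  have h2 := hm P h1
  have h3 := hm P' h1'
  rw [← heq] at h3
  have := h.un l hl (m P) h2.1 P P' hne hP hP' h2.2.2 h3.2.2
  exact hD (this ▸ h2.2.1)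

theorem comb1 {L : Finset (Finset ι)} (h : IsLS L) (h6 : ∀ l ∈ L, l.card ≤ 6)
    (hshort : (L.filter (fun l => l.card < 6)).card ≤ Fintype.card ι)
    (hlang : 4 ≤ Fintype.card ι → (∀ l ∈ L, 3 * l.card < 2 * Fintype.card ι) →
      Fintype.card ι * (Fintype.card ι + 3) ≤ 3 * ∑ l ∈ L, l.card) :
    Fintype.card ι ≤ 7 := by
  by_contra hN
  set N := Fintype.card ι with hNdef
  by_cases hall : ∀ l ∈ L, 3 * l.card < 2 * N
  · have h1 := hlang (by omega) hall
    have h2 := five_sum h h6
    have h3 : (N : ℝ) * (N + 3) ≤ 3 * ∑ l ∈ L, (l.card : ℝ) := by exact_mod_cast h1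
    have h4 : (((L.filter (fun l => l.card < 6)).card : ℕ) : ℝ) ≤ N := by exact_mod_cast hshort
    have h5 : (8 : ℝ) ≤ N := by
      have : 8 ≤ N := by omega
      exact_mod_cast this
    rw [← hNdef] at h2
    nlinarith
  · simp only [not_forall, not_lt] at hall
    obtain ⟨l0, hl0, hbig⟩ := hall
    have h1 := h6 l0 hl0
    have hN9 : N ≤ 9 := by omega
    have h60 : l0.card = 6 := by omega
    have hcompl : 2 ≤ (l0ᶜ).card := by
      rw [Finset.card_compl]
      omega
    obtain ⟨D, hD, D', hD', hne⟩ := Finset.one_lt_card.mp (by omega : 1 < (l0ᶜ).card)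
    rw [Finset.mem_compl] at hD hD'
    obtain ⟨m, hm⟩ := h.exists_line D
    obtain ⟨m', hm'⟩ := h.exists_line D'
    have hA : (l0.image m).card = 6 := by
      rw [Finset.card_image_of_injOn, h60]
      intro P hP P' hP' heq
      exact h.inj hl0 hD hm hP hP' heq
    have hB : (l0.image m').card = 6 := by
      rw [Finset.card_image_of_injOn, h60]
      intro P hP P' hP' heq
      exact h.inj hl0 hD' hm' hP hP' heq
    have hAL : ∀ l ∈ l0.image m, l ∈ L ∧ D ∈ l := by
      intro l hl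
      obtain ⟨P, hP, rfl⟩ := Finset.mem_image.mp hl
      have := hm P (fun e => hD (e ▸ hP))
      exact ⟨this.1, this.2.1⟩
    have hBL : ∀ l ∈ l0.image m', l ∈ L ∧ D' ∈ l := by
      intro l hl
      obtain ⟨P, hP, rfl⟩ := Finset.mem_image.mp hl
      have := hm' P (fun e => hD' (e ▸ hP))
      exact ⟨this.1, this.2.1⟩
    have hAB : (l0.image m ∩ l0.image m').card ≤ 1 := by
      rw [Finset.card_le_one]
      intro l hl l' hl'
      rw [Finset.mem_inter] at hl hl'
      exact h.un l (hAL l hl.1).1 l' (hAL l' hl'.1).1 D D' hne (hAL l hl.1).2 (hBL l hl.2).2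
        (hAL l' hl'.1).2 (hBL l' hl'.2).2
    have hU : 11 ≤ (l0.image m ∪ l0.image m').card := by
      have := Finset.card_union_add_card_inter (l0.image m) (l0.image m')
      omega
    have hsub : l0.image m ∪ l0.image m' ⊆ L.filter (fun l => l.card < 6) := by
      intro l hl
      have hl2 : l ∈ L ∧ ∃ E, E ∈ l ∧ E ∉ l0 := by
        rcases Finset.mem_union.mp hl with h2 | h2
        · exact ⟨(hAL l h2).1, D, (hAL l h2).2, hD⟩
        · exact ⟨(hBL l h2).1, D', (hBL l h2).2, hD'⟩
      obtain ⟨hlL, E, hE, hE0⟩ := hl2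
      rw [Finset.mem_filter]
      refine ⟨hlL, ?_⟩
      have hint : (l ∩ l0).card ≤ 1 := by
        rw [Finset.card_le_one]
        intro P hP P' hP'
        by_contra hPP
        rw [Finset.mem_inter] at hP hP'
        have := h.un l hlL l0 hl0 P P' hPP hP.1 hP'.1 hP.2 hP'.2
        exact hE0 (this ▸ hE)
      have hdiff : (l \ l0).card ≤ (l0ᶜ).card := by
        refine Finset.card_le_card ?_
        intro x hx
        rw [Finset.mem_sdiff] at hx
        exact Finset.mem_compl.mpr hx.2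
      rw [Finset.card_compl] at hdiff
      have := Finset.card_sdiff_add_card_inter l l0
      omega
    have := Finset.card_le_card hsub
    omega

theorem comb2 {L : Finset (Finset ι)} (h : IsLS L) (h6 : ∀ l ∈ L, l.card ≤ 6)
    (hshort : (L.filter (fun l => l.card < 6)).card ≤ Fintype.card ι)
    (hlang : 4 ≤ Fintype.card ι → (∀ l ∈ L, 3 * l.card < 2 * Fintype.card ι) →
      Fintype.card ι * (Fintype.card ι + 3) ≤ 3 * ∑ l ∈ L, l.card)
    (h3 : ∀ l ∈ L, 3 ≤ l.card) (hnc : ∀ l ∈ L, ∃ D, D ∉ l) (hN : 2 ≤ Fintype.card ι) :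
    False := by
  classical
  set N := Fintype.card ι with hNdef
  have key : ∀ l ∈ L, 2 * l.card + 1 ≤ N := by
    intro l hl
    obtain ⟨D, hD⟩ := hnc l hl
    obtain ⟨m, hm⟩ := h.exists_line D
    have hQ : ∀ P ∈ l, ∃ Q, Q ∈ m P ∧ Q ≠ D ∧ Q ≠ P := by
      intro P hP
      have hPD : P ≠ D := fun e => hD (e ▸ hP)
      have h4 := h3 (m P) (hm P hPD).1
      have h5 : 0 < (((m P).erase D).erase P).card := by
        rw [Finset.card_erase_of_mem (Finset.mem_erase.mpr ⟨hPD, (hm P hPD).2.2⟩),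
          Finset.card_erase_of_mem (hm P hPD).2.1]
        omega
      obtain ⟨Q, hQ⟩ := Finset.card_pos.mp h5
      rw [Finset.mem_erase, Finset.mem_erase] at hQ
      exact ⟨Q, hQ.2.2, hQ.2.1, hQ.1⟩
    choose! Q hQ1 hQ2 hQ3 using hQ
    have hQl : ∀ P ∈ l, Q P ∉ l := by
      intro P hP hQl
      have hPD : P ≠ D := fun e => hD (e ▸ hP)
      have := h.un l hl (m P) (hm P hPD).1 P (Q P) (hQ3 P hP).symm hP hQl (hm P hPD).2.2
        (hQ1 P hP)
      exact hD (this ▸ (hm P hPD).2.1)
    have hQinj : Set.InjOn Q l := by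
      intro P hP P' hP' heq
      have hPD : P ≠ D := fun e => hD (e ▸ hP)
      have hPD' : P' ≠ D := fun e => hD (e ▸ hP')
      refine h.inj hl hD hm hP hP' ?_
      refine h.un _ (hm P hPD).1 _ (hm P' hPD').1 D (Q P) (hQ2 P hP).symm (hm P hPD).2.1
        (hQ1 P hP) (hm P' hPD').2.1 ?_
      rw [heq]
      exact hQ1 P' hP'
    have hcard : (l.image Q).card = l.card := Finset.card_image_of_injOn hQinj
    have hdisj : Disjoint l (l.image Q) := by
      rw [Finset.disjoint_left]
      intro x hx hx2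
      obtain ⟨P, hP, rfl⟩ := Finset.mem_image.mp hx2
      exact hQl P hP hx
    have hDn : D ∉ l ∪ l.image Q := by
      rw [Finset.mem_union]
      rintro (h4 | h4)
      · exact hD h4
      · obtain ⟨P, hP, h5⟩ := Finset.mem_image.mp h4
        exact hQ2 P hP h5
    have h7 : (insert D (l ∪ l.image Q)).card ≤ N := Finset.card_le_univ _
    rw [Finset.card_insert_of_notMem hDn, Finset.card_union_of_disjoint hdisj, hcard] at h7
    omega
  obtain ⟨i, j, hij⟩ := Fintype.one_lt_card_iff.mp (by omega : 1 < Fintype.card ι)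
  obtain ⟨l0, hl0, _, _⟩ := h.ex i j hij
  have h8 := key l0 hl0
  have h9 := h3 l0 hl0
  have h1 := hlang (by omega) (fun l hl => by have := key l hl; omega)
  have h2 := five_sum h h6
  have h3' : (N : ℝ) * (N + 3) ≤ 3 * ∑ l ∈ L, (l.card : ℝ) := by exact_mod_cast h1
  have h4 : (((L.filter (fun l => l.card < 6)).card : ℕ) : ℝ) ≤ N := by exact_mod_cast hshort
  have h5 : (7 : ℝ) ≤ N := by
    have : 7 ≤ N := by omega
    exact_mod_cast this
  rw [← hNdef] at h2
  nlinarith

end Pool.Agent.H31.SX
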