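import Pool.Agent.H31.SX.Fact

/-! # The main theorems over a subfield of `ℂ` closed under quartics -/

set_option autoImplicit false

namespace Pool.Agent.H31.SX

open Polynomial
open scoped LinearAlgebra.Projectivization

set_option linter.unusedSectionVars false

variable {K : Type*} [Field K]

section Fin0

variable [DecidableEq K] {ι : Type*} [Fintype ι] [DecidableEq ι]

theorem lns_map (φ : K →+* ℂ) (v : ι → Fin 3 → K) :
    lns (fun i => φ ∘ v i : ι → Fin 3 → ℂ) = lns v := by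
  have h : ∀ i j, ln (fun i => φ ∘ v i : ι → Fin 3 → ℂ) i j = ln v i j := by
    intro i j
    ext k
    rw [mem_ln, mem_ln, d3_map, map_eq_zero]
  unfold lns
  simp only [h]

theorem langerK (φ : K →+* ℂ) {v : ι → Fin 3 → K} (ind : ∀ i j, i ≠ j → cr (v i) (v j) ≠ 0)
    (hN : 4 ≤ Fintype.card ι) (hline : ∀ l ∈ lns v, 3 * l.card < 2 * Fintype.card ι) :
    Fintype.card ι * (Fintype.card ι + 3) ≤ 3 * ∑ l ∈ lns v, l.card := by
  have h := langer (fun i => φ ∘ v i : ι → Fin 3 → ℂ) hN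
    (by rw [lns_map]; exact lns_isLS ind) (by rw [lns_map]; exact hline)
  rw [lns_map] at h
  exact h

/-- Smoothness of all zeros. -/
theorem smooth [Infinite K] (h4 : ∀ p : K[X], p.natDegree ≤ 4 → p.Splits)
    {F : MvPolynomial (Fin 3) K} (hF : F.IsHomogeneous 6) (hfin : ¬ (ZZ F).Infinite)
    {v : ι → Fin 3 → K} (hZ : FZ F v) (hN : 1 < Fintype.card ι) (i : ι) :
    gr F (v i) ≠ 0 := by
  intro h0
  obtain ⟨j, hj⟩ := Fintype.exists_ne_of_one_lt_card hN i
  exact hfin (proj h4 hF (fun w => res_natDegree_lt2 (n := 4) hF w (v i) (hZ.zero i) h0)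
    (hZ.ind i j hj.symm) (hZ.zero j))

/-- Short lines are tangents. -/
theorem short_le [Infinite K] (h4 : ∀ p : K[X], p.natDegree ≤ 4 → p.Splits)
    {F : MvPolynomial (Fin 3) K} (hF : F.IsHomogeneous 6) (hfin : ¬ (ZZ F).Infinite)
    {v : ι → Fin 3 → K} (hZ : FZ F v) (hsm : ∀ i, gr F (v i) ≠ 0) :
    (∀ l ∈ lns v, l.card ≤ 6) ∧
      ((lns v).filter (fun l => l.card < 6)).card ≤ Fintype.card ι := by
  have key : ∀ l ∈ lns v, l.card ≤ 6 ∧ (l.card < 6 → ∃ i, pts v (gr F (v i)) = l) := by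
    intro l hl
    obtain ⟨a, b, hab, rfl⟩ := mem_lns.mp hl
    obtain ⟨w, hw1, hw2, hw3⟩ := secant h4 hF hfin hZ hab
    rw [ln_eq_pts, ← hw1]
    exact line6 hF hZ hsm (by rw [hw1]; exact hZ.ind a b hab) hw2 hw3
  refine ⟨fun l hl => (key l hl).1, ?_⟩
  have hsub : (lns v).filter (fun l => l.card < 6) ⊆
      (Finset.univ : Finset ι).image (fun i => pts v (gr F (v i))) := by
    intro l hl
    rw [Finset.mem_filter] at hl
    obtain ⟨i, hi⟩ := (key l hl.1).2 hl.2
    exact Finset.mem_image.mpr ⟨i, Finset.mem_univ i, hi⟩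
  refine (Finset.card_le_card hsub).trans ?_
  refine Finset.card_image_le.trans ?_
  rw [Finset.card_univ]

theorem seven [Infinite K] (φ : K →+* ℂ) (h4 : ∀ p : K[X], p.natDegree ≤ 4 → p.Splits)
    {F : MvPolynomial (Fin 3) K} (hF : F.IsHomogeneous 6) (hfin : ¬ (ZZ F).Infinite)
    {v : ι → Fin 3 → K} (hZ : FZ F v) : Fintype.card ι ≤ 7 := by
  by_cases hN : 1 < Fintype.card ι
  · have hsm := smooth h4 hF hfin hZ hN
    obtain ⟨h6, hshort⟩ := short_le h4 hF hfin hZ hsm
    exact comb1 (lns_isLS hZ.ind) h6 hshort (langerK φ hZ.ind)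
  · omega

/-- The condition on the restrictions. -/
def Gen (F : MvPolynomial (Fin 3) K) : Prop :=
  ∀ u w : Fin 3 → K, cr u w ≠ 0 → MvPolynomial.eval w F ≠ 0 →
    ¬ (IsSquare (res F u w) ∨ (∃ h : K[X], res F u w = h ^ 3) ∨
      ∃ c, (X - C c) ^ 5 ∣ res F u w)

theorem not_two [Infinite K] (h4 : ∀ p : K[X], p.natDegree ≤ 4 → p.Splits)
    {F : MvPolynomial (Fin 3) K} (hF : F.IsHomogeneous 6) (H : Gen F) {u w : Fin 3 → K}
    (hw : cr u w ≠ 0) (hFw : MvPolynomial.eval w F ≠ 0) (hsp : (res F u w).Splits) :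
    3 ≤ (res F u w).roots.toFinset.card ∧
      ∃ r ∈ (res F u w).roots, (res F u w).roots.count r < 2 := by
  have hsum : ∑ a ∈ (res F u w).roots.toFinset, (res F u w).roots.count a = 6 := by
    rw [Multiset.toFinset_sum_count_eq, ← hsp.natDegree_eq_card_roots, res_deg6 hF u hFw]
  constructor
  · by_contra hlt
    refine H u w hw hFw (special h4 hsp (cnt_two _ _ ?_ hsum (by omega)))
    intro a ha
    exact Multiset.count_pos.mpr (Multiset.mem_toFinset.mp ha)
  · by_contra hno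
    simp only [not_exists, not_and, not_lt] at hno
    refine H u w hw hFw (special h4 hsp (cnt_ge _ _ ?_ hsum))
    intro a ha
    exact hno a (Multiset.mem_toFinset.mp ha)

theorem tan3 [Infinite K] (h4 : ∀ p : K[X], p.natDegree ≤ 4 → p.Splits)
    {F : MvPolynomial (Fin 3) K} (hF : F.IsHomogeneous 6) (H : Gen F)
    (hfin : ¬ (ZZ F).Infinite) {v : ι → Fin 3 → K} (hZ : FZ F v) {a : ι}
    (ha : gr F (v a) ≠ 0) :
    3 ≤ (pts v (gr F (v a))).card ∧ ∃ i, dt (gr F (v i)) (v a) ≠ 0 := by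
  obtain ⟨w, hw, hdw, hFw, hsp, hcount⟩ := tangent h4 hF hfin hZ ha
  obtain ⟨h3, r, hr, hr2⟩ := not_two h4 hF H hw hFw hsp
  obtain ⟨τ, hτ, hcard⟩ := bij (n := 5) hF hZ hw hFw
  constructor
  · have hna : dt (gr F (v a)) (v a) = 0 := by rw [euler hF, hZ.zero a, mul_zero]
    obtain ⟨s, hs⟩ := perp_par hw hna hdw
    have hs0 : s ≠ 0 := by
      rintro rfl
      rw [zero_smul] at hs
      exact ha hs
    rw [hs, pts_smul hs0, hcard]
    exact h3
  · obtain ⟨_, c, hc, hx⟩ := hτ r hr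
    obtain ⟨t1, t2, t3⟩ := tang hF hZ hc hx
    refine ⟨τ r, ?_⟩
    rw [t3]
    have hr0 : r ≠ 0 := by
      rintro rfl
      omega
    have hd : dt (gr F (v (τ r))) w ≠ 0 := by
      intro h0
      have h1 := t2.mpr h0
      have h2 : 1 < (res F (v a) w).rootMultiplicity r := by
        rw [one_lt_rootMultiplicity_iff_isRoot (res_ne hF (v a) hFw)]
        exact ⟨(mem_roots'.mp hr).2, h1⟩
      rw [count_roots] at hr2
      omega
    exact neg_ne_zero.mpr (mul_ne_zero hr0 hd)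

theorem no_finite [Infinite K] (φ : K →+* ℂ) (h4 : ∀ p : K[X], p.natDegree ≤ 4 → p.Splits)
    {F : MvPolynomial (Fin 3) K} (hF : F.IsHomogeneous 6) (H : Gen F)
    (hfin : ¬ (ZZ F).Infinite) {v : ι → Fin 3 → K} (hZ : FZ F v) {a0 : ι}
    (ha0 : gr F (v a0) ≠ 0) : False := by
  have hN3 : 3 ≤ Fintype.card ι :=
    (tan3 h4 hF H hfin hZ ha0).1.trans (Finset.card_le_univ _)
  have hsm := smooth h4 hF hfin hZ (by omega)
  obtain ⟨h6, hshort⟩ := short_le h4 hF hfin hZ hsm
  have hLS := lns_isLS hZ.ind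
  refine comb2 hLS h6 hshort (langerK φ hZ.ind) ?_ ?_ (by omega)
  · intro l hl
    obtain ⟨a, b, hab, rfl⟩ := mem_lns.mp hl
    obtain ⟨w, hw1, hw2, hw3⟩ := secant h4 hF hfin hZ hab
    have hw : cr (v a) w ≠ 0 := by rw [hw1]; exact hZ.ind a b hab
    obtain ⟨τ, hτ, hcard⟩ := bij (n := 5) hF hZ hw hw2
    rw [ln_eq_pts, ← hw1, hcard]
    exact (not_two h4 hF H hw hw2 hw3).1
  · intro l hl
    by_contra hall
    simp only [not_exists, not_not] at hall
    obtain ⟨a, b, hab, rfl⟩ := mem_lns.mp hl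
    obtain ⟨_, i, hi⟩ := tan3 h4 hF H hfin hZ (hsm a)
    have hcard := (tan3 h4 hF H hfin hZ (hsm i)).1
    have hii : i ∈ pts v (gr F (v i)) := by
      rw [mem_pts, euler hF, hZ.zero i, mul_zero]
    have hj : ∃ j ∈ pts v (gr F (v i)), j ≠ i := by
      by_contra hno
      simp only [not_exists, not_and, not_not] at hno
      have : pts v (gr F (v i)) ⊆ {i} := by
        intro j hj
        rw [Finset.mem_singleton]
        exact hno j hj
      have := Finset.card_le_card this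
      rw [Finset.card_singleton] at this
      omega
    obtain ⟨j, hj, hji⟩ := hj
    have hEq : pts v (gr F (v i)) = ln v i j :=
      pts_eq_ln (hsm i) (hZ.ind i j hji.symm) hii hj
    have hl2 : ln v a b = ln v i j :=
      hLS.un _ hl _ (mem_lns.mpr ⟨i, j, hji.symm, rfl⟩) i j hji.symm (hall i) (hall j)
        (mem_ln.mpr (d3_left _ _)) (mem_ln.mpr (d3_right _ _))
    have ha : a ∈ pts v (gr F (v i)) := by
      rw [hEq, ← hl2]
      exact hall a
    rw [mem_pts] at ha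
    exact hi ha

end Fin0

/-- The list of the zeros. -/
theorem FZ_of_finite [DecidableEq K] {F : MvPolynomial (Fin 3) K} {n : ℕ}
    (hF : F.IsHomogeneous n) (hfin : (ZZ F).Finite) :
    FZ F (fun P : hfin.toFinset => P.1.rep) := by
  refine ⟨fun P => P.1.rep_nonzero, ?_, ?_, ?_⟩
  · intro P Q hPQ h0
    obtain ⟨s, hs⟩ := parallel h0 Q.1.rep_nonzero
    apply hPQ
    apply Subtype.ext
    rw [← Projectivization.mk_rep P.1, ← Projectivization.mk_rep Q.1,
      Projectivization.mk_eq_mk_iff']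
    exact ⟨s, hs.symm⟩
  · intro P
    exact hfin.mem_toFinset.mp P.2
  · intro x hx h0
    refine ⟨⟨Projectivization.mk K x hx, hfin.mem_toFinset.mpr (mem_ZZ_mk hF hx h0)⟩, ?_⟩
    obtain ⟨a, ha⟩ := Projectivization.exists_smul_eq_mk_rep K x hx
    refine ⟨((a⁻¹ : Kˣ) : K), (a⁻¹ : Kˣ).ne_zero, ?_⟩
    simp only
    rw [← ha]
    have : (((a⁻¹ : Kˣ) : K) • (a • x) : Fin 3 → K) = (a⁻¹ : Kˣ) • (a • x) := rfl
    rw [this, inv_smul_smul]

/-- Sextics: at most seven zeros or infinitely many. -/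
theorem core6 [Infinite K] (φ : K →+* ℂ) (h4 : ∀ p : K[X], p.natDegree ≤ 4 → p.Splits)
    {F : MvPolynomial (Fin 3) K} (hF : F.IsHomogeneous 6) :
    (ZZ F).Infinite ∨ (ZZ F).ncard ≤ 7 := by
  classical
  by_cases hinf : (ZZ F).Infinite
  · exact Or.inl hinf
  · right
    have hfin := Set.not_infinite.mp hinf
    have h := seven φ h4 hF hinf (FZ_of_finite hF hfin)
    rw [Fintype.card_coe] at h
    rw [Set.ncard_eq_toFinset_card _ hfin]
    exact h

/-- Degree at most five: at most one zero or infinitely many. -/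
theorem core5 [Infinite K] (h4 : ∀ p : K[X], p.natDegree ≤ 4 → p.Splits)
    {F : MvPolynomial (Fin 3) K} {n : ℕ} (hn : n ≤ 5) (hF : F.IsHomogeneous n) :
    (ZZ F).Infinite ∨ (ZZ F).ncard ≤ 1 := by
  classical
  by_cases hinf : (ZZ F).Infinite
  · exact Or.inl hinf
  · right
    have hfin := Set.not_infinite.mp hinf
    have hZ := FZ_of_finite hF hfin
    rw [Set.ncard_le_one hfin]
    intro P hP Q hQ
    by_contra hne
    have hdeg : ∀ w, (res F w P.rep).natDegree ≤ 4 := by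
      intro w
      by_cases h5 : n = 5
      · subst h5
        exact res_natDegree_lt (n := 4) hF w P.rep hP
      · exact (res_natDegree_le hF w P.rep).trans (by omega)
    exact hinf (proj h4 hF hdeg (hZ.ind ⟨P, hfin.mem_toFinset.mpr hP⟩
      ⟨Q, hfin.mem_toFinset.mpr hQ⟩ (fun h => hne (congrArg Subtype.val h))) hQ)

/-- Sextics with a smooth zero. -/
theorem core_gen [Infinite K] (φ : K →+* ℂ) (h4 : ∀ p : K[X], p.natDegree ≤ 4 → p.Splits)
    {F : MvPolynomial (Fin 3) K} (hF : F.IsHomogeneous 6) (H : Gen F)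
    {P : ℙ K (Fin 3 → K)} (hP : P ∈ ZZ F) (hsm : gr F P.rep ≠ 0) : (ZZ F).Infinite := by
  classical
  by_contra hinf
  have hfin := Set.not_infinite.mp hinf
  exact no_finite φ h4 hF H hinf (FZ_of_finite hF hfin)
    (a0 := ⟨P, hfin.mem_toFinset.mpr hP⟩) hsm

end Pool.Agent.H31.SX
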