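import Mathlib

/-! # Cross product, determinant, restriction of a form to a line -/

set_option autoImplicit false

namespace Pool.Agent.H31.SX

/-- The cross product. -/
def cr {R : Type*} [CommRing R] (a b : Fin 3 → R) : Fin 3 → R :=
  ![a 1 * b 2 - a 2 * b 1, a 2 * b 0 - a 0 * b 2, a 0 * b 1 - a 1 * b 0]

/-- The bilinear form `a ⬝ b`. -/
def dt {R : Type*} [CommRing R] (a b : Fin 3 → R) : R := a 0 * b 0 + a 1 * b 1 + a 2 * b 2

/-- The determinant of three vectors. -/
def d3 {R : Type*} [CommRing R] (a b c : Fin 3 → R) : R := dt (cr a b) c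

set_option linter.unusedSectionVars false

section Ring

variable {R : Type*} [CommRing R]

@[simp] theorem cr_zero (a b : Fin 3 → R) : cr a b 0 = a 1 * b 2 - a 2 * b 1 := rfl
@[simp] theorem cr_one (a b : Fin 3 → R) : cr a b 1 = a 2 * b 0 - a 0 * b 2 := rfl
@[simp] theorem cr_two (a b : Fin 3 → R) : cr a b 2 = a 0 * b 1 - a 1 * b 0 := rfl

theorem ext3 {a b : Fin 3 → R} (h0 : a 0 = b 0) (h1 : a 1 = b 1) (h2 : a 2 = b 2) : a = b := by
  funext i
  fin_cases i
  · exact h0
  · exact h1
  · exact h2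

theorem d3_swap12 (a b c : Fin 3 → R) : d3 b a c = -d3 a b c := by
  unfold d3 dt; simp; ring

theorem d3_swap23 (a b c : Fin 3 → R) : d3 a c b = -d3 a b c := by
  unfold d3 dt; simp; ring

theorem d3_self (a c : Fin 3 → R) : d3 a a c = 0 := by
  unfold d3 dt; simp; ring

theorem d3_right (a b : Fin 3 → R) : d3 a b b = 0 := by
  unfold d3 dt; simp; ring

theorem d3_left (a b : Fin 3 → R) : d3 a b a = 0 := by
  unfold d3 dt; simp; ring

theorem d3_cyc (a b c : Fin 3 → R) : d3 b c a = d3 a b c := by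
  unfold d3 dt; simp; ring

theorem dt_comm (a b : Fin 3 → R) : dt a b = dt b a := by
  unfold dt; ring

theorem dt_add (a b c : Fin 3 → R) : dt a (b + c) = dt a b + dt a c := by
  unfold dt; simp; ring

theorem dt_smul (a b : Fin 3 → R) (s : R) : dt a (s • b) = s * dt a b := by
  unfold dt; simp; ring

theorem d3_smul1 (s : R) (a b c : Fin 3 → R) : d3 (s • a) b c = s * d3 a b c := by
  unfold d3 dt; simp; ring

theorem d3_smul2 (s : R) (a b c : Fin 3 → R) : d3 a (s • b) c = s * d3 a b c := by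
  unfold d3 dt; simp; ring

theorem d3_smul3 (s : R) (a b c : Fin 3 → R) : d3 a b (s • c) = s * d3 a b c := by
  unfold d3 dt; simp; ring

/-- Cramer's rule. -/
theorem cramer (a b c y : Fin 3 → R) (m : Fin 3) :
    d3 a b c * y m = cr b c m * dt a y + cr c a m * dt b y + cr a b m * dt c y := by
  unfold d3 dt
  fin_cases m <;> simp <;> ring

/-- The expansion of a vector in a basis. -/
theorem expand (a b c y : Fin 3 → R) (m : Fin 3) :
    d3 a b c * y m = d3 y b c * a m + d3 a y c * b m + d3 a b y * c m := by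
  unfold d3 dt
  fin_cases m <;> simp <;> ring

theorem mulVec3 (P : Matrix (Fin 3) (Fin 3) R) (a : Fin 3 → R) (m : Fin 3) :
    P.mulVec a m = P m 0 * a 0 + P m 1 * a 1 + P m 2 * a 2 := by
  simp [Matrix.mulVec, dotProduct, Fin.sum_univ_three]

theorem d3_mulVec (P : Matrix (Fin 3) (Fin 3) R) (a b c : Fin 3 → R) :
    d3 (P.mulVec a) (P.mulVec b) (P.mulVec c) = P.det * d3 a b c := by
  unfold d3 dt
  simp only [cr_zero, cr_one, cr_two, mulVec3, Matrix.det_fin_three]
  ring

theorem d3_map {S : Type*} [CommRing S] (φ : R →+* S) (a b c : Fin 3 → R) :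
    d3 (φ ∘ a) (φ ∘ b) (φ ∘ c) = φ (d3 a b c) := by
  unfold d3 dt
  simp

end Ring

end Pool.Agent.H31.SX
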