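import Pool.Agent.H31.SX.Line

/-! # Secants and tangents of a sextic -/

set_option autoImplicit false

namespace Pool.Agent.H31.SX

open Polynomial

set_option linter.unusedSectionVars false

variable {K : Type*} [Field K] [DecidableEq K] {ι : Type*} [Fintype ι] [DecidableEq ι]

theorem split6 (h4 : ∀ p : K[X], p.natDegree ≤ 4 → p.Splits) {g : K[X]} (hg : g ≠ 0)
    (hd : g.natDegree = 6) {r r' : K} (h : ({r, r'} : Multiset K) ≤ g.roots) : g.Splits := by
  obtain ⟨q, hq⟩ := (Multiset.prod_X_sub_C_dvd_iff_le_roots hg _).mpr h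
  have hq' : g = (X - C r) * (X - C r') * q := by
    rw [hq]
    simp
  have hq0 : q ≠ 0 := by
    rintro rfl
    exact hg (by rw [hq', mul_zero])
  have hdq : q.natDegree = 4 := by
    have h1 : g.natDegree = 2 + q.natDegree := by
      rw [hq', natDegree_mul (mul_ne_zero (X_sub_C_ne_zero r) (X_sub_C_ne_zero r')) hq0,
        natDegree_mul (X_sub_C_ne_zero r) (X_sub_C_ne_zero r'), natDegree_X_sub_C,
        natDegree_X_sub_C]
    omega
  rw [hq']
  exact ((Splits.X_sub_C r).mul (Splits.X_sub_C r')).mul (h4 q hdq.le)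

theorem res_deg6 [Infinite K] {F : MvPolynomial (Fin 3) K} (hF : F.IsHomogeneous 6)
    (u : Fin 3 → K) {w : Fin 3 → K} (hFw : MvPolynomial.eval w F ≠ 0) :
    (res F u w).natDegree = 6 := by
  have h1 := res_natDegree_le hF u w
  have h2 := res_coeff_top hF u w
  rcases h1.lt_or_eq with h | h
  · rw [coeff_eq_zero_of_natDegree_lt h] at h2
    exact absurd h2.symm hFw
  · exact h

theorem res_ne [Infinite K] {F : MvPolynomial (Fin 3) K} (hF : F.IsHomogeneous 6)
    (u : Fin 3 → K) {w : Fin 3 → K} (hFw : MvPolynomial.eval w F ≠ 0) : res F u w ≠ 0 := by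
  intro h0
  have h1 := res_deg6 hF u hFw
  rw [h0, natDegree_zero] at h1
  omega

/-- A multiple root is a point of tangency. -/
theorem tang {F : MvPolynomial (Fin 3) K} (hF : F.IsHomogeneous 6) {v : ι → Fin 3 → K}
    (hZ : FZ F v) {a : ι} {w : Fin 3 → K} {r c : K} {i : ι} (hc : c ≠ 0)
    (hx : v a + r • w = c • v i) :
    dt (gr F (v i)) (v i) = 0 ∧
      ((derivative (res F (v a) w)).eval r = 0 ↔ dt (gr F (v i)) w = 0) ∧
      dt (gr F (v i)) (v a) = -(r * dt (gr F (v i)) w) := by
  have h1 : dt (gr F (v i)) (v i) = 0 := by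
    rw [euler hF, hZ.zero i, mul_zero]
  refine ⟨h1, ?_, ?_⟩
  · rw [res_derivative_eval, hx, gr_smul (n := 5) hF, dt_smul_left, mul_eq_zero,
      or_iff_right (pow_ne_zero 5 hc)]
  · have h2 : dt (gr F (v i)) (v a + r • w) = 0 := by
      rw [hx, dt_smul, h1, mul_zero]
    rw [dt_add, dt_smul] at h2
    linear_combination h2

theorem line6 [Infinite K] {F : MvPolynomial (Fin 3) K} (hF : F.IsHomogeneous 6)
    {v : ι → Fin 3 → K} (hZ : FZ F v) (hsm : ∀ i, gr F (v i) ≠ 0) {a : ι} {w : Fin 3 → K}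
    (hw : cr (v a) w ≠ 0) (hFw : MvPolynomial.eval w F ≠ 0) (hsp : (res F (v a) w).Splits) :
    (pts v (cr (v a) w)).card ≤ 6 ∧ ((pts v (cr (v a) w)).card < 6 →
      ∃ i, pts v (gr F (v i)) = pts v (cr (v a) w)) := by
  obtain ⟨τ, hτ, hcard⟩ := bij (n := 5) hF hZ hw hFw
  have h6 : (res F (v a) w).roots.card = 6 := by
    rw [← hsp.natDegree_eq_card_roots, res_deg6 hF (v a) hFw]
  rw [hcard]
  refine ⟨?_, ?_⟩
  · rw [← h6]
    exact Multiset.toFinset_card_le _
  · intro hlt
    have hnd : ¬ (res F (v a) w).roots.Nodup := by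
      intro hnd
      rw [Multiset.toFinset_card_of_nodup hnd] at hlt
      omega
    rw [Multiset.nodup_iff_count_le_one] at hnd
    simp only [not_forall, not_le] at hnd
    obtain ⟨r, hr⟩ := hnd
    have hrm : r ∈ (res F (v a) w).roots := Multiset.count_pos.mp (by omega)
    obtain ⟨_, c, hc, hx⟩ := hτ r hrm
    obtain ⟨t1, t2, t3⟩ := tang hF hZ hc hx
    rw [count_roots, one_lt_rootMultiplicity_iff_isRoot (res_ne hF (v a) hFw)] at hr
    have h7 : dt (gr F (v (τ r))) w = 0 := t2.mp hr.2
    have h8 : dt (gr F (v (τ r))) (v a) = 0 := by rw [t3, h7]; ring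
    obtain ⟨s, hs⟩ := perp_par hw h8 h7
    have hs0 : s ≠ 0 := by
      rintro rfl
      rw [zero_smul] at hs
      exact hsm _ hs
    exact ⟨τ r, by rw [hs, pts_smul hs0]⟩

/-- A vector on a secant where the form does not vanish. -/
theorem secant [Infinite K] (h4 : ∀ p : K[X], p.natDegree ≤ 4 → p.Splits)
    {F : MvPolynomial (Fin 3) K} (hF : F.IsHomogeneous 6) (hfin : ¬ (ZZ F).Infinite)
    {v : ι → Fin 3 → K} (hZ : FZ F v) {a b : ι} (hab : a ≠ b) :
    ∃ w, cr (v a) w = cr (v a) (v b) ∧ MvPolynomial.eval w F ≠ 0 ∧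
      (res F (v a) w).Splits := by
  have hne : ∃ s : K, MvPolynomial.eval (v b + s • v a) F ≠ 0 := by
    by_contra hno
    simp only [not_exists, not_not] at hno
    exact hfin (inf_line hF (hZ.ind b a hab.symm) hno)
  obtain ⟨s, hs⟩ := hne
  refine ⟨v b + s • v a, cr_ne_of_ind s, hs, ?_⟩
  have hs0 : s ≠ 0 := by
    rintro rfl
    rw [zero_smul, add_zero] at hs
    exact hs (hZ.zero b)
  have hgne := res_ne hF (v a) hs
  refine split6 h4 hgne (res_deg6 hF (v a) hs) (r := 0) (r' := -s⁻¹) ?_
  have hnd : ({0, -s⁻¹} : Multiset K).Nodup := by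
    rw [Multiset.insert_eq_cons, Multiset.nodup_cons]
    refine ⟨?_, Multiset.nodup_singleton _⟩
    rw [Multiset.mem_singleton]
    intro h0
    have : s⁻¹ = 0 := by linear_combination h0
    exact hs0 (inv_eq_zero.mp this)
  rw [Multiset.le_iff_subset hnd]
  intro r hr
  rw [Multiset.insert_eq_cons, Multiset.mem_cons, Multiset.mem_singleton] at hr
  rw [mem_roots hgne]
  rcases hr with rfl | rfl
  · change (res F (v a) (v b + s • v a)).eval 0 = 0
    rw [res_eval, zero_smul, add_zero, hZ.zero a]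
  · change (res F (v a) (v b + s • v a)).eval (-s⁻¹) = 0
    rw [res_eval]
    have h1 : v a + (-s⁻¹) • (v b + s • v a) = (-s⁻¹) • v b := by
      rw [smul_add, smul_smul, neg_mul, inv_mul_cancel₀ hs0]
      module
    rw [h1, eval_smul hF, hZ.zero b, mul_zero]

/-- A vector on a tangent where the form does not vanish. -/
theorem tangent [Infinite K] (h4 : ∀ p : K[X], p.natDegree ≤ 4 → p.Splits)
    {F : MvPolynomial (Fin 3) K} (hF : F.IsHomogeneous 6) (hfin : ¬ (ZZ F).Infinite)
    {v : ι → Fin 3 → K} (hZ : FZ F v) {a : ι} (ha : gr F (v a) ≠ 0) :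
    ∃ w, cr (v a) w ≠ 0 ∧ dt (gr F (v a)) w = 0 ∧ MvPolynomial.eval w F ≠ 0 ∧
      (res F (v a) w).Splits ∧ 2 ≤ (res F (v a) w).roots.count 0 := by
  set n := gr F (v a) with hn
  have hna : dt n (v a) = 0 := by rw [hn, euler hF, hZ.zero a, mul_zero]
  have ht0 : ∃ t0, dt n t0 = 0 ∧ cr (v a) t0 ≠ 0 := by
    have hm : ∃ m, v a m ≠ 0 := by
      by_contra hno
      simp only [not_exists, not_not] at hno
      exact hZ.nz a (funext hno)
    obtain ⟨m, hm⟩ := hm
    refine ⟨cr n (Pi.single m 1), ?_, ?_⟩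
    · unfold dt
      simp
      ring
    · intro h0
      apply ha
      have h1 : (v a m) • n = cr (v a) (cr n (Pi.single m 1)) := by
        unfold dt at hna
        fin_cases m
        · refine ext3 ?_ ?_ ?_
          · simp; linear_combination hna
          · simp
          · simp
        · refine ext3 ?_ ?_ ?_
          · simp
          · simp; linear_combination hna
          · simp
        · refine ext3 ?_ ?_ ?_
          · simp
          · simp
          · simp; linear_combination hna
      rw [h0, smul_eq_zero, or_iff_right hm] at h1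
      exact h1
  obtain ⟨t0, ht1, ht2⟩ := ht0
  have hne : ∃ s : K, MvPolynomial.eval (t0 + s • v a) F ≠ 0 := by
    by_contra hno
    simp only [not_exists, not_not] at hno
    refine hfin (inf_line hF ?_ hno)
    rw [cr_swap]
    exact neg_ne_zero.mpr ht2
  obtain ⟨s, hs⟩ := hne
  have hgne := res_ne hF (v a) hs
  have hdw : dt n (t0 + s • v a) = 0 := by
    rw [dt_add, dt_smul, ht1, hna]
    ring
  have hcount : 2 ≤ (res F (v a) (t0 + s • v a)).roots.count 0 := by
    rw [count_roots]
    have h1 : 1 < (res F (v a) (t0 + s • v a)).rootMultiplicity 0 := by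
      rw [one_lt_rootMultiplicity_iff_isRoot hgne]
      constructor
      · change (res F (v a) (t0 + s • v a)).eval 0 = 0
        rw [res_eval, zero_smul, add_zero, hZ.zero a]
      · change (derivative (res F (v a) (t0 + s • v a))).eval 0 = 0
        rw [res_derivative_eval, zero_smul, add_zero]
        exact hdw
    exact h1
  refine ⟨t0 + s • v a, ?_, hdw, hs, ?_, hcount⟩
  · rw [cr_ne_of_ind]
    exact ht2
  · refine split6 h4 hgne (res_deg6 hF (v a) hs) (r := 0) (r' := 0) ?_
    have : ({0, 0} : Multiset K) = Multiset.replicate 2 0 := rfl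
    rw [this, ← Multiset.le_count_iff_replicate_le]
    exact hcount

end Pool.Agent.H31.SX
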