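import Mathlib

/-! # Weights in equilibrium for a triple weight -/

set_option autoImplicit false

namespace Pool.Agent.H31.SX

open Finset

set_option linter.unusedSectionVars false

variable {ι : Type*} [Fintype ι] [DecidableEq ι]

/-- The cubic form of a triple weight. -/
noncomputable def DD (w : ι → ι → ι → ℝ) (c : ι → ℝ) : ℝ :=
  ∑ i, ∑ j, ∑ k, c i * c j * c k * w i j k

theorem DD_nonneg {w : ι → ι → ι → ℝ} (hw0 : ∀ i j k, 0 ≤ w i j k) {c : ι → ℝ}
    (hc : ∀ i, 0 ≤ c i) : 0 ≤ DD w c :=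
  Finset.sum_nonneg fun i _ => Finset.sum_nonneg fun j _ => Finset.sum_nonneg fun k _ =>
    mul_nonneg (mul_nonneg (mul_nonneg (hc i) (hc j)) (hc k)) (hw0 i j k)

theorem DD_ge {w : ι → ι → ι → ℝ} (hw0 : ∀ i j k, 0 ≤ w i j k) {c : ι → ℝ}
    (hc : ∀ i, 0 ≤ c i) (i j k : ι) : c i * c j * c k * w i j k ≤ DD w c := by
  have hn : ∀ i j k, 0 ≤ c i * c j * c k * w i j k := fun i j k =>
    mul_nonneg (mul_nonneg (mul_nonneg (hc i) (hc j)) (hc k)) (hw0 i j k)
  unfold DD
  calc c i * c j * c k * w i j k ≤ ∑ k, c i * c j * c k * w i j k :=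
        Finset.single_le_sum (f := fun k => c i * c j * c k * w i j k)
          (fun k _ => hn i j k) (Finset.mem_univ k)
    _ ≤ ∑ j, ∑ k, c i * c j * c k * w i j k :=
        Finset.single_le_sum (f := fun j => ∑ k, c i * c j * c k * w i j k)
          (fun j _ => Finset.sum_nonneg fun k _ => hn i j k) (Finset.mem_univ j)
    _ ≤ _ :=
        Finset.single_le_sum (f := fun i => ∑ j, ∑ k, c i * c j * c k * w i j k)
          (fun i _ => Finset.sum_nonneg fun j _ => Finset.sum_nonneg fun k _ => hn i j k)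
          (Finset.mem_univ i)

theorem DD_smul (w : ι → ι → ι → ℝ) (c : ι → ℝ) (a : ℝ) :
    DD w (fun i => a * c i) = a ^ 3 * DD w c := by
  unfold DD
  simp only [Finset.mul_sum]
  refine Finset.sum_congr rfl fun i _ => Finset.sum_congr rfl fun j _ =>
    Finset.sum_congr rfl fun k _ => ?_
  ring

/-- A positive lower bound of the nonzero values. -/
theorem exists_mu (w : ι → ι → ι → ℝ) (hw0 : ∀ i j k, 0 ≤ w i j k) :
    ∃ μ : ℝ, 0 < μ ∧ ∀ i j k, w i j k ≠ 0 → μ ≤ w i j k := by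
  rcases isEmpty_or_nonempty ι with h | h
  · exact ⟨1, one_pos, fun i => (h.false i).elim⟩
  · obtain ⟨t, ht⟩ := Finite.exists_min (fun t : ι × ι × ι =>
      if w t.1 t.2.1 t.2.2 = 0 then 1 else w t.1 t.2.1 t.2.2)
    refine ⟨min 1 (if w t.1 t.2.1 t.2.2 = 0 then 1 else w t.1 t.2.1 t.2.2), ?_, ?_⟩
    · refine lt_min one_pos ?_
      split_ifs with h0
      · exact one_pos
      · exact lt_of_le_of_ne (hw0 _ _ _) (Ne.symm h0)
    · intro i j k hne
      refine (min_le_right _ _).trans ?_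
      have := ht (i, j, k)
      simp only [if_neg hne] at this
      exact this

/-- The logarithmic form of the greedy estimate. -/
theorem greedy_log (N p : ℝ) (x y : ι → ℝ) (A B C m : ℝ) (L : Finset ι) (i1 i0 : ι)
    (hN : N = Fintype.card ι) (hp : p = L.card) (hN4 : 4 ≤ N) (hp3 : 3 * p + 1 ≤ 2 * N)
    (hAB : B ≤ A) (hBC : C ≤ B) (hi1 : i1 ∈ L)
    (hy : ∀ i, y i = if i = i1 then A else if i ∈ L then B else C)
    (hxy : ∀ i, x i ≤ y i) (hm : x i0 = m) :
    3 * ∑ i, x i + (A - m) ≤ N * (A + B + C) := by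
  have hsum : ∑ i, y i = A + (p - 1) * B + (N - p) * C := by
    have h1 : ∑ i, y i = ∑ i, ((if i = i1 then A - B else 0) + if i ∈ L then B else C) := by
      refine Finset.sum_congr rfl fun i _ => ?_
      rw [hy]
      by_cases h : i = i1
      · subst h; simp [hi1]
      · simp [h]
    rw [h1, Finset.sum_add_distrib, Finset.sum_ite_eq' Finset.univ i1, if_pos (Finset.mem_univ _),
      Finset.sum_ite, Finset.sum_const, Finset.sum_const, nsmul_eq_mul, nsmul_eq_mul]
    have h2 : (Finset.univ.filter fun i => i ∈ L) = L := by ext; simp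
    have h3 : ((Finset.univ.filter fun i => i ∉ L).card : ℝ) = N - p := by
      have h4 : (Finset.univ.filter fun i => i ∉ L) = Lᶜ := by ext; simp
      rw [h4, Finset.card_compl, Nat.cast_sub (Finset.card_le_univ L), hN, hp]
    rw [h2, h3, ← hp]
    ring
  have h0 : x i0 + ∑ i ∈ Finset.univ.erase i0, x i = ∑ i, x i :=
    Finset.add_sum_erase _ _ (Finset.mem_univ i0)
  have h0' : y i0 + ∑ i ∈ Finset.univ.erase i0, y i = ∑ i, y i :=
    Finset.add_sum_erase _ _ (Finset.mem_univ i0)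
  have hle : ∑ i ∈ Finset.univ.erase i0, x i ≤ ∑ i ∈ Finset.univ.erase i0, y i :=
    Finset.sum_le_sum fun i _ => hxy i
  have hyC : C ≤ y i0 := by
    rw [hy]; split_ifs <;> linarith
  have hym : m ≤ y i0 := hm ▸ hxy i0
  have key : 3 * ∑ i, x i + (A - m) ≤ 3 * (A + (p - 1) * B + (N - p) * C) + (A - C) := by
    rw [← hsum]
    linarith
  refine key.trans ?_
  nlinarith [mul_nonneg (by linarith : (0 : ℝ) ≤ N - 4) (by linarith : (0 : ℝ) ≤ A - B),
    mul_nonneg (by linarith : (0 : ℝ) ≤ 2 * N - 3 * p - 1) (by linarith : (0 : ℝ) ≤ B - C)]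

/-- The greedy estimate. -/
theorem greedy {w : ι → ι → ι → ℝ} (hs1 : ∀ i j k, w i j k = w j i k)
    (hs2 : ∀ i j k, w i j k = w i k j) (hN : 4 ≤ Fintype.card ι) (hdiag : ∀ i k, w i i k = 0)
    (hline : ∀ i j, i ≠ j → 3 * (Finset.univ.filter (fun k => w i j k = 0)).card <
      2 * Fintype.card ι) {c : ι → ℝ} (hc : ∀ i, 0 < c i) :
    ∃ i1 i2 i3 i0, w i1 i2 i3 ≠ 0 ∧ (∀ i, c i ≤ c i1) ∧ (∀ i, c i0 ≤ c i) ∧
      (∏ i, c i) ^ 3 * (c i1 / c i0) ≤ (c i1 * c i2 * c i3) ^ Fintype.card ι := by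
  have hne : Nonempty ι := Fintype.card_pos_iff.mp (by omega)
  obtain ⟨i1, h1⟩ := Finite.exists_max c
  obtain ⟨i0, h0⟩ := Finite.exists_min c
  have he : (Finset.univ.erase i1).Nonempty := by
    rw [← Finset.card_pos, Finset.card_erase_of_mem (Finset.mem_univ _), Finset.card_univ]
    omega
  obtain ⟨i2, hi2, h2⟩ := Finset.exists_max_image _ c he
  have h12 : i1 ≠ i2 := by
    rw [Finset.mem_erase] at hi2; exact fun h => hi2.1 h.symm
  have hL := hline i1 i2 h12
  set L := Finset.univ.filter (fun k => w i1 i2 k = 0) with hLdef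
  have he3 : (Finset.univ.filter (fun k => w i1 i2 k ≠ 0)).Nonempty := by
    rw [← Finset.card_pos]
    have := Finset.card_filter_add_card_filter_not (s := (Finset.univ : Finset ι))
      (fun k => w i1 i2 k = 0)
    rw [Finset.card_univ] at this
    change L.card + _ = _ at this
    change 0 < (Finset.univ.filter (fun k => ¬ (w i1 i2 k = 0))).card
    omega
  obtain ⟨i3, hi3, h3⟩ := Finset.exists_max_image _ c he3
  have hi3' : w i1 i2 i3 ≠ 0 := (Finset.mem_filter.mp hi3).2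
  refine ⟨i1, i2, i3, i0, hi3', h1, h0, ?_⟩
  have hi1L : i1 ∈ L := by
    rw [hLdef, Finset.mem_filter]
    refine ⟨Finset.mem_univ _, ?_⟩
    rw [hs2, hdiag]
  have hi2L : i2 ∈ L := by
    rw [hLdef, Finset.mem_filter]
    refine ⟨Finset.mem_univ _, ?_⟩
    rw [hs1, hs2, hdiag]
  have h31 : i3 ≠ i1 := by
    intro h; rw [h] at hi3'
    exact hi3' (Finset.mem_filter.mp hi1L).2
  have hBC : c i3 ≤ c i2 := h2 i3 (Finset.mem_erase.mpr ⟨h31, Finset.mem_univ _⟩)
  have hlog := greedy_log (ι := ι) (Fintype.card ι) L.card (fun i => Real.log (c i))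
    (fun i => if i = i1 then Real.log (c i1) else if i ∈ L then Real.log (c i2) else
      Real.log (c i3)) (Real.log (c i1)) (Real.log (c i2)) (Real.log (c i3))
    (Real.log (c i0)) L i1 i0 rfl rfl (by exact_mod_cast hN) (by
      have : 3 * L.card + 1 ≤ 2 * Fintype.card ι := by omega
      exact_mod_cast this)
    (Real.log_le_log (hc _) (h1 _)) (Real.log_le_log (hc _) hBC) hi1L (fun _ => rfl) ?_ rfl
  · have hpos : 0 < ∏ i, c i := Finset.prod_pos fun i _ => hc i
    have hlhs : 0 < (∏ i, c i) ^ 3 * (c i1 / c i0) :=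
      mul_pos (pow_pos hpos 3) (div_pos (hc _) (hc _))
    have hrhs : 0 < (c i1 * c i2 * c i3) ^ Fintype.card ι :=
      pow_pos (mul_pos (mul_pos (hc _) (hc _)) (hc _)) _
    rw [← Real.log_le_log_iff hlhs hrhs, Real.log_mul (pow_pos hpos 3).ne'
      (div_pos (hc _) (hc _)).ne', Real.log_pow, Real.log_pow,
      Real.log_prod (fun i _ => (hc i).ne'), Real.log_div (hc _).ne' (hc _).ne',
      Real.log_mul (mul_pos (hc _) (hc _)).ne' (hc _).ne', Real.log_mul (hc _).ne' (hc _).ne']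
    push_cast
    exact hlog
  · intro i
    split_ifs with ha hb
    · rw [ha]
    · exact Real.log_le_log (hc _) (h2 i (Finset.mem_erase.mpr ⟨ha, Finset.mem_univ _⟩))
    · refine Real.log_le_log (hc _) (h3 i ?_)
      rw [Finset.mem_filter]
      refine ⟨Finset.mem_univ _, fun h => hb ?_⟩
      rw [hLdef, Finset.mem_filter]
      exact ⟨Finset.mem_univ _, h⟩

theorem basic_bound {w : ι → ι → ι → ℝ} (hw0 : ∀ i j k, 0 ≤ w i j k)
    (hs1 : ∀ i j k, w i j k = w j i k)
    (hs2 : ∀ i j k, w i j k = w i k j) (hN : 4 ≤ Fintype.card ι) (hdiag : ∀ i k, w i i k = 0)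
    (hline : ∀ i j, i ≠ j → 3 * (Finset.univ.filter (fun k => w i j k = 0)).card <
      2 * Fintype.card ι) :
    ∃ μ : ℝ, 0 < μ ∧ ∀ c : ι → ℝ, (∀ i, 0 < c i) → ∀ i j,
      μ ^ Fintype.card ι * ((∏ i, c i) ^ 3 * (c j / c i)) ≤ DD w c ^ Fintype.card ι := by
  obtain ⟨μ, hμ, hμw⟩ := exists_mu w hw0
  refine ⟨μ, hμ, fun c hc i j => ?_⟩
  obtain ⟨i1, i2, i3, i0, hne, h1, h0, hg⟩ := greedy hs1 hs2 hN hdiag hline hc
  have hpos : 0 < ∏ i, c i := Finset.prod_pos fun i _ => hc i
  have hq : c j / c i ≤ c i1 / c i0 := div_le_div₀ (hc _).le (h1 j) (hc _) (h0 i)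
  have h123 : 0 < c i1 * c i2 * c i3 := mul_pos (mul_pos (hc _) (hc _)) (hc _)
  have hD : μ * (c i1 * c i2 * c i3) ≤ DD w c := by
    refine le_trans ?_ (DD_ge hw0 (fun i => (hc i).le) i1 i2 i3)
    rw [mul_comm]
    exact mul_le_mul_of_nonneg_left (hμw _ _ _ hne) h123.le
  calc μ ^ Fintype.card ι * ((∏ i, c i) ^ 3 * (c j / c i)) ≤
      μ ^ Fintype.card ι * ((∏ i, c i) ^ 3 * (c i1 / c i0)) := by gcongr
    _ ≤ μ ^ Fintype.card ι * (c i1 * c i2 * c i3) ^ Fintype.card ι := by gcongr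
    _ = (μ * (c i1 * c i2 * c i3)) ^ Fintype.card ι := (mul_pow _ _ _).symm
    _ ≤ DD w c ^ Fintype.card ι := pow_le_pow_left₀ (mul_pos hμ h123).le hD _

theorem exists_minimizer {w : ι → ι → ι → ℝ} (hw0 : ∀ i j k, 0 ≤ w i j k)
    (hs1 : ∀ i j k, w i j k = w j i k)
    (hs2 : ∀ i j k, w i j k = w i k j) (hN : 4 ≤ Fintype.card ι) (hdiag : ∀ i k, w i i k = 0)
    (hline : ∀ i j, i ≠ j → 3 * (Finset.univ.filter (fun k => w i j k = 0)).card <
      2 * Fintype.card ι) :
    ∃ c : ι → ℝ, (∀ i, 0 < c i) ∧ 0 < DD w c ∧ ∀ c' : ι → ℝ, (∀ i, 0 < c' i) →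
      DD w c ^ Fintype.card ι * (∏ i, c' i) ^ 3 ≤
        DD w c' ^ Fintype.card ι * (∏ i, c i) ^ 3 := by
  obtain ⟨μ, hμ, hB⟩ := basic_bound hw0 hs1 hs2 hN hdiag hline
  have hne : Nonempty ι := Fintype.card_pos_iff.mp (by omega)
  set N := Fintype.card ι with hNdef
  set M := DD w (fun _ => 1) ^ N with hM
  have hμM : μ ^ N ≤ M := by
    have := hB (fun _ => 1) (fun _ => one_pos) (Classical.arbitrary ι) (Classical.arbitrary ι)
    simpa using this
  have hμN : 0 < μ ^ N := pow_pos hμ N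
  have hMpos : 0 < M := lt_of_lt_of_le hμN hμM
  set ε := μ ^ N / M with hε
  have hεpos : 0 < ε := div_pos hμN hMpos
  have hε1 : ε ≤ 1 := (div_le_one hMpos).mpr hμM
  set box : Set (ι → ℝ) := Set.pi Set.univ (fun _ => Set.Icc ε 1) with hbox
  have hcomp : IsCompact box := isCompact_univ_pi fun _ => isCompact_Icc
  have hboxne : box.Nonempty := ⟨fun _ => 1, fun _ _ => ⟨hε1, le_rfl⟩⟩
  have hboxpos : ∀ c ∈ box, ∀ i, 0 < c i := fun c hc i =>
    lt_of_lt_of_le hεpos (hc i (Set.mem_univ i)).1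
  have hcont : ContinuousOn (fun c : ι → ℝ => DD w c ^ N / (∏ i, c i) ^ 3) box := by
    refine ContinuousOn.div ?_ ?_ ?_
    · refine Continuous.continuousOn (Continuous.pow ?_ N)
      unfold DD
      fun_prop
    · refine Continuous.continuousOn (Continuous.pow ?_ 3)
      fun_prop
    · intro c hc
      exact (pow_pos (Finset.prod_pos fun i _ => hboxpos c hc i) 3).ne'
  obtain ⟨c, hcbox, hcmin⟩ := hcomp.exists_isMinOn hboxne hcont
  have hcpos := hboxpos c hcbox
  have hPc : 0 < (∏ i, c i) ^ 3 := pow_pos (Finset.prod_pos fun i _ => hcpos i) 3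
  have hDpos : ∀ c : ι → ℝ, (∀ i, 0 < c i) → 0 < DD w c := by
    intro c hc
    have h1 := hB c hc (Classical.arbitrary ι) (Classical.arbitrary ι)
    have h2 : 0 < DD w c ^ N := by
      refine lt_of_lt_of_le ?_ h1
      exact mul_pos hμN (mul_pos (pow_pos (Finset.prod_pos fun i _ => hc i) 3)
        (div_pos (hc _) (hc _)))
    rcases (DD_nonneg hw0 (fun i => (hc i).le)).lt_or_eq with h | h
    · exact h
    · rw [← h, zero_pow (by omega)] at h2
      exact absurd h2 (lt_irrefl _)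
  refine ⟨c, hcpos, hDpos c hcpos, fun c' hc' => ?_⟩
  have hPc' : 0 < (∏ i, c' i) ^ 3 := pow_pos (Finset.prod_pos fun i _ => hc' i) 3
  rw [← div_le_div_iff₀ hPc hPc']
  -- the global minimum
  obtain ⟨j, hj⟩ := Finite.exists_max c'
  set a := c' j with ha
  have hapos : 0 < a := hc' j
  by_cases hall : ∀ i, ε ≤ a⁻¹ * c' i
  · have hmem : (fun i => a⁻¹ * c' i) ∈ box := by
      intro i _
      refine ⟨hall i, ?_⟩
      change a⁻¹ * c' i ≤ 1
      rw [inv_mul_le_iff₀ hapos, mul_one]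
      exact hj i
    have h1 : DD w c ^ N / (∏ i, c i) ^ 3 ≤
        DD w (fun i => a⁻¹ * c' i) ^ N / (∏ i, a⁻¹ * c' i) ^ 3 := hcmin hmem
    rw [DD_smul, Finset.prod_mul_distrib, Finset.prod_const, Finset.card_univ] at h1
    have h2 : (a⁻¹ ^ 3 * DD w c') ^ N / (a⁻¹ ^ Fintype.card ι * ∏ i, c' i) ^ 3 =
        DD w c' ^ N / (∏ i, c' i) ^ 3 := by
      rw [mul_pow, mul_pow, ← pow_mul, ← pow_mul, mul_comm 3 N, ← hNdef,
        mul_div_mul_left _ _ (pow_pos (inv_pos.mpr hapos) _).ne']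
    rw [h2] at h1
    exact h1
  · simp only [not_forall, not_le] at hall
    obtain ⟨i, hi⟩ := hall
    have hone : DD w c ^ N / (∏ i, c i) ^ 3 ≤ M := by
      have h1 : DD w c ^ N / (∏ i, c i) ^ 3 ≤ DD w (fun _ => 1) ^ N / (∏ i : ι, (1 : ℝ)) ^ 3 :=
        hcmin (show (fun _ => (1 : ℝ)) ∈ box from fun _ _ => ⟨hε1, le_rfl⟩)
      simpa using h1
    refine hone.trans ?_
    rw [le_div_iff₀ hPc']
    have h1 := hB c' hc' i j
    refine le_trans ?_ h1
    have h2 : 1 / ε ≤ a / c' i := by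
      rw [div_le_div_iff₀ hεpos (hc' i), one_mul]
      rw [inv_mul_lt_iff₀ hapos] at hi
      exact hi.le
    have h3 : M = μ ^ N * (1 / ε) := by
      rw [hε]; field_simp
    rw [h3]
    calc μ ^ N * (1 / ε) * (∏ i, c' i) ^ 3 = μ ^ N * ((∏ i, c' i) ^ 3 * (1 / ε)) := by ring
      _ ≤ μ ^ N * ((∏ i, c' i) ^ 3 * (a / c' i)) := by gcongr

/-- The derivative of the cubic form in one weight. -/
theorem DD_hasDeriv {w : ι → ι → ι → ℝ} (hs1 : ∀ i j k, w i j k = w j i k)
    (hs2 : ∀ i j k, w i j k = w i k j) (c : ι → ℝ) (i : ι) :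
    HasDerivAt (fun t : ℝ => DD w (fun j => c j * if j = i then t else 1))
      (3 * (c i * ∑ j, ∑ k, c j * c k * w i j k)) 1 := by
  have hd : ∀ j, HasDerivAt (fun t : ℝ => c j * if j = i then t else 1)
      (c j * if j = i then 1 else 0) 1 := by
    intro j
    refine HasDerivAt.const_mul _ ?_
    split_ifs
    · exact hasDerivAt_id _
    · exact hasDerivAt_const _ _
  have hv : ∀ j, (c j * if j = i then (1 : ℝ) else 1) = c j := by intro j; simp
  have h := HasDerivAt.fun_sum (u := Finset.univ) (x := (1 : ℝ)) fun a (_ : a ∈ Finset.univ) =>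
    HasDerivAt.fun_sum (u := Finset.univ) (x := (1 : ℝ)) fun b (_ : b ∈ Finset.univ) =>
      HasDerivAt.fun_sum (u := Finset.univ) (x := (1 : ℝ)) fun k (_ : k ∈ Finset.univ) =>
        (((hd a).fun_mul (hd b)).fun_mul (hd k)).mul_const (w a b k)
  simp only [hv] at h
  unfold DD
  refine h.congr_deriv ?_
  have e : ∀ a b k, ((c a * (if a = i then 1 else 0) * c b + c a * (c b * if b = i then 1 else 0)) *
      c k + c a * c b * (c k * if k = i then 1 else 0)) * w a b k =
      (if a = i then c a * c b * c k * w a b k else 0) +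
      (if b = i then c a * c b * c k * w a b k else 0) +
      (if k = i then c a * c b * c k * w a b k else 0) := by
    intro a b k
    split_ifs <;> ring
  simp only [e, Finset.sum_add_distrib]
  have e1 : ∑ a, ∑ b, ∑ k, (if a = i then c a * c b * c k * w a b k else 0) =
      c i * ∑ j, ∑ k, c j * c k * w i j k := by
    have : ∀ a, ∑ b, ∑ k, (if a = i then c a * c b * c k * w a b k else 0) =
        if a = i then ∑ b, ∑ k, c a * c b * c k * w a b k else 0 := by
      intro a; split_ifs <;> simp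
    simp only [this, Finset.sum_ite_eq' Finset.univ i, Finset.mem_univ, if_true, Finset.mul_sum]
    refine Finset.sum_congr rfl fun b _ => Finset.sum_congr rfl fun k _ => ?_
    ring
  have e2 : ∑ a, ∑ b, ∑ k, (if b = i then c a * c b * c k * w a b k else 0) =
      c i * ∑ j, ∑ k, c j * c k * w i j k := by
    have : ∀ a b, ∑ k, (if b = i then c a * c b * c k * w a b k else 0) =
        if b = i then ∑ k, c a * c b * c k * w a b k else 0 := by
      intro a b; split_ifs <;> simp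
    simp only [this, Finset.sum_ite_eq' Finset.univ i, Finset.mem_univ, if_true, Finset.mul_sum]
    refine Finset.sum_congr rfl fun b _ => Finset.sum_congr rfl fun k _ => ?_
    rw [hs1 b i k]
    ring
  have e3 : ∑ a, ∑ b, ∑ k, (if k = i then c a * c b * c k * w a b k else 0) =
      c i * ∑ j, ∑ k, c j * c k * w i j k := by
    simp only [Finset.sum_ite_eq' Finset.univ i, Finset.mem_univ, if_true, Finset.mul_sum]
    refine Finset.sum_congr rfl fun b _ => Finset.sum_congr rfl fun k _ => ?_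
    rw [hs2 b k i, hs1 b i k]
    ring
  rw [e1, e2, e3]
  ring

/-- Weights in equilibrium. -/
theorem exists_weights {w : ι → ι → ι → ℝ} (hw0 : ∀ i j k, 0 ≤ w i j k)
    (hs1 : ∀ i j k, w i j k = w j i k)
    (hs2 : ∀ i j k, w i j k = w i k j) (hN : 4 ≤ Fintype.card ι) (hdiag : ∀ i k, w i i k = 0)
    (hline : ∀ i j, i ≠ j → 3 * (Finset.univ.filter (fun k => w i j k = 0)).card <
      2 * Fintype.card ι) :
    ∃ c : ι → ℝ, (∀ i, 0 < c i) ∧ 0 < DD w c ∧ ∀ i,
      (Fintype.card ι : ℝ) * (c i * ∑ j, ∑ k, c j * c k * w i j k) = DD w c := by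
  obtain ⟨c, hc, hD, hmin⟩ := exists_minimizer hw0 hs1 hs2 hN hdiag hline
  refine ⟨c, hc, hD, fun i => ?_⟩
  set N := Fintype.card ι with hNdef
  have hP : 0 < (∏ i, c i) ^ 3 := pow_pos (Finset.prod_pos fun i _ => hc i) 3
  have hineq : ∀ t : ℝ, 0 < t → t ^ 3 * DD w c ^ N ≤
      DD w (fun j => c j * if j = i then t else 1) ^ N := by
    intro t ht
    have h1 := hmin (fun j => c j * if j = i then t else 1) (fun j => by
      refine mul_pos (hc j) ?_
      split_ifs
      · exact ht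
      · exact one_pos)
    rw [Finset.prod_mul_distrib, Finset.prod_ite_eq' Finset.univ i, if_pos (Finset.mem_univ _),
      mul_pow, ] at h1
    have h2 : (t ^ 3 * DD w c ^ N) * (∏ i, c i) ^ 3 ≤
        DD w (fun j => c j * if j = i then t else 1) ^ N * (∏ i, c i) ^ 3 := by
      calc _ = DD w c ^ N * ((∏ i, c i) ^ 3 * t ^ 3) := by ring
        _ ≤ _ := h1
    exact le_of_mul_le_mul_right h2 hP
  have h1v : DD w (fun j => c j * if j = i then (1 : ℝ) else 1) = DD w c := by
    congr 1; funext j; simp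
  have hder := ((DD_hasDeriv hs1 hs2 c i).fun_pow N).fun_sub
    (((hasDerivAt_id (1 : ℝ)).fun_pow 3).mul_const (DD w c ^ N))
  have hloc : IsLocalMin (fun t : ℝ => DD w (fun j => c j * if j = i then t else 1) ^ N -
      t ^ 3 * DD w c ^ N) 1 := by
    have hnhds : ∀ᶠ t : ℝ in nhds 1, 0 < t := lt_mem_nhds one_pos
    filter_upwards [hnhds] with t ht
    have := hineq t ht
    rw [h1v]
    simp only [one_pow, one_mul, sub_self]
    linarith
  have hz := hloc.hasDerivAt_eq_zero hder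
  rw [h1v] at hz
  have hDne : DD w c ^ (N - 1) ≠ 0 := (pow_pos hD _).ne'
  have hpow : DD w c ^ N = DD w c ^ (N - 1) * DD w c := by
    rw [← pow_succ]
    congr 1
    omega
  rw [hpow] at hz
  simp only [id, one_pow, mul_one, Nat.cast_ofNat] at hz
  have hz2 : DD w c ^ (N - 1) * (3 * ((N : ℝ) * (c i * ∑ j, ∑ k, c j * c k * w i j k) -
      DD w c)) = 0 := by
    linear_combination hz
  rcases mul_eq_zero.mp hz2 with h | h
  · exact absurd h hDne
  · linarith

end Pool.Agent.H31.SX
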