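import Pool.Agent.H31.SX.Defs
import Pool.Agent.H31.SX.Min

/-! # The tight frame -/

set_option autoImplicit false

namespace Pool.Agent.H31.SX

open Finset Complex
open scoped ComplexConjugate ComplexOrder MatrixOrder

variable {ι : Type*} [Fintype ι] [DecidableEq ι]

set_option linter.unusedSectionVars false

/-- The square of the norm. -/
def nn (x : Fin 3 → ℂ) : ℝ := normSq (x 0) + normSq (x 1) + normSq (x 2)

/-- The hermitian form. -/
def hp (x y : Fin 3 → ℂ) : ℂ := x 0 * conj (y 0) + x 1 * conj (y 1) + x 2 * conj (y 2)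

theorem nsq (z : ℂ) : ((normSq z : ℝ) : ℂ) = z * conj z := (Complex.mul_conj z).symm

theorem nn_cast (x : Fin 3 → ℂ) : ((nn x : ℝ) : ℂ) = hp x x := by
  unfold nn hp
  push_cast
  rw [nsq, nsq, nsq]

theorem lagrange (x y : Fin 3 → ℂ) : nn (cr x y) = nn x * nn y - normSq (hp x y) := by
  have h : ((nn (cr x y) : ℝ) : ℂ) = ((nn x * nn y - normSq (hp x y) : ℝ) : ℂ) := by
    push_cast
    rw [nsq, nn_cast, nn_cast, nn_cast]
    unfold hp
    simp only [cr_zero, cr_one, cr_two, map_sub, map_mul, map_add, Complex.conj_conj]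
    ring
  exact_mod_cast h

/-- The frame property gives Parseval's identity. -/
theorem parseval (c : ι → ℝ) (p : ι → Fin 3 → ℂ) (κ : ℝ)
    (hp1 : ∀ a b, ∑ i, (c i : ℂ) * (p i a * conj (p i b)) = if a = b then (κ : ℂ) else 0)
    (z : Fin 3 → ℂ) : ∑ k, c k * normSq (dt z (p k)) = κ * nn z := by
  have h : ((∑ k, c k * normSq (dt z (p k)) : ℝ) : ℂ) = ((κ * nn z : ℝ) : ℂ) := by
    push_cast
    rw [nn_cast]
    have h1 : ∀ k, (c k : ℂ) * ((normSq (dt z (p k)) : ℝ) : ℂ) =
        z 0 * conj (z 0) * ((c k : ℂ) * (p k 0 * conj (p k 0))) +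
        z 0 * conj (z 1) * ((c k : ℂ) * (p k 0 * conj (p k 1))) +
        z 0 * conj (z 2) * ((c k : ℂ) * (p k 0 * conj (p k 2))) +
        z 1 * conj (z 0) * ((c k : ℂ) * (p k 1 * conj (p k 0))) +
        z 1 * conj (z 1) * ((c k : ℂ) * (p k 1 * conj (p k 1))) +
        z 1 * conj (z 2) * ((c k : ℂ) * (p k 1 * conj (p k 2))) +
        z 2 * conj (z 0) * ((c k : ℂ) * (p k 2 * conj (p k 0))) +
        z 2 * conj (z 1) * ((c k : ℂ) * (p k 2 * conj (p k 1))) +
        z 2 * conj (z 2) * ((c k : ℂ) * (p k 2 * conj (p k 2))) := by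
      intro k
      rw [nsq]
      unfold dt
      simp only [map_mul, map_add]
      ring
    simp only [h1, Finset.sum_add_distrib, ← Finset.mul_sum, hp1]
    unfold hp
    simp
    ring
  exact_mod_cast h

theorem trace_sum (c : ι → ℝ) (p : ι → Fin 3 → ℂ) (κ : ℝ)
    (hp1 : ∀ a b, ∑ i, (c i : ℂ) * (p i a * conj (p i b)) = if a = b then (κ : ℂ) else 0) :
    ∑ k, c k * nn (p k) = 3 * κ := by
  have h : ((∑ k, c k * nn (p k) : ℝ) : ℂ) = ((3 * κ : ℝ) : ℂ) := by
    push_cast
    have h1 : ∀ k, (c k : ℂ) * ((nn (p k) : ℝ) : ℂ) =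
        (c k : ℂ) * (p k 0 * conj (p k 0)) + (c k : ℂ) * (p k 1 * conj (p k 1)) +
        (c k : ℂ) * (p k 2 * conj (p k 2)) := by
      intro k
      rw [nn_cast]
      unfold hp
      ring
    simp only [h1, Finset.sum_add_distrib, hp1]
    simp
    ring
  exact_mod_cast h

theorem nn_conj (x : Fin 3 → ℂ) : nn (fun a => conj (x a)) = nn x := by
  unfold nn
  simp

theorem hp_eq (x y : Fin 3 → ℂ) : normSq (hp x y) = normSq (dt (fun a => conj (x a)) y) := by
  have : hp x y = conj (dt (fun a => conj (x a)) y) := by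
    unfold hp dt
    simp
  rw [this, Complex.normSq_conj]

theorem parseval' (c : ι → ℝ) (p : ι → Fin 3 → ℂ) (κ : ℝ)
    (hp1 : ∀ a b, ∑ i, (c i : ℂ) * (p i a * conj (p i b)) = if a = b then (κ : ℂ) else 0)
    (x : Fin 3 → ℂ) : ∑ k, c k * normSq (hp x (p k)) = κ * nn x := by
  simp only [hp_eq]
  rw [parseval c p κ hp1, nn_conj]

/-- The sum of the squares of the determinants with one fixed vector. -/
theorem det_sum (c : ι → ℝ) (p : ι → Fin 3 → ℂ)
    (hp1 : ∀ a b, ∑ i, (c i : ℂ) * (p i a * conj (p i b)) = if a = b then ((1 : ℝ) : ℂ) else 0)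
    (x : Fin 3 → ℂ) : ∑ j, ∑ k, c j * c k * normSq (d3 x (p j) (p k)) = 2 * nn x := by
  have h1 : ∀ j, ∑ k, c j * c k * normSq (d3 x (p j) (p k)) =
      c j * (nn x * nn (p j) - normSq (hp x (p j))) := by
    intro j
    have h2 := parseval c p 1 hp1 (cr x (p j))
    rw [one_mul, lagrange] at h2
    rw [← h2, Finset.mul_sum]
    refine Finset.sum_congr rfl fun k _ => ?_
    unfold d3
    ring
  simp only [h1]
  have h3 := trace_sum c p 1 hp1
  have h4 := parseval' c p 1 hp1 x
  have h5 : ∑ j, c j * (nn x * nn (p j) - normSq (hp x (p j))) =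
      nn x * ∑ j, c j * nn (p j) - ∑ j, c j * normSq (hp x (p j)) := by
    rw [Finset.mul_sum, ← Finset.sum_sub_distrib]
    refine Finset.sum_congr rfl fun j _ => ?_
    ring
  rw [h5, h3, h4]
  ring

theorem exists_P (v : ι → Fin 3 → ℂ) (c : ι → ℝ) (hc : ∀ i, 0 < c i)
    (hnc : ∃ i j k, d3 (v i) (v j) (v k) ≠ 0) :
    ∃ P : Matrix (Fin 3) (Fin 3) ℂ, P.det ≠ 0 ∧ ∀ a b,
      ∑ i, (c i : ℂ) * (P.mulVec (v i) a * conj (P.mulVec (v i) b)) =
        if a = b then ((1 : ℝ) : ℂ) else 0 := by
  classical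
  set V : Matrix (Fin 3) ι ℂ := Matrix.of fun a i => (Real.sqrt (c i) : ℂ) * v i a with hV
  have hpsd : (V * V.conjTranspose).PosSemidef := Matrix.posSemidef_self_mul_conjTranspose V
  obtain ⟨B, hB⟩ := CStarAlgebra.nonneg_iff_eq_star_mul_self.mp hpsd.nonneg
  rw [Matrix.star_eq_conjTranspose] at hB
  have hdet : (V * V.conjTranspose).det ≠ 0 := by
    intro h0
    obtain ⟨x, hx, hMx⟩ := Matrix.exists_mulVec_eq_zero_iff.mpr h0
    rw [Matrix.self_mul_conjTranspose_mulVec_eq_zero] at hMx
    apply hx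
    have horth : ∀ i, dt (v i) (fun a => conj (x a)) = 0 := by
      intro i
      have h1 := congrFun hMx i
      rw [Pi.zero_apply] at h1
      have h2 : (Real.sqrt (c i) : ℂ) * conj (dt (v i) (fun a => conj (x a))) = 0 := by
        rw [← h1]
        simp only [Matrix.mulVec, dotProduct, Fin.sum_univ_three, Matrix.conjTranspose_apply, hV,
          Matrix.of_apply, dt, star_mul', map_add, map_mul, Complex.conj_conj]
        simp only [Complex.star_def, Complex.conj_ofReal]
        ring
      have h3 : (Real.sqrt (c i) : ℂ) ≠ 0 := by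
        have := Real.sqrt_pos.mpr (hc i)
        exact_mod_cast this.ne'
      have h4 := (mul_eq_zero.mp h2).resolve_left h3
      simpa using h4
    obtain ⟨i, j, k, hijk⟩ := hnc
    funext m
    have h5 := cramer (v i) (v j) (v k) (fun a => conj (x a)) m
    rw [horth, horth, horth, mul_zero, mul_zero, mul_zero, add_zero, add_zero] at h5
    have h6 := (mul_eq_zero.mp h5).resolve_left hijk
    simpa using h6
  have hBdet : B.det ≠ 0 := by
    intro h0
    apply hdet
    rw [hB, Matrix.det_mul, h0, mul_zero]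
  have hBu : IsUnit B.det := isUnit_iff_ne_zero.mpr hBdet
  have hBHu : IsUnit B.conjTranspose.det := by
    rw [Matrix.det_conjTranspose]
    exact isUnit_iff_ne_zero.mpr (by simpa using hBdet)
  refine ⟨B.conjTranspose⁻¹, ?_, ?_⟩
  · rw [Matrix.det_nonsing_inv]
    exact (hBHu.ringInverse).ne_zero
  · have h1 : B.conjTranspose⁻¹ * (V * V.conjTranspose) * (B.conjTranspose⁻¹).conjTranspose =
        1 := by
      rw [hB, Matrix.conjTranspose_nonsing_inv, Matrix.conjTranspose_conjTranspose]
      rw [← Matrix.mul_assoc, Matrix.nonsing_inv_mul _ hBHu, Matrix.one_mul,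
        Matrix.mul_nonsing_inv _ hBu]
    intro a b
    have h2 := congrFun (congrFun h1 a) b
    set P := B.conjTranspose⁻¹ with hP
    have h3 : P * (V * V.conjTranspose) * P.conjTranspose = (P * V) * (P * V).conjTranspose := by
      rw [Matrix.conjTranspose_mul, Matrix.mul_assoc, Matrix.mul_assoc, Matrix.mul_assoc]
    rw [h3, Matrix.mul_apply, Matrix.one_apply] at h2
    push_cast
    rw [← h2]
    refine Finset.sum_congr rfl fun i _ => ?_
    have h4 : ∀ m, (P * V) m i = (Real.sqrt (c i) : ℂ) * P.mulVec (v i) m := by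
      intro m
      rw [mulVec3, Matrix.mul_apply, Fin.sum_univ_three]
      simp only [hV, Matrix.of_apply]
      ring
    rw [Matrix.conjTranspose_apply, h4, h4]
    have h5 : ((Real.sqrt (c i) : ℝ) : ℂ) * ((Real.sqrt (c i) : ℝ) : ℂ) = (c i : ℂ) := by
      rw [← Complex.ofReal_mul, Real.mul_self_sqrt (hc i).le]
    rw [← h5, star_mul']
    simp only [Complex.star_def, Complex.conj_ofReal]
    ring

/-- The tight frame of unit vectors. -/
theorem exists_frame (v : ι → Fin 3 → ℂ) (hN : 4 ≤ Fintype.card ι)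
    (hline : ∀ i j, i ≠ j → 3 * (Finset.univ.filter (fun k => d3 (v i) (v j) (v k) = 0)).card <
      2 * Fintype.card ι) :
    ∃ u : ι → Fin 3 → ℂ, (∀ i, nn (u i) = 1) ∧
      (∀ a b, ∑ i, (u i a * conj (u i b)) =
        if a = b then ((Fintype.card ι / 3 : ℝ) : ℂ) else 0) ∧
      ∀ i j k, d3 (u i) (u j) (u k) = 0 ↔ d3 (v i) (v j) (v k) = 0 := by
  set w : ι → ι → ι → ℝ := fun i j k => normSq (d3 (v i) (v j) (v k)) with hw
  have hw0 : ∀ i j k, 0 ≤ w i j k := fun i j k => normSq_nonneg _
  have hs1 : ∀ i j k, w i j k = w j i k := by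
    intro i j k
    simp only [hw]
    rw [d3_swap12, normSq_neg]
  have hs2 : ∀ i j k, w i j k = w i k j := by
    intro i j k
    simp only [hw]
    rw [d3_swap23, normSq_neg]
  have hdiag : ∀ i k, w i i k = 0 := by
    intro i k
    simp only [hw]
    rw [d3_self, map_zero]
  have hline' : ∀ i j, i ≠ j → 3 * (Finset.univ.filter (fun k => w i j k = 0)).card <
      2 * Fintype.card ι := by
    intro i j hij
    have := hline i j hij
    simp only [hw, map_eq_zero]
    exact this
  obtain ⟨c, hc, hD, hst⟩ := exists_weights hw0 hs1 hs2 hN hdiag hline'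
  set N : ℝ := (Fintype.card ι : ℝ) with hNdef
  have hNpos : 0 < N := by
    rw [hNdef]
    have : 0 < Fintype.card ι := by omega
    exact_mod_cast this
  have hnc : ∃ i j k, d3 (v i) (v j) (v k) ≠ 0 := by
    by_contra hno
    simp only [not_exists, not_not] at hno
    have : DD w c = 0 := by
      unfold DD
      simp only [hw, hno]
      simp
    linarith
  obtain ⟨P, hPdet, hPf⟩ := exists_P v c hc hnc
  set p : ι → Fin 3 → ℂ := fun i => P.mulVec (v i) with hp
  have hwp : ∀ i j k, normSq (d3 (p i) (p j) (p k)) = normSq P.det * w i j k := by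
    intro i j k
    simp only [hp, hw]
    rw [d3_mulVec, normSq_mul]
  have hδ : 0 < normSq P.det := normSq_pos.mpr hPdet
  have h1 : ∀ i, normSq P.det * ∑ j, ∑ k, c j * c k * w i j k = 2 * nn (p i) := by
    intro i
    rw [← det_sum c p hPf (p i), Finset.mul_sum]
    refine Finset.sum_congr rfl fun j _ => ?_
    rw [Finset.mul_sum]
    refine Finset.sum_congr rfl fun k _ => ?_
    rw [hwp]
    ring
  have h2 : normSq P.det * DD w c = 6 := by
    have h3 : normSq P.det * DD w c = ∑ i, c i * (2 * nn (p i)) := by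
      unfold DD
      rw [Finset.mul_sum]
      refine Finset.sum_congr rfl fun i _ => ?_
      rw [← h1 i, Finset.mul_sum, Finset.mul_sum, Finset.mul_sum]
      refine Finset.sum_congr rfl fun j _ => ?_
      rw [Finset.mul_sum, Finset.mul_sum, Finset.mul_sum]
      refine Finset.sum_congr rfl fun k _ => ?_
      ring
    rw [h3]
    have h4 := trace_sum c p 1 hPf
    have h5 : ∑ i, c i * (2 * nn (p i)) = 2 * ∑ i, c i * nn (p i) := by
      rw [Finset.mul_sum]
      refine Finset.sum_congr rfl fun i _ => ?_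
      ring
    rw [h5, h4]
    ring
  have h6 : ∀ i, c i * nn (p i) = 3 / N := by
    intro i
    have h7 := hst i
    have h8 := h1 i
    have h9 : normSq P.det * (N * (c i * ∑ j, ∑ k, c j * c k * w i j k)) = 6 := by
      rw [h7, h2]
    have h10 : N * (c i * (2 * nn (p i))) = 6 := by
      rw [← h8, ← h9]
      ring
    field_simp
    linarith
  refine ⟨fun i => ((Real.sqrt (N * c i / 3) : ℝ) : ℂ) • p i, ?_, ?_, ?_⟩
  · intro i
    have h11 : nn (((Real.sqrt (N * c i / 3) : ℝ) : ℂ) • p i) = N * c i / 3 * nn (p i) := by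
      have h12 : Real.sqrt (N * c i / 3) * Real.sqrt (N * c i / 3) = N * c i / 3 :=
        Real.mul_self_sqrt (by have := hc i; positivity)
      unfold nn
      simp only [Pi.smul_apply, smul_eq_mul, normSq_mul, normSq_ofReal, h12]
      ring
    rw [h11]
    have := h6 i
    have h13 : N * c i / 3 * nn (p i) = N / 3 * (c i * nn (p i)) := by ring
    rw [h13, this]
    field_simp
  · intro a b
    have h12 : ∀ i, ((Real.sqrt (N * c i / 3) : ℝ) : ℂ) * ((Real.sqrt (N * c i / 3) : ℝ) : ℂ) =
        (N : ℂ) / 3 * (c i : ℂ) := by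
      intro i
      rw [← Complex.ofReal_mul, Real.mul_self_sqrt (by have := hc i; positivity)]
      push_cast
      ring
    have h13 : ∀ i, (((Real.sqrt (N * c i / 3) : ℝ) : ℂ) • p i) a *
        conj ((((Real.sqrt (N * c i / 3) : ℝ) : ℂ) • p i) b) =
        (N : ℂ) / 3 * ((c i : ℂ) * (p i a * conj (p i b))) := by
      intro i
      simp only [Pi.smul_apply, smul_eq_mul, map_mul, Complex.conj_ofReal]
      linear_combination (p i a * conj (p i b)) * h12 i
    simp only [h13]
    rw [← Finset.mul_sum, hPf]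
    split_ifs
    · push_cast; ring
    · ring
  · intro i j k
    have h14 : ∀ i, ((Real.sqrt (N * c i / 3) : ℝ) : ℂ) ≠ 0 := by
      intro i
      have : 0 < Real.sqrt (N * c i / 3) := Real.sqrt_pos.mpr (by have := hc i; positivity)
      exact_mod_cast this.ne'
    rw [d3_smul1, d3_smul2, d3_smul3, mul_eq_zero, mul_eq_zero, mul_eq_zero, or_iff_right (h14 i),
      or_iff_right (h14 j), or_iff_right (h14 k)]
    simp only [hp]
    rw [d3_mulVec, mul_eq_zero, or_iff_right hPdet]

end Pool.Agent.H31.SX
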