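import Pool.Agent.H31.SX.Frame

/-! # The inequality for the incidences of points and lines -/

set_option autoImplicit false

namespace Pool.Agent.H31.SX

open Finset Complex
open scoped ComplexConjugate

variable {ι : Type*} [Fintype ι] [DecidableEq ι]

set_option linter.unusedSectionVars false

theorem nsq_sum (u : ι → Fin 3 → ℂ) (L : Finset ι) :
    ∑ a, ∑ b, normSq (∑ i ∈ L, u i a * conj (u i b)) =
      ∑ i ∈ L, ∑ j ∈ L, normSq (hp (u i) (u j)) := by
  have h : ((∑ a, ∑ b, normSq (∑ i ∈ L, u i a * conj (u i b)) : ℝ) : ℂ) =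
      ((∑ i ∈ L, ∑ j ∈ L, normSq (hp (u i) (u j)) : ℝ) : ℂ) := by
    push_cast
    have h1 : ∀ a b, ((normSq (∑ i ∈ L, u i a * conj (u i b)) : ℝ) : ℂ) =
        ∑ i ∈ L, ∑ j ∈ L, (u i a * conj (u i b)) * (conj (u j a) * u j b) := by
      intro a b
      rw [nsq, map_sum, Finset.sum_mul_sum]
      refine Finset.sum_congr rfl fun i _ => Finset.sum_congr rfl fun j _ => ?_
      simp
    have h2 : ∀ i j, ((normSq (hp (u i) (u j)) : ℝ) : ℂ) =
        ∑ a, ∑ b, (u i a * conj (u i b)) * (conj (u j a) * u j b) := by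
      intro i j
      rw [nsq]
      unfold hp
      simp only [Fin.sum_univ_three, map_add, map_mul, Complex.conj_conj]
      ring
    simp only [h1, h2]
    rw [Finset.sum_comm' (s := (Finset.univ : Finset (Fin 3))) (t := fun _ => Finset.univ)
      (t' := Finset.univ) (s' := fun _ => Finset.univ) (by simp)]
    simp only [Fin.sum_univ_three, Finset.sum_add_distrib]
    ring
  exact_mod_cast h

/-- The inequality for one line. -/
theorem line_ineq (u : ι → Fin 3 → ℂ) (hu : ∀ i, nn (u i) = 1) (L : Finset ι) (w : Fin 3 → ℂ)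
    (hw : w ≠ 0) (hL : ∀ i ∈ L, dt w (u i) = 0) :
    (L.card : ℝ) ^ 2 / 2 ≤ ∑ i ∈ L, ∑ j ∈ L, normSq (hp (u i) (u j)) := by
  set n : ℝ := (L.card : ℝ) with hn
  set W : ℂ := hp w w with hW
  have hWne : W ≠ 0 := by
    intro h0
    have h1 : nn w = 0 := by
      have := nn_cast w
      rw [← hW, h0] at this
      exact_mod_cast this
    unfold nn at h1
    have h2 := normSq_nonneg (w 0)
    have h3 := normSq_nonneg (w 1)
    have h4 := normSq_nonneg (w 2)
    apply hw
    refine ext3 ?_ ?_ ?_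
    · exact normSq_eq_zero.mp (by linarith)
    · exact normSq_eq_zero.mp (by linarith)
    · exact normSq_eq_zero.mp (by linarith)
  have hWconj : conj W = W := by
    rw [hW]; unfold hp; simp; ring
  set P : Fin 3 → Fin 3 → ℂ := fun a b => (if a = b then 1 else 0) - conj (w a) * w b / W with hP
  set A : Fin 3 → Fin 3 → ℂ := fun a b => ∑ i ∈ L, u i a * conj (u i b) with hA
  have hAP : ∑ a, ∑ b, A a b * conj (P a b) = (n : ℂ) := by
    have h1 : ∀ a b, A a b * conj (P a b) = ∑ i ∈ L, u i a * conj (u i b) * conj (P a b) := by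
      intro a b
      rw [hA, Finset.sum_mul]
    simp only [h1]
    have h2 : ∀ i ∈ L, ∑ a, ∑ b, u i a * conj (u i b) * conj (P a b) = 1 := by
      intro i hi
      have h3 : hp (u i) (u i) = 1 := by
        rw [← nn_cast, hu]; simp
      have h4 : dt w (u i) = 0 := hL i hi
      have h5 : ∑ a, ∑ b, u i a * conj (u i b) * conj (P a b) =
          hp (u i) (u i) - dt w (u i) * conj (dt w (u i)) / W := by
        simp only [hP, Fin.sum_univ_three, map_sub, map_div₀, map_mul, Complex.conj_conj, hWconj]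
        unfold hp dt
        simp
        field_simp
        ring
      rw [h5, h3, h4]
      simp
    have h6 : ∑ a, ∑ b, ∑ i ∈ L, u i a * conj (u i b) * conj (P a b) =
        ∑ i ∈ L, ∑ a, ∑ b, u i a * conj (u i b) * conj (P a b) := by
      simp only [Fin.sum_univ_three, Finset.sum_add_distrib]
    rw [h6, Finset.sum_congr rfl h2]
    simp [hn]
  have hPP : ∑ a, ∑ b, normSq (P a b) = 2 := by
    have h : ((∑ a, ∑ b, normSq (P a b) : ℝ) : ℂ) = ((2 : ℝ) : ℂ) := by
      push_cast
      simp only [nsq]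
      have hWe : W = w 0 * conj (w 0) + w 1 * conj (w 1) + w 2 * conj (w 2) := rfl
      simp only [hP, Fin.sum_univ_three, if_neg (show ¬ (0 : Fin 3) = 1 by decide),
        if_neg (show ¬ (0 : Fin 3) = 2 by decide), if_neg (show ¬ (1 : Fin 3) = 0 by decide),
        if_neg (show ¬ (1 : Fin 3) = 2 by decide), if_neg (show ¬ (2 : Fin 3) = 0 by decide),
        if_neg (show ¬ (2 : Fin 3) = 1 by decide), if_true, map_sub, map_div₀, map_mul,
        Complex.conj_conj, hWconj, map_one, map_zero]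
      field_simp
      rw [hWe]
      ring
    exact_mod_cast h
  have hQ : 0 ≤ ∑ a, ∑ b, normSq (A a b - ((n / 2 : ℝ) : ℂ) * P a b) :=
    Finset.sum_nonneg fun a _ => Finset.sum_nonneg fun b _ => normSq_nonneg _
  have hexp : ∀ a b, normSq (A a b - ((n / 2 : ℝ) : ℂ) * P a b) =
      normSq (A a b) + (n / 2) ^ 2 * normSq (P a b) - n * (A a b * conj (P a b)).re := by
    intro a b
    rw [Complex.normSq_sub, normSq_mul, normSq_ofReal, map_mul, Complex.conj_ofReal]
    have : (A a b * (((n / 2 : ℝ) : ℂ) * conj (P a b))).re =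
        n / 2 * (A a b * conj (P a b)).re := by
      rw [show A a b * (((n / 2 : ℝ) : ℂ) * conj (P a b)) =
        ((n / 2 : ℝ) : ℂ) * (A a b * conj (P a b)) by ring, Complex.re_ofReal_mul]
    rw [this]
    ring
  simp only [hexp, Finset.sum_sub_distrib, Finset.sum_add_distrib, ← Finset.mul_sum] at hQ
  rw [hPP] at hQ
  have hre : ∑ a, ∑ b, (A a b * conj (P a b)).re = n := by
    have := congrArg Complex.re hAP
    simpa using this
  rw [hre] at hQ
  have hAA := nsq_sum u L
  have hAA' : ∑ a, ∑ b, normSq (A a b) = ∑ i ∈ L, ∑ j ∈ L, normSq (hp (u i) (u j)) := hAA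
  rw [hAA'] at hQ
  nlinarith

/-- An abstract linear space. -/
structure IsLS (L : Finset (Finset ι)) : Prop where
  two : ∀ l ∈ L, 2 ≤ l.card
  ex : ∀ i j : ι, i ≠ j → ∃ l ∈ L, i ∈ l ∧ j ∈ l
  un : ∀ l ∈ L, ∀ l' ∈ L, ∀ i j : ι, i ≠ j → i ∈ l → j ∈ l → i ∈ l' → j ∈ l' → l = l'

theorem IsLS.sum_pairs {L : Finset (Finset ι)} (h : IsLS L) (f : ι × ι → ℝ) :
    ∑ l ∈ L, ∑ p ∈ l.offDiag, f p = ∑ p ∈ (Finset.univ : Finset ι).offDiag, f p := by
  rw [← Finset.sum_biUnion]
  · refine Finset.sum_congr ?_ fun _ _ => rfl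
    ext ⟨i, j⟩
    simp only [Finset.mem_biUnion, Finset.mem_offDiag, Finset.mem_univ, true_and]
    constructor
    · rintro ⟨l, _, _, _, hne⟩
      exact hne
    · intro hne
      obtain ⟨l, hl, hi, hj⟩ := h.ex i j hne
      exact ⟨l, hl, hi, hj, hne⟩
  · intro l hl l' hl' hne
    rw [Function.onFun, Finset.disjoint_left]
    rintro ⟨i, j⟩ h1 h2
    rw [Finset.mem_offDiag] at h1 h2
    exact hne (h.un l hl l' hl' i j h1.2.2 h1.1 h1.2.1 h2.1 h2.2.1)

theorem sum_offDiag (l : Finset ι) (f : ι → ι → ℝ) :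
    ∑ p ∈ l.offDiag, f p.1 p.2 = ∑ i ∈ l, ∑ j ∈ l, f i j - ∑ i ∈ l, f i i := by
  have h1 : ∑ p ∈ l ×ˢ l, f p.1 p.2 = ∑ p ∈ l.diag, f p.1 p.2 + ∑ p ∈ l.offDiag, f p.1 p.2 := by
    rw [← Finset.sum_union (Finset.disjoint_diag_offDiag l), Finset.diag_union_offDiag]
  have h2 : ∑ p ∈ l.diag, f p.1 p.2 = ∑ i ∈ l, f i i := by
    rw [Finset.sum_diag]
  rw [Finset.sum_product] at h1
  rw [h1, h2]
  ring

/-- The line through two points. -/
def ln {K : Type*} [CommRing K] [DecidableEq K] (v : ι → Fin 3 → K) (i j : ι) : Finset ι :=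
  Finset.univ.filter (fun k => d3 (v i) (v j) (v k) = 0)

/-- The lines. -/
def lns {K : Type*} [CommRing K] [DecidableEq K] (v : ι → Fin 3 → K) : Finset (Finset ι) :=
  (Finset.univ : Finset ι).offDiag.image (fun p => ln v p.1 p.2)

theorem mem_lns {K : Type*} [CommRing K] [DecidableEq K] {v : ι → Fin 3 → K} {l : Finset ι} :
    l ∈ lns v ↔ ∃ i j, i ≠ j ∧ l = ln v i j := by
  unfold lns
  rw [Finset.mem_image]
  constructor
  · rintro ⟨p, hp, rfl⟩
    exact ⟨p.1, p.2, (Finset.mem_offDiag.mp hp).2.2, rfl⟩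
  · rintro ⟨i, j, hne, rfl⟩
    exact ⟨(i, j), Finset.mem_offDiag.mpr ⟨Finset.mem_univ _, Finset.mem_univ _, hne⟩, rfl⟩

theorem mem_ln {K : Type*} [CommRing K] [DecidableEq K] {v : ι → Fin 3 → K} {i j k : ι} :
    k ∈ ln v i j ↔ d3 (v i) (v j) (v k) = 0 := by
  unfold ln
  simp

/-- The lines with many points: the inequality of Langer. -/
theorem langer (v : ι → Fin 3 → ℂ) (hN : 4 ≤ Fintype.card ι) (hLS : IsLS (lns v))
    (hline : ∀ l ∈ lns v, 3 * l.card < 2 * Fintype.card ι) :
    Fintype.card ι * (Fintype.card ι + 3) ≤ 3 * ∑ l ∈ lns v, l.card := by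
  have hline' : ∀ i j, i ≠ j → 3 * (Finset.univ.filter
      (fun k => d3 (v i) (v j) (v k) = 0)).card < 2 * Fintype.card ι := fun i j hij =>
    hline (ln v i j) (mem_lns.mpr ⟨i, j, hij, rfl⟩)
  obtain ⟨u, hu1, hu2, hu3⟩ := exists_frame v hN hline'
  set N : ℝ := (Fintype.card ι : ℝ) with hNdef
  have htot : ∑ i, ∑ j, normSq (hp (u i) (u j)) = N / 3 * N := by
    have h1 : ∀ i, ∑ j, normSq (hp (u i) (u j)) = N / 3 := by
      intro i
      have h2 := parseval' (fun _ => 1) u (N / 3) (by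
        intro a b
        simp only [Complex.ofReal_one, one_mul]
        exact hu2 a b) (u i)
      simp only [one_mul, hu1, mul_one] at h2
      exact h2
    simp only [h1, Finset.sum_const, Finset.card_univ, nsmul_eq_mul]
    rw [← hNdef]
    ring
  have hself : ∀ i, normSq (hp (u i) (u i)) = 1 := by
    intro i
    rw [← nn_cast, hu1]
    simp
  have hoff : ∑ p ∈ (Finset.univ : Finset ι).offDiag, normSq (hp (u p.1) (u p.2)) =
      N / 3 * N - N := by
    rw [sum_offDiag Finset.univ (fun i j => normSq (hp (u i) (u j))), htot]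
    simp [hself, hNdef]
  have hper : ∀ l ∈ lns v, (l.card : ℝ) ^ 2 / 2 - l.card ≤
      ∑ p ∈ l.offDiag, normSq (hp (u p.1) (u p.2)) := by
    intro l hl
    obtain ⟨i, j, hij, rfl⟩ := mem_lns.mp hl
    have hk : ∃ k, d3 (v i) (v j) (v k) ≠ 0 := by
      by_contra hno
      simp only [not_exists, not_not] at hno
      have h1 := hline' i j hij
      have h2 : (Finset.univ.filter (fun k => d3 (v i) (v j) (v k) = 0)) = Finset.univ := by
        ext k; simp [hno k]
      rw [h2, Finset.card_univ] at h1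
      omega
    obtain ⟨k, hk⟩ := hk
    have hw : cr (u i) (u j) ≠ 0 := by
      intro h0
      apply hk
      rw [← hu3]
      unfold d3
      rw [h0]
      simp [dt]
    have h3 := line_ineq u hu1 (ln v i j) (cr (u i) (u j)) hw (by
      intro m hm
      rw [mem_ln, ← hu3] at hm
      exact hm)
    rw [sum_offDiag (ln v i j) (fun i j => normSq (hp (u i) (u j)))]
    simp only [hself, Finset.sum_const, nsmul_eq_mul, mul_one]
    linarith
  have hsum1 := hLS.sum_pairs (fun p => normSq (hp (u p.1) (u p.2)))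
  have hsum2 := hLS.sum_pairs (fun _ => 1)
  have hcard : ∀ l : Finset ι, ∑ p ∈ l.offDiag, (1 : ℝ) = (l.card : ℝ) ^ 2 - l.card := by
    intro l
    rw [sum_offDiag l (fun _ _ => 1)]
    simp
    ring
  simp only [hcard] at hsum2
  rw [Finset.card_univ, ← hNdef] at hsum2
  have h4 := Finset.sum_le_sum hper
  rw [hsum1, hoff, Finset.sum_sub_distrib, ← Finset.sum_div] at h4
  rw [Finset.sum_sub_distrib] at hsum2
  have h5 : N * (N + 3) ≤ 3 * ∑ l ∈ lns v, (l.card : ℝ) := by nlinarith
  rw [hNdef] at h5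
  exact_mod_cast h5

end Pool.Agent.H31.SX
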