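import Mathlib

/-! # Sextic polynomials with special root multiplicities -/

set_option autoImplicit false

namespace Pool.Agent.H31.SX

open Polynomial

/-- Multiplicities with sum six and at most two points. -/
theorem cnt_two {α : Type*} [DecidableEq α] (T : Finset α) (c : α → ℕ) (hc : ∀ a ∈ T, 1 ≤ c a)
    (hs : ∑ a ∈ T, c a = 6) (hT : T.card ≤ 2) :
    (∀ a ∈ T, 2 ∣ c a) ∨ (∀ a ∈ T, 3 ∣ c a) ∨ ∃ a ∈ T, 5 ≤ c a := by
  have h : T.card = 0 ∨ T.card = 1 ∨ T.card = 2 := by omega
  rcases h with h | h | h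
  · rw [Finset.card_eq_zero] at h
    subst h
    simp at hs
  · obtain ⟨x, rfl⟩ := Finset.card_eq_one.mp h
    rw [Finset.sum_singleton] at hs
    exact Or.inr (Or.inr ⟨x, Finset.mem_singleton_self x, by omega⟩)
  · obtain ⟨x, y, hxy, rfl⟩ := Finset.card_eq_two.mp h
    rw [Finset.sum_pair hxy] at hs
    have hx := hc x (by simp)
    have hy := hc y (by simp)
    by_cases h5 : 5 ≤ c x
    · exact Or.inr (Or.inr ⟨x, by simp, h5⟩)
    by_cases h5' : 5 ≤ c y
    · exact Or.inr (Or.inr ⟨y, by simp, h5'⟩)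
    by_cases h3 : c x = 3
    · refine Or.inr (Or.inl ?_)
      intro a ha
      rw [Finset.mem_insert, Finset.mem_singleton] at ha
      rcases ha with rfl | rfl
      · rw [h3]
      · exact ⟨1, by omega⟩
    · refine Or.inl ?_
      intro a ha
      rw [Finset.mem_insert, Finset.mem_singleton] at ha
      have : (c x = 2 ∧ c y = 4) ∨ (c x = 4 ∧ c y = 2) := by omega
      rcases ha with rfl | rfl
      · rcases this with h | h
        · rw [h.1]
        · rw [h.1]; exact ⟨2, rfl⟩
      · rcases this with h | h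
        · rw [h.2]; exact ⟨2, rfl⟩
        · rw [h.2]

/-- Multiplicities with sum six, all at least two. -/
theorem cnt_ge {α : Type*} [DecidableEq α] (T : Finset α) (c : α → ℕ) (hc : ∀ a ∈ T, 2 ≤ c a)
    (hs : ∑ a ∈ T, c a = 6) :
    (∀ a ∈ T, 2 ∣ c a) ∨ (∀ a ∈ T, 3 ∣ c a) ∨ ∃ a ∈ T, 5 ≤ c a := by
  by_cases hT : T.card ≤ 2
  · exact cnt_two T c (fun a ha => by have := hc a ha; omega) hs hT
  · have h1 : 2 * T.card ≤ ∑ a ∈ T, c a := by
      rw [mul_comm, ← smul_eq_mul]
      exact Finset.card_nsmul_le_sum T c 2 hc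
    have h3 : T.card = 3 := by omega
    obtain ⟨x, y, z, hxy, hxz, hyz, rfl⟩ := Finset.card_eq_three.mp h3
    rw [Finset.sum_insert (by simp [hxy, hxz]), Finset.sum_pair hyz] at hs
    have hx := hc x (by simp)
    have hy := hc y (by simp)
    have hz := hc z (by simp)
    refine Or.inl ?_
    intro a ha
    simp only [Finset.mem_insert, Finset.mem_singleton] at ha
    rcases ha with rfl | rfl | rfl <;> exact ⟨1, by omega⟩

variable {K : Type*} [Field K]

theorem splits_form [DecidableEq K] {g : K[X]} (hg : g.Splits) :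
    g = C g.leadingCoeff * ∏ a ∈ g.roots.toFinset, (X - C a) ^ g.roots.count a := by
  conv_lhs => rw [hg.eq_prod_roots]
  rw [Finset.prod_multiset_map_count]

/-- If all multiplicities are divisible by `k` and `K` contains `k`-th roots, then `g` is a
`k`-th power. -/
theorem is_pow [DecidableEq K] {g : K[X]} (hg : g.Splits) (k : ℕ)
    (hroot : ∀ b : K, ∃ a : K, a ^ k = b) (hc : ∀ a ∈ g.roots.toFinset, k ∣ g.roots.count a) :
    ∃ h : K[X], g = h ^ k := by
  obtain ⟨b, hb⟩ := hroot g.leadingCoeff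
  refine ⟨C b * ∏ a ∈ g.roots.toFinset, (X - C a) ^ (g.roots.count a / k), ?_⟩
  conv_lhs => rw [splits_form hg]
  rw [mul_pow, ← C_pow, hb, ← Finset.prod_pow]
  congr 1
  refine Finset.prod_congr rfl fun a ha => ?_
  rw [← pow_mul, Nat.div_mul_cancel (hc a ha)]

/-- The exceptional form of a restriction: a square, a cube, or a root of multiplicity five. -/
theorem special [DecidableEq K] (h4 : ∀ p : K[X], p.natDegree ≤ 4 → p.Splits) {g : K[X]}
    (hg : g.Splits)
    (hc : (∀ a ∈ g.roots.toFinset, 2 ∣ g.roots.count a) ∨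
      (∀ a ∈ g.roots.toFinset, 3 ∣ g.roots.count a) ∨
      ∃ a ∈ g.roots.toFinset, 5 ≤ g.roots.count a) :
    IsSquare g ∨ (∃ h : K[X], g = h ^ 3) ∨ ∃ c, (X - C c) ^ 5 ∣ g := by
  have hroot : ∀ k, 1 ≤ k → k ≤ 4 → ∀ b : K, ∃ a : K, a ^ k = b := by
    intro k hk1 hk4 b
    have h1 := h4 (X ^ k - C b) (by
      rw [natDegree_X_pow_sub_C]
      exact hk4)
    obtain ⟨a, ha⟩ := h1.exists_eval_eq_zero (by
      rw [degree_X_pow_sub_C (by omega)]
      intro h
      have : k = 0 := by exact_mod_cast h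
      omega)
    refine ⟨a, ?_⟩
    simp at ha
    exact sub_eq_zero.mp ha
  rcases hc with h | h | h
  · left
    obtain ⟨h', hh⟩ := is_pow hg 2 (hroot 2 (by norm_num) (by norm_num)) h
    exact ⟨h', by rw [hh, sq]⟩
  · right; left
    exact is_pow hg 3 (hroot 3 (by norm_num) (by norm_num)) h
  · right; right
    obtain ⟨a, _, ha⟩ := h
    refine ⟨a, ?_⟩
    rw [count_roots] at ha
    exact (pow_dvd_pow _ ha).trans (pow_rootMultiplicity_dvd g a)

end Pool.Agent.H31.SX
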