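import Pool.Agent.H31.SX.Proj
import Pool.Agent.H31.SX.Pow
import Pool.Agent.H31.SX.Comb

/-! # The zeros of a form on a line -/

set_option autoImplicit false

namespace Pool.Agent.H31.SX

open Polynomial

set_option linter.unusedSectionVars false

section Vec

variable {K : Type*} [Field K]

theorem parallel {m n : Fin 3 → K} (h : cr m n = 0) (hn : n ≠ 0) : ∃ s : K, m = s • n := by
  have e0 : m 1 * n 2 - m 2 * n 1 = 0 := congrFun h 0
  have e1 : m 2 * n 0 - m 0 * n 2 = 0 := congrFun h 1
  have e2 : m 0 * n 1 - m 1 * n 0 = 0 := congrFun h 2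
  by_cases h0 : n 0 = 0
  · by_cases h1 : n 1 = 0
    · have h2 : n 2 ≠ 0 := fun h2 => hn (ext3 h0 h1 h2)
      refine ⟨m 2 / n 2, ext3 ?_ ?_ ?_⟩
      · simp only [Pi.smul_apply, smul_eq_mul]; field_simp; linear_combination -e1
      · simp only [Pi.smul_apply, smul_eq_mul]; field_simp; linear_combination e0
      · simp only [Pi.smul_apply, smul_eq_mul]; field_simp
    · refine ⟨m 1 / n 1, ext3 ?_ ?_ ?_⟩
      · simp only [Pi.smul_apply, smul_eq_mul]; field_simp; linear_combination e2
      · simp only [Pi.smul_apply, smul_eq_mul]; field_simp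
      · simp only [Pi.smul_apply, smul_eq_mul]; field_simp; linear_combination -e0
  · refine ⟨m 0 / n 0, ext3 ?_ ?_ ?_⟩
    · simp only [Pi.smul_apply, smul_eq_mul]; field_simp
    · simp only [Pi.smul_apply, smul_eq_mul]; field_simp; linear_combination -e2
    · simp only [Pi.smul_apply, smul_eq_mul]; field_simp; linear_combination e1

theorem perp_par {n a b : Fin 3 → K} (hab : cr a b ≠ 0) (ha : dt n a = 0) (hb : dt n b = 0) :
    ∃ s : K, n = s • cr a b := by
  refine parallel ?_ hab
  unfold dt at ha hb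
  refine ext3 ?_ ?_ ?_
  · simp only [cr_zero, cr_one, cr_two, Pi.zero_apply]
    linear_combination (a 0) * hb - (b 0) * ha
  · simp only [cr_zero, cr_one, cr_two, Pi.zero_apply]
    linear_combination (a 1) * hb - (b 1) * ha
  · simp only [cr_zero, cr_one, cr_two, Pi.zero_apply]
    linear_combination (a 2) * hb - (b 2) * ha

theorem in_span {a b x : Fin 3 → K} (hab : cr a b ≠ 0) (hx : dt (cr a b) x = 0) :
    ∃ s t : K, x = s • a + t • b := by
  obtain ⟨c, hc⟩ := exists_third hab
  refine ⟨d3 x b c / d3 a b c, d3 a x c / d3 a b c, ?_⟩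
  have h0 : d3 a b x = 0 := hx
  funext m
  have h1 := expand a b c x m
  rw [h0, zero_mul, add_zero] at h1
  simp only [Pi.add_apply, Pi.smul_apply, smul_eq_mul]
  field_simp
  linear_combination h1

theorem cr_ne_of_ind {a b : Fin 3 → K} (s : K) : cr a (b + s • a) = cr a b := by
  refine ext3 ?_ ?_ ?_ <;> simp <;> ring

theorem cr_swap (a b : Fin 3 → K) : cr b a = -cr a b := by
  refine ext3 ?_ ?_ ?_ <;> simp <;> ring

theorem dt_zero_left (x : Fin 3 → K) : dt 0 x = 0 := by
  unfold dt; simp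

theorem dt_smul_left (s : K) (a b : Fin 3 → K) : dt (s • a) b = s * dt a b := by
  unfold dt; simp; ring

end Vec

section LSp

variable {K : Type*} [Field K] [DecidableEq K] {ι : Type*} [Fintype ι] [DecidableEq ι]

/-- The points on a line given by its equation. -/
def pts (v : ι → Fin 3 → K) (n : Fin 3 → K) : Finset ι :=
  Finset.univ.filter (fun k => dt n (v k) = 0)

theorem mem_pts {v : ι → Fin 3 → K} {n : Fin 3 → K} {k : ι} :
    k ∈ pts v n ↔ dt n (v k) = 0 := by
  unfold pts; simp

theorem ln_eq_pts (v : ι → Fin 3 → K) (i j : ι) : ln v i j = pts v (cr (v i) (v j)) := rfl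

theorem pts_smul {v : ι → Fin 3 → K} {n : Fin 3 → K} {s : K} (hs : s ≠ 0) :
    pts v (s • n) = pts v n := by
  ext k
  rw [mem_pts, mem_pts, dt_smul_left, mul_eq_zero, or_iff_right hs]

theorem pts_eq_ln {v : ι → Fin 3 → K} {n : Fin 3 → K} (hn : n ≠ 0) {i j : ι}
    (hij : cr (v i) (v j) ≠ 0) (hi : i ∈ pts v n) (hj : j ∈ pts v n) : pts v n = ln v i j := by
  rw [mem_pts] at hi hj
  obtain ⟨s, hs⟩ := perp_par hij hi hj
  have hs0 : s ≠ 0 := by
    rintro rfl
    rw [zero_smul] at hs
    exact hn hs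
  rw [hs, pts_smul hs0, ln_eq_pts]

theorem lns_isLS {v : ι → Fin 3 → K} (ind : ∀ i j, i ≠ j → cr (v i) (v j) ≠ 0) :
    IsLS (lns v) := by
  have hself1 : ∀ i j, i ∈ ln v i j := fun i j => mem_ln.mpr (d3_left _ _)
  have hself2 : ∀ i j, j ∈ ln v i j := fun i j => mem_ln.mpr (d3_right _ _)
  have huniq : ∀ l ∈ lns v, ∀ i j, i ≠ j → i ∈ l → j ∈ l → l = ln v i j := by
    intro l hl i j hij hi hj
    obtain ⟨a, b, hab, rfl⟩ := mem_lns.mp hl
    rw [ln_eq_pts] at hi hj ⊢
    exact pts_eq_ln (ind a b hab) (ind i j hij) hi hj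
  refine ⟨?_, ?_, ?_⟩
  · intro l hl
    obtain ⟨i, j, hij, rfl⟩ := mem_lns.mp hl
    have h1 : ({i, j} : Finset ι) ⊆ ln v i j := by
      intro k hk
      rw [Finset.mem_insert, Finset.mem_singleton] at hk
      rcases hk with rfl | rfl
      · exact hself1 _ _
      · exact hself2 _ _
    have h2 := Finset.card_le_card h1
    rw [Finset.card_pair hij] at h2
    exact h2
  · intro i j hij
    exact ⟨ln v i j, mem_lns.mpr ⟨i, j, hij, rfl⟩, hself1 _ _, hself2 _ _⟩
  · intro l hl l' hl' i j hij hi hj hi' hj'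
    rw [huniq l hl i j hij hi hj, huniq l' hl' i j hij hi' hj']

end LSp

section Zeros

variable {K : Type*} [Field K] [DecidableEq K] {ι : Type*} [Fintype ι] [DecidableEq ι]

/-- `v` lists the zeros of `F` in the projective plane. -/
structure FZ (F : MvPolynomial (Fin 3) K) (v : ι → Fin 3 → K) : Prop where
  nz : ∀ i, v i ≠ 0
  ind : ∀ i j, i ≠ j → cr (v i) (v j) ≠ 0
  zero : ∀ i, MvPolynomial.eval (v i) F = 0
  compl : ∀ x, x ≠ 0 → MvPolynomial.eval x F = 0 → ∃ i, ∃ c : K, c ≠ 0 ∧ x = c • v i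

theorem gr_smul {F : MvPolynomial (Fin 3) K} {n : ℕ} (hF : F.IsHomogeneous (n + 1)) (c : K)
    (x : Fin 3 → K) : gr F (c • x) = c ^ n • gr F x := by
  funext j
  have h : (MvPolynomial.pderiv j F).IsHomogeneous n := by
    have := hF.pderiv (i := j)
    simpa using this
  simp only [gr, Pi.smul_apply, smul_eq_mul]
  exact eval_smul h c x

/-- The data of a restriction to a line through the zero `v a`. -/
theorem bij [Infinite K] {F : MvPolynomial (Fin 3) K} {n : ℕ} (hF : F.IsHomogeneous (n + 1))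
    {v : ι → Fin 3 → K} (hZ : FZ F v) {a : ι} {w : Fin 3 → K} (hw : cr (v a) w ≠ 0)
    (hFw : MvPolynomial.eval w F ≠ 0) :
    ∃ τ : K → ι, (∀ r ∈ (res F (v a) w).roots, τ r ∈ pts v (cr (v a) w) ∧
      ∃ c : K, c ≠ 0 ∧ v a + r • w = c • v (τ r)) ∧
      (pts v (cr (v a) w)).card = (res F (v a) w).roots.toFinset.card := by
  have hxne : ∀ r : K, v a + r • w ≠ 0 := by
    intro r h0
    apply hw
    have h1 : cr (v a + r • w) w = cr (v a) w := by
      refine ext3 ?_ ?_ ?_ <;> simp <;> ring
    rw [← h1, h0]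
    refine ext3 ?_ ?_ ?_ <;> simp
  have hroot : ∀ r ∈ (res F (v a) w).roots, ∃ i, ∃ c : K, c ≠ 0 ∧ v a + r • w = c • v i := by
    intro r hr
    refine hZ.compl _ (hxne r) ?_
    rw [← res_eval]
    exact (mem_roots'.mp hr).2
  have : Nonempty ι := ⟨a⟩
  choose! τ hτ using hroot
  have hgne : res F (v a) w ≠ 0 := by
    intro h0
    have h1 := res_coeff_top hF (v a) w
    rw [h0, coeff_zero] at h1
    exact hFw h1.symm
  refine ⟨τ, ?_, ?_⟩
  · intro r hr
    refine ⟨?_, hτ r hr⟩
    obtain ⟨c, hc, hcx⟩ := hτ r hr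
    rw [mem_pts]
    have h1 : dt (cr (v a) w) (v a + r • w) = 0 := by
      unfold dt
      simp
      ring
    rw [hcx, dt_smul, mul_eq_zero, or_iff_right hc] at h1
    exact h1
  · symm
    refine Finset.card_bij (fun r _ => τ r) ?_ ?_ ?_
    · intro r hr
      rw [Multiset.mem_toFinset] at hr
      obtain ⟨c, hc, hcx⟩ := hτ r hr
      rw [mem_pts]
      have h1 : dt (cr (v a) w) (v a + r • w) = 0 := by
        unfold dt
        simp
        ring
      rw [hcx, dt_smul, mul_eq_zero, or_iff_right hc] at h1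
      exact h1
    · intro r hr r' hr' heq
      rw [Multiset.mem_toFinset] at hr hr'
      obtain ⟨c, hc, hcx⟩ := hτ r hr
      obtain ⟨c', hc', hcx'⟩ := hτ r' hr'
      by_contra hne
      have h1 : cr (v a + r • w) (v a + r' • w) = (r' - r) • cr (v a) w := by
        refine ext3 ?_ ?_ ?_ <;> simp <;> ring
      have h2 : cr (c • v (τ r)) (c' • v (τ r')) = 0 := by
        rw [heq]
        refine ext3 ?_ ?_ ?_ <;> simp <;> ring
      rw [← hcx, ← hcx', h1, smul_eq_zero] at h2
      rcases h2 with h2 | h2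
      · exact hne (sub_eq_zero.mp h2).symm
      · exact hw h2
    · intro i hi
      rw [mem_pts] at hi
      obtain ⟨α, β, hαβ⟩ := in_span hw hi
      have hα : α ≠ 0 := by
        rintro rfl
        rw [zero_smul, zero_add] at hαβ
        have h1 := hZ.zero i
        rw [hαβ, eval_smul hF, mul_eq_zero] at h1
        rcases h1 with h1 | h1
        · have hβ : β = 0 := by
            by_contra hβ
            exact pow_ne_zero _ hβ h1
          apply hZ.nz i
          rw [hαβ, hβ, zero_smul]
        · exact hFw h1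
      have hx : v a + (β / α) • w = α⁻¹ • v i := by
        rw [hαβ, smul_add, smul_smul, smul_smul, inv_mul_cancel₀ hα, one_smul]
        congr 2
        field_simp
      have hr : β / α ∈ (res F (v a) w).roots := by
        rw [mem_roots hgne]
        change (res F (v a) w).eval (β / α) = 0
        rw [res_eval, hx, eval_smul hF, hZ.zero i, mul_zero]
      refine ⟨β / α, Multiset.mem_toFinset.mpr hr, ?_⟩
      obtain ⟨c, hc, hcx⟩ := hτ _ hr
      by_contra hne
      apply hZ.ind _ _ hne
      have h2 : v i = (α * c) • v (τ (β / α)) := by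
        rw [mul_smul, ← hcx, hx, smul_smul, mul_inv_cancel₀ hα, one_smul]
      rw [h2]
      refine ext3 ?_ ?_ ?_ <;> simp <;> ring

end Zeros

end Pool.Agent.H31.SX
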