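import Pool.Agent.H31.SX.S4

/-! # The maximal solvable extension is closed under equations of degree at most four -/

set_option autoImplicit false

namespace Pool.Agent.H31.SX

open Polynomial

theorem solvable_of_degree_le_four {F : Type*} [Field F] (p : F[X]) (hp : p.natDegree ≤ 4) :
    Group.IsSolvable p.Gal := by
  have : Fact ((p.map (algebraMap F p.SplittingField)).Splits) := ⟨SplittingField.splits p⟩
  have hcard : Fintype.card (p.rootSet p.SplittingField) ≤ 4 := by
    classical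
    rw [← Nat.card_eq_fintype_card, Nat.card_coe_set_eq, rootSet_def, Set.ncard_coe_finset]
    refine (Multiset.toFinset_card_le _).trans ?_
    refine (Polynomial.card_roots' _).trans ?_
    exact natDegree_map_le.trans hp
  obtain ⟨e⟩ := Function.Embedding.nonempty_of_card_le (α := p.rootSet p.SplittingField)
    (β := Fin 4) (by rw [Fintype.card_fin]; exact hcard)
  have h4 := solvable_S4
  classical
  have h1 : Group.IsSolvable (Equiv.Perm (p.rootSet p.SplittingField)) :=
    Group.isSolvable_of_isSolvable_injective (Equiv.Perm.viaEmbeddingHom_injective e)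
  exact Group.isSolvable_of_isSolvable_injective (Gal.galActionHom_injective p p.SplittingField)

theorem solvable_of_dvd {F : Type*} [Field F] {p q : F[X]} (hpq : p ∣ q) (hq0 : q ≠ 0)
    (hq : Group.IsSolvable q.Gal) : Group.IsSolvable p.Gal :=
  Group.isSolvable_of_surjective (Gal.restrictDvd_surjective hpq hq0)

theorem solvable_of_splits {F : Type*} [Field F] {p : F[X]} (hp : p.Splits) :
    Group.IsSolvable p.Gal := by
  have := Gal.uniqueGalOfSplits p hp
  infer_instance

/-- A finite solvable Galois extension of `ℚ` in the algebraic closure. -/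
def Good (E : IntermediateField ℚ (AlgebraicClosure ℚ)) : Prop :=
  IsGalois ℚ E ∧ FiniteDimensional ℚ E ∧ Group.IsSolvable (E ≃ₐ[ℚ] E)

/-- The field generated by the roots. -/
noncomputable def rf (p : ℚ[X]) : IntermediateField ℚ (AlgebraicClosure ℚ) :=
  IntermediateField.adjoin ℚ (p.rootSet (AlgebraicClosure ℚ))

theorem rf_split (p : ℚ[X]) : p.IsSplittingField ℚ (rf p) :=
  IntermediateField.adjoin_rootSet_isSplittingField (IsAlgClosed.splits _)

theorem good_rf {p : ℚ[X]} (hp : Group.IsSolvable p.Gal) : Good (rf p) := by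
  have h1 := rf_split p
  have h2 : FiniteDimensional ℚ (rf p) := IsSplittingField.finiteDimensional (rf p) p
  have h3 : Normal ℚ (rf p) := Normal.of_isSplittingField p
  have h4 : IsGalois ℚ (rf p) := { }
  refine ⟨h4, h2, ?_⟩
  have hp' : Group.IsSolvable (p.SplittingField ≃ₐ[ℚ] p.SplittingField) := hp
  exact @Group.isSolvable_of_isSolvable_injective _ _ _ _
    (IsSplittingField.algEquiv (rf p) p).autCongr.toMonoidHom (MulEquiv.injective _) hp'

theorem rf_mono {p q : ℚ[X]} (hpq : p ∣ q) (hq : q ≠ 0) : rf p ≤ rf q := by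
  refine IntermediateField.adjoin.mono _ _ _ ?_
  intro x hx
  rw [mem_rootSet_of_ne hq]
  obtain ⟨r, hr⟩ := hpq
  have h0 : p ≠ 0 := by
    rintro rfl
    exact hq (by rw [hr, zero_mul])
  rw [mem_rootSet_of_ne h0] at hx
  rw [hr, map_mul, hx, zero_mul]

/-- The field of the frozen statement. -/
noncomputable def Qs : IntermediateField ℚ (AlgebraicClosure ℚ) :=
  ⨆ (E : IntermediateField ℚ (AlgebraicClosure ℚ)) (_ : Good E), E

theorem rf_le {p : ℚ[X]} (hp : Group.IsSolvable p.Gal) : rf p ≤ Qs :=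
  le_iSup₂_of_le (rf p) (good_rf hp) le_rfl

theorem good_eq_rf {E : IntermediateField ℚ (AlgebraicClosure ℚ)} (hE : Good E) :
    ∃ p : ℚ[X], p ≠ 0 ∧ Group.IsSolvable p.Gal ∧ E = rf p := by
  obtain ⟨h1, h2, h3⟩ := hE
  obtain ⟨p, hp, hs⟩ := IsGalois.is_separable_splitting_field ℚ E
  refine ⟨p, hp.ne_zero, ?_, ?_⟩
  · have h4 : Group.IsSolvable (p.SplittingField ≃ₐ[ℚ] p.SplittingField) :=
      Group.isSolvable_of_isSolvable_injective
        (f := (IsSplittingField.algEquiv E p).symm.autCongr.toMonoidHom) (MulEquiv.injective _)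
    exact h4
  · exact (IntermediateField.isSplittingField_iff.mp hs).2

/-- The elements of fields generated by roots of polynomials with solvable group. -/
noncomputable def Sf : IntermediateField ℚ (AlgebraicClosure ℚ) :=
  Subalgebra.toIntermediateField
    { carrier := {x | ∃ p : ℚ[X], p ≠ 0 ∧ Group.IsSolvable p.Gal ∧ x ∈ rf p}
      mul_mem' := by
        rintro x y ⟨p, hp0, hp, hx⟩ ⟨q, hq0, hq, hy⟩
        exact ⟨p * q, mul_ne_zero hp0 hq0, gal_mul_isSolvable hp hq,
          mul_mem (rf_mono (dvd_mul_right p q) (mul_ne_zero hp0 hq0) hx)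
            (rf_mono (dvd_mul_left q p) (mul_ne_zero hp0 hq0) hy)⟩
      add_mem' := by
        rintro x y ⟨p, hp0, hp, hx⟩ ⟨q, hq0, hq, hy⟩
        exact ⟨p * q, mul_ne_zero hp0 hq0, gal_mul_isSolvable hp hq,
          add_mem (rf_mono (dvd_mul_right p q) (mul_ne_zero hp0 hq0) hx)
            (rf_mono (dvd_mul_left q p) (mul_ne_zero hp0 hq0) hy)⟩
      algebraMap_mem' := fun r => ⟨1, one_ne_zero, gal_one_isSolvable,
        (rf 1).algebraMap_mem r⟩ }
    (by
      rintro x ⟨p, hp0, hp, hx⟩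
      exact ⟨p, hp0, hp, inv_mem hx⟩)

theorem mem_Qs {x : AlgebraicClosure ℚ} (hx : x ∈ Qs) :
    ∃ p : ℚ[X], p ≠ 0 ∧ Group.IsSolvable p.Gal ∧ x ∈ rf p := by
  have h : Qs ≤ Sf := by
    refine iSup₂_le fun E hE => ?_
    intro y hy
    obtain ⟨p, hp0, hp, rfl⟩ := good_eq_rf hE
    exact ⟨p, hp0, hp, hy⟩
  exact h hx

theorem finset_Qs (T : Finset (AlgebraicClosure ℚ)) (hT : ∀ x ∈ T, x ∈ Qs) :
    ∃ p : ℚ[X], p ≠ 0 ∧ Group.IsSolvable p.Gal ∧ ∀ x ∈ T, x ∈ rf p := by
  classical
  induction T using Finset.induction_on with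
  | empty => exact ⟨1, one_ne_zero, gal_one_isSolvable, by simp⟩
  | insert a T ha ih =>
    obtain ⟨p, hp0, hp, hpT⟩ := ih fun x hx => hT x (Finset.mem_insert_of_mem hx)
    obtain ⟨q, hq0, hq, hqa⟩ := mem_Qs (hT a (Finset.mem_insert_self a T))
    refine ⟨p * q, mul_ne_zero hp0 hq0, gal_mul_isSolvable hp hq, ?_⟩
    intro x hx
    rcases Finset.mem_insert.mp hx with rfl | hx
    · exact rf_mono (dvd_mul_left q p) (mul_ne_zero hp0 hq0) hqa
    · exact rf_mono (dvd_mul_right p q) (mul_ne_zero hp0 hq0) (hpT x hx)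

/-- The conjugates of a polynomial over a Galois extension. -/
theorem norm_poly {M : Type*} [Field M] [Algebra ℚ M] [FiniteDimensional ℚ M] [IsGalois ℚ M]
    (q : M[X]) : ∃ Q : ℚ[X], Q.map (algebraMap ℚ M) =
      ∏ σ : M ≃ₐ[ℚ] M, q.map (σ : M →+* M) := by
  classical
  have h : (∏ σ : M ≃ₐ[ℚ] M, q.map (σ : M →+* M)) ∈ lifts (algebraMap ℚ M) := by
    rw [lifts_iff_coeff_lifts]
    intro n
    rw [IsGalois.mem_range_algebraMap_iff_fixed]
    intro τ
    have h1 : (∏ σ : M ≃ₐ[ℚ] M, q.map (σ : M →+* M)).map (τ : M →+* M) =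
        ∏ σ : M ≃ₐ[ℚ] M, q.map (σ : M →+* M) := by
      rw [Polynomial.map_prod]
      refine Fintype.prod_equiv (Equiv.mulLeft τ) _ _ fun σ => ?_
      rw [Polynomial.map_map]
      rfl
    have h2 := congrArg (fun r => coeff r n) h1
    simp only [coeff_map] at h2
    exact h2
  obtain ⟨Q, hQ⟩ := h
  exact ⟨Q, hQ⟩

/-- A root of a polynomial of degree at most four over a solvable extension has solvable
group. -/
theorem root_mem {q : Qs[X]} (hq0 : q ≠ 0) (hq : q.natDegree ≤ 4) {α : AlgebraicClosure ℚ}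
    (hα : (q.map (algebraMap Qs (AlgebraicClosure ℚ))).eval α = 0) : α ∈ Qs := by
  classical
  obtain ⟨p, hp0, hp, hpT⟩ := finset_Qs
    ((Finset.range 5).image fun n => ((q.coeff n : Qs) : AlgebraicClosure ℚ)) (by
      intro x hx
      obtain ⟨n, _, rfl⟩ := Finset.mem_image.mp hx
      exact (q.coeff n).2)
  have hsf := rf_split p
  set M := p.SplittingField with hM
  let ψ : M ≃ₐ[ℚ] rf p := (IsSplittingField.algEquiv (rf p) p).symm
  let j : M →ₐ[ℚ] AlgebraicClosure ℚ := (rf p).val.comp (ψ : M →ₐ[ℚ] rf p)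
  have hrange : ∀ x ∈ rf p, ∃ y : M, j y = x := by
    intro x hx
    refine ⟨ψ.symm ⟨x, hx⟩, ?_⟩
    change ((ψ (ψ.symm ⟨x, hx⟩) : rf p) : AlgebraicClosure ℚ) = x
    rw [AlgEquiv.apply_symm_apply]
  have hlift : q.map (algebraMap Qs (AlgebraicClosure ℚ)) ∈ lifts (j : M →+* AlgebraicClosure ℚ) := by
    rw [lifts_iff_coeff_lifts]
    intro n
    rw [coeff_map]
    by_cases hn : n < 5
    · obtain ⟨y, hy⟩ := hrange _ (hpT _ (Finset.mem_image.mpr ⟨n, Finset.mem_range.mpr hn, rfl⟩))
      exact ⟨y, hy⟩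
    · refine ⟨0, ?_⟩
      rw [coeff_eq_zero_of_natDegree_lt (by omega)]
      simp
  obtain ⟨q', hq''⟩ := hlift
  have hq' : q'.map (j : M →+* AlgebraicClosure ℚ) =
    q.map (algebraMap Qs (AlgebraicClosure ℚ)) := hq''
  have hjinj : Function.Injective (j : M →+* AlgebraicClosure ℚ) := RingHom.injective _
  have hq'0 : q' ≠ 0 := by
    rintro rfl
    rw [Polynomial.map_zero] at hq'
    exact hq0 ((Polynomial.map_eq_zero _).mp hq'.symm)
  have hq'd : q'.natDegree ≤ 4 := by
    have h1 : (q'.map (j : M →+* AlgebraicClosure ℚ)).natDegree = q'.natDegree :=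
      natDegree_map_eq_of_injective hjinj q'
    rw [← h1, hq']
    exact natDegree_map_le.trans hq
  have hGal : IsGalois ℚ p.SplittingField := by
    have hN : Normal ℚ p.SplittingField := Polynomial.SplittingField.instNormal p
    exact IsGalois.mk
  obtain ⟨Q, hQ⟩ := norm_poly q'
  set m := minpoly ℚ α with hm
  have hαint : IsIntegral ℚ α := (AlgebraicClosure.isAlgebraic ℚ).isIntegral.isIntegral α
  have hm0 : m ≠ 0 := minpoly.ne_zero hαint
  have hprod0 : (∏ σ : M ≃ₐ[ℚ] M, q'.map (σ : M →+* M)) ≠ 0 := by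
    rw [Finset.prod_ne_zero_iff]
    intro σ _ h0
    exact hq'0 ((Polynomial.map_eq_zero _).mp h0)
  have hdvd : m ∣ Q := by
    refine minpoly.dvd ℚ α ?_
    have h1 : aeval α Q = ((Q.map (algebraMap ℚ M)).map (j : M →+* AlgebraicClosure ℚ)).eval α := by
      rw [Polynomial.map_map, aeval_def, eval_map]
      congr 1
      exact Subsingleton.elim _ _
    rw [h1, hQ, Polynomial.map_prod, eval_prod]
    refine Finset.prod_eq_zero (Finset.mem_univ (1 : M ≃ₐ[ℚ] M)) ?_
    have h2 : q'.map (((1 : M ≃ₐ[ℚ] M) : M ≃ₐ[ℚ] M) : M →+* M) = q' := by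
      have : (((1 : M ≃ₐ[ℚ] M) : M ≃ₐ[ℚ] M) : M →+* M) = RingHom.id M := by
        ext x
        rfl
      rw [this, Polynomial.map_id]
    rw [h2, hq']
    exact hα
  have hQ0 : Q.map (algebraMap ℚ M) ≠ 0 := by rw [hQ]; exact hprod0
  have hQsol : Group.IsSolvable (Q.map (algebraMap ℚ M)).Gal := by
    rw [hQ]
    have h3 : (∏ σ : M ≃ₐ[ℚ] M, q'.map (σ : M →+* M)) =
        ((Finset.univ : Finset (M ≃ₐ[ℚ] M)).val.map
          fun σ : M ≃ₐ[ℚ] M => q'.map (σ : M →+* M)).prod := rfl
    rw [h3]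
    refine gal_prod_isSolvable ?_
    intro r hr
    rw [Multiset.mem_map] at hr
    obtain ⟨σ, _, rfl⟩ := hr
    exact solvable_of_degree_le_four _ (natDegree_map_le.trans hq'd)
  have hmM : Group.IsSolvable (m.map (algebraMap ℚ M)).Gal :=
    solvable_of_dvd (Polynomial.map_dvd _ hdvd) hQ0 hQsol
  have hpM : Group.IsSolvable (p.map (algebraMap ℚ M)).Gal :=
    solvable_of_splits (SplittingField.splits p)
  have hpm0 : p * m ≠ 0 := mul_ne_zero hp0 hm0
  have hpm : Group.IsSolvable (p * m).Gal := by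
    refine gal_isSolvable_tower p (p * m) ?_ hp ?_
    · refine Splits.of_dvd (SplittingField.splits (p * m)) ?_ ?_
      · exact (Polynomial.map_ne_zero_iff (RingHom.injective _)).mpr hpm0
      · exact Polynomial.map_dvd _ (dvd_mul_right p m)
    · rw [Polynomial.map_mul]
      exact gal_mul_isSolvable hpM hmM
  have hmsol : Group.IsSolvable m.Gal := solvable_of_dvd (dvd_mul_left m p) hpm0 hpm
  refine rf_le hmsol ?_
  refine IntermediateField.subset_adjoin ℚ _ ?_
  rw [mem_rootSet_of_ne hm0]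
  exact minpoly.aeval ℚ α

theorem Qs_splits (q : Qs[X]) (hq : q.natDegree ≤ 4) : q.Splits := by
  by_cases hq0 : q = 0
  · rw [hq0]
    exact Splits.zero
  · refine Splits.of_splits_map_of_injective
      (i := algebraMap Qs (AlgebraicClosure ℚ)) (RingHom.injective _) (IsAlgClosed.splits _) ?_
    intro a ha
    have h1 := (mem_roots'.mp ha).2
    exact ⟨⟨a, root_mem hq0 hq h1⟩, rfl⟩

end Pool.Agent.H31.SX
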