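import Pool.Agent.H31.SX.Chain
import Pool.Agent.H31.SX.Solv

/-! # Plane curves of degree at most six over the maximal solvable extension -/

set_option autoImplicit false

namespace Pool.Agent.H31.SX

open Polynomial
open scoped LinearAlgebra.Projectivization

section General

variable {K : Type*} [Field K]

theorem exists_perp {n P : Fin 3 → K} (hn : n ≠ 0) (hP : P ≠ 0) (hnP : dt n P = 0) :
    ∃ t, dt n t = 0 ∧ cr P t ≠ 0 := by
  have hm : ∃ m, P m ≠ 0 := by
    by_contra hno
    simp only [not_exists, not_not] at hno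
    exact hP (funext hno)
  obtain ⟨m, hm⟩ := hm
  refine ⟨cr n (Pi.single m 1), ?_, ?_⟩
  · unfold dt
    simp
    ring
  · intro h0
    apply hn
    have h1 : (P m) • n = cr P (cr n (Pi.single m 1)) := by
      unfold dt at hnP
      fin_cases m
      · refine ext3 ?_ ?_ ?_
        · simp; linear_combination hnP
        · simp
        · simp
      · refine ext3 ?_ ?_ ?_
        · simp
        · simp; linear_combination hnP
        · simp
      · refine ext3 ?_ ?_ ?_
        · simp
        · simp
        · simp; linear_combination hnP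
    rw [h0, smul_eq_zero, or_iff_right hm] at h1
    exact h1

/-- Degree at most five with a smooth zero. -/
theorem core5s [Infinite K] (h4 : ∀ p : K[X], p.natDegree ≤ 4 → p.Splits)
    {F : MvPolynomial (Fin 3) K} {n : ℕ} (hn : n ≤ 5) (hF : F.IsHomogeneous n)
    {P : Fin 3 → K} (hP0 : P ≠ 0) (hP : MvPolynomial.eval P F = 0) (hsm : gr F P ≠ 0) :
    (ZZ F).Infinite := by
  have hgP : dt (gr F P) P = 0 := by rw [euler hF, hP, mul_zero]
  have hdeg : ∀ w, (res F w P).natDegree ≤ 4 := by
    intro w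
    by_cases h5 : n = 5
    · subst h5
      exact res_natDegree_lt (n := 4) hF w P hP
    · exact (res_natDegree_le hF w P).trans (by omega)
  rcases n with _ | m
  · exfalso
    apply hsm
    have h1 : F = MvPolynomial.C (F.coeff 0) :=
      MvPolynomial.totalDegree_eq_zero_iff_eq_C.mp (Nat.le_zero.mp hF.totalDegree_le)
    unfold gr
    rw [h1]
    funext j
    simp
  · rcases m with _ | m
    · obtain ⟨t, ht, hPt⟩ := exists_perp hsm hP0 hgP
      refine proj h4 hF hdeg hPt ?_
      have h1 := res_coeff_pred (n := 0) hF t P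
      rw [ht, coeff_zero_eq_eval_zero, res_eval, zero_smul, add_zero] at h1
      exact h1
    · obtain ⟨w, hw⟩ : ∃ w, dt (gr F P) w ≠ 0 := by
        by_contra hno
        simp only [not_exists, not_not] at hno
        apply hsm
        have e0 := hno ![1, 0, 0]
        have e1 := hno ![0, 1, 0]
        have e2 := hno ![0, 0, 1]
        unfold dt at e0 e1 e2
        refine ext3 ?_ ?_ ?_
        · simpa using e0
        · simpa using e1
        · simpa using e2
      have h1 := res_coeff_pred (n := m + 1) hF w P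
      have h2 : (res F w P).degree ≠ 0 := by
        intro h0
        have h3 : (res F w P).natDegree = 0 := natDegree_eq_of_degree_eq_some h0
        rw [coeff_eq_zero_of_natDegree_lt (by omega)] at h1
        exact hw h1.symm
      obtain ⟨s, hs⟩ := (h4 _ (hdeg w)).exists_eval_eq_zero h2
      rw [res_eval] at hs
      refine proj h4 hF hdeg (Q := w + s • P) ?_ hs
      intro h0
      have h3 : cr (w + s • P) P = 0 := by rw [cr_swap, h0, neg_zero]
      obtain ⟨c, hc⟩ := parallel h3 hP0
      have h4' := congrArg (dt (gr F P)) hc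
      rw [dt_add, dt_smul, dt_smul, hgP, mul_zero, mul_zero, add_zero] at h4'
      exact hw h4'

/-- Sextics: infinitely many zeros, or at most seven, all but one of them on a line. -/
theorem core6' [Infinite K] (φ : K →+* ℂ) (h4 : ∀ p : K[X], p.natDegree ≤ 4 → p.Splits)
    {F : MvPolynomial (Fin 3) K} (hF : F.IsHomogeneous 6) :
    (ZZ F).Infinite ∨ ((ZZ F).ncard ≤ 7 ∧ ∃ u : Fin 3 → K, u ≠ 0 ∧
      {P | P ∈ ZZ F ∧ dt u P.rep ≠ 0}.Subsingleton) := by
  classical
  by_cases hinf : (ZZ F).Infinite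
  · exact Or.inl hinf
  · right
    have hfin := Set.not_infinite.mp hinf
    have hZ := FZ_of_finite hF hfin
    refine ⟨(core6 φ h4 hF).resolve_left hinf, ?_⟩
    by_cases hN : 1 < Fintype.card hfin.toFinset
    · have hsm := smooth h4 hF hinf hZ hN
      obtain ⟨h6, hshort⟩ := short_le h4 hF hinf hZ hsm
      obtain ⟨l0, hl0, hc⟩ := comb3 (lns_isLS hZ.ind) h6 hshort (langerK φ hZ.ind) hN
      obtain ⟨i, j, hij, rfl⟩ := mem_lns.mp hl0
      refine ⟨_, hZ.ind i j hij, ?_⟩
      rintro P ⟨hP, hP'⟩ Q ⟨hQ, hQ'⟩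
      by_contra hne
      have hsub : ({⟨P, hfin.mem_toFinset.mpr hP⟩, ⟨Q, hfin.mem_toFinset.mpr hQ⟩} :
          Finset hfin.toFinset) ⊆ (ln (fun P : hfin.toFinset => P.1.rep) i j)ᶜ := by
        intro k hk
        rw [Finset.mem_insert, Finset.mem_singleton] at hk
        rw [Finset.mem_compl, mem_ln]
        rcases hk with rfl | rfl
        · exact hP'
        · exact hQ'
      have h8 := Finset.card_le_card hsub
      rw [Finset.card_pair (fun h => hne (congrArg Subtype.val h)), Finset.card_compl] at h8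
      omega
    · refine ⟨![1, 0, 0], fun h => one_ne_zero (congrFun h 0), ?_⟩
      rintro P ⟨hP, _⟩ Q ⟨hQ, _⟩
      by_contra hne
      exact hN (Fintype.one_lt_card_iff.mpr ⟨⟨P, hfin.mem_toFinset.mpr hP⟩,
        ⟨Q, hfin.mem_toFinset.mpr hQ⟩, fun h => hne (congrArg Subtype.val h)⟩)

/-! ## Affine curves -/

/-- The homogenization. -/
noncomputable def hom (f : MvPolynomial (Fin 2) K) : MvPolynomial (Fin 3) K :=
  ∑ i ∈ Finset.range (f.totalDegree + 1),
    MvPolynomial.rename Fin.castSucc (MvPolynomial.homogeneousComponent i f) *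
      MvPolynomial.X 2 ^ (f.totalDegree - i)

theorem hom_homogeneous (f : MvPolynomial (Fin 2) K) : (hom f).IsHomogeneous f.totalDegree := by
  unfold hom
  refine MvPolynomial.IsHomogeneous.sum _ _ _ fun i hi => ?_
  rw [Finset.mem_range] at hi
  have h1 := (MvPolynomial.homogeneousComponent_isHomogeneous i f).rename_isHomogeneous
    (f := (Fin.castSucc : Fin 2 → Fin 3))
  have h2 := (MvPolynomial.isHomogeneous_X_pow (R := K) (2 : Fin 3) (f.totalDegree - i))
  have h3 := h1.mul h2
  have h4 : i + (f.totalDegree - i) = f.totalDegree := by omega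
  rwa [h4] at h3

theorem eval_hom_one (f : MvPolynomial (Fin 2) K) (p : Fin 3 → K) (hp : p 2 = 1) :
    MvPolynomial.eval p (hom f) = MvPolynomial.eval (p ∘ Fin.castSucc) f := by
  conv_rhs => rw [← MvPolynomial.sum_homogeneousComponent f]
  unfold hom
  rw [map_sum, map_sum]
  refine Finset.sum_congr rfl fun i _ => ?_
  rw [map_mul, map_pow, MvPolynomial.eval_X, hp, one_pow, mul_one, MvPolynomial.eval_rename]

theorem eval_hom_zero (f : MvPolynomial (Fin 2) K) (p : Fin 3 → K) (hp : p 2 = 0) :
    MvPolynomial.eval p (hom f) = MvPolynomial.eval (p ∘ Fin.castSucc)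
      (MvPolynomial.homogeneousComponent f.totalDegree f) := by
  unfold hom
  rw [map_sum, Finset.sum_range_succ, Finset.sum_eq_zero, zero_add]
  · rw [Nat.sub_self, pow_zero, mul_one, MvPolynomial.eval_rename]
  · intro i hi
    rw [Finset.mem_range] at hi
    rw [map_mul, map_pow, MvPolynomial.eval_X, hp, zero_pow (by omega), mul_zero]

/-- Evaluation of a substitution. -/
theorem eval_aeval2 (h : MvPolynomial (Fin 2) K) (a b : K[X]) (x : K) :
    (MvPolynomial.aeval ![a, b] h : K[X]).eval x =
      MvPolynomial.eval ![a.eval x, b.eval x] h := by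
  induction h using MvPolynomial.induction_on with
  | C a => simp
  | add p q hp hq => rw [map_add, eval_add, hp, hq, map_add]
  | mul_X p i hp =>
    rw [map_mul, eval_mul, hp, map_mul]
    congr 1
    fin_cases i <;> simp

theorem eval_smul2 {h : MvPolynomial (Fin 2) K} {n : ℕ} (hh : h.IsHomogeneous n) (c : K)
    (p : Fin 2 → K) : MvPolynomial.eval (c • p) h = c ^ n * MvPolynomial.eval p h := by
  have hF : (MvPolynomial.rename (Fin.castSucc : Fin 2 → Fin 3) h).IsHomogeneous n :=
    hh.rename_isHomogeneous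
  have h1 := eval_smul hF c ![p 0, p 1, 0]
  rw [MvPolynomial.eval_rename, MvPolynomial.eval_rename] at h1
  have h2 : (c • ![p 0, p 1, 0] : Fin 3 → K) ∘ (Fin.castSucc : Fin 2 → Fin 3) = c • p := by
    funext i
    fin_cases i <;> rfl
  have h3 : (![p 0, p 1, 0] : Fin 3 → K) ∘ (Fin.castSucc : Fin 2 → Fin 3) = p := by
    funext i
    fin_cases i <;> rfl
  rwa [h2, h3] at h1

/-- The zeros of a binary form on the line `x₂ = 0`. -/
def BZ (h : MvPolynomial (Fin 2) K) : Set (ℙ K (Fin 3 → K)) :=
  {P | P.rep 2 = 0 ∧ MvPolynomial.eval (P.rep ∘ Fin.castSucc) h = 0}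

/-- A binary form has finitely many zeros on the line `x₂ = 0`. -/
theorem binary_finite [Infinite K] {h : MvPolynomial (Fin 2) K} {n : ℕ}
    (hh : h.IsHomogeneous n) (h0 : h ≠ 0) : (BZ h).Finite := by
  classical
  set g : K[X] := MvPolynomial.aeval ![X, 1] h with hgdef
  have hg : ∀ x : K, g.eval x = MvPolynomial.eval ![x, 1] h := by
    intro x
    rw [hgdef, eval_aeval2]
    simp
  have hg0 : g ≠ 0 := by
    intro hg0
    apply h0
    have h1 : h * MvPolynomial.X 1 = 0 := by
      apply MvPolynomial.funext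
      intro p
      rw [map_mul, MvPolynomial.eval_X, map_zero]
      by_cases hp : p 1 = 0
      · rw [hp, mul_zero]
      · have h2 : p = (p 1) • ![p 0 / p 1, 1] := by
          funext i
          fin_cases i
          · simp; field_simp
          · simp
        have h3 := hg (p 0 / p 1)
        rw [hg0, eval_zero] at h3
        rw [h2, eval_smul2 hh, ← h3, mul_zero, zero_mul]
    rcases mul_eq_zero.mp h1 with h2 | h2
    · exact h2
    · exact absurd h2 (MvPolynomial.X_ne_zero 1)
  have hne : ∀ x : K, (![x, 1, 0] : Fin 3 → K) ≠ 0 := fun x hx => one_ne_zero (congrFun hx 1)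
  have hne' : (![1, 0, 0] : Fin 3 → K) ≠ 0 := fun hx => one_ne_zero (congrFun hx 0)
  refine ((Set.finite_singleton (Projectivization.mk K (![1, 0, 0] : Fin 3 → K) hne')).union
    ((g.roots.toFinset.finite_toSet).image
      (fun x => Projectivization.mk K (![x, 1, 0] : Fin 3 → K) (hne x)))).subset ?_
  rintro P ⟨hP2, hP⟩
  by_cases h1 : P.rep 1 = 0
  · left
    rw [Set.mem_singleton_iff, ← Projectivization.mk_rep P, Projectivization.mk_eq_mk_iff']
    refine ⟨P.rep 0, ?_⟩
    refine ext3 ?_ ?_ ?_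
    · simp
    · simp [h1]
    · simp [hP2]
  · right
    refine ⟨P.rep 0 / P.rep 1, ?_, ?_⟩
    · rw [Finset.mem_coe, Multiset.mem_toFinset, mem_roots hg0]
      change g.eval _ = 0
      rw [hg]
      have h2 : P.rep ∘ Fin.castSucc = (P.rep 1) • ![P.rep 0 / P.rep 1, 1] := by
        funext i
        fin_cases i
        · simp; field_simp
        · simp
      rw [h2, eval_smul2 hh, mul_eq_zero] at hP
      exact hP.resolve_left (pow_ne_zero _ h1)
    · rw [← Projectivization.mk_rep P, Projectivization.mk_eq_mk_iff']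
      refine ⟨(P.rep 1)⁻¹, ?_⟩
      rw [Projectivization.mk_rep]
      refine ext3 ?_ ?_ ?_
      · simp; field_simp
      · simp; field_simp
      · simp [hP2]

/-- The affine zeros. -/
def AZ (f : MvPolynomial (Fin 2) K) : Set (Fin 2 → K) := {p | MvPolynomial.eval p f = 0}

theorem hat_ne (p : Fin 2 → K) : (![p 0, p 1, 1] : Fin 3 → K) ≠ 0 :=
  fun hx => one_ne_zero (congrFun hx 2)

omit [Field K] in
theorem hat_comp (p : Fin 2 → K) (c : K) :
    (![p 0, p 1, c] : Fin 3 → K) ∘ (Fin.castSucc : Fin 2 → Fin 3) = p := by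
  funext i
  fin_cases i <;> rfl

theorem hom_ne_zero {f : MvPolynomial (Fin 2) K} (hf : f ≠ 0) :
    MvPolynomial.homogeneousComponent f.totalDegree f ≠ 0 := by
  intro h0
  obtain ⟨d, hd, hd2⟩ := Finset.exists_mem_eq_sup f.support
    (MvPolynomial.support_nonempty.mpr hf) (fun s => s.sum fun _ e => e)
  have h1 := congrArg (MvPolynomial.coeff d) h0
  rw [MvPolynomial.coeff_homogeneousComponent, if_pos, MvPolynomial.coeff_zero] at h1
  · exact (MvPolynomial.mem_support_iff.mp hd) h1
  · exact hd2.symm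

theorem mem_AZ_of {f : MvPolynomial (Fin 2) K} {P : ℙ K (Fin 3 → K)} (hP : P ∈ ZZ (hom f))
    (h2 : P.rep 2 ≠ 0) : ![P.rep 0 / P.rep 2, P.rep 1 / P.rep 2] ∈ AZ f := by
  have h1 : P.rep = (P.rep 2) • ![P.rep 0 / P.rep 2, P.rep 1 / P.rep 2, 1] := by
    refine ext3 ?_ ?_ ?_
    · simp; field_simp
    · simp; field_simp
    · simp
  have h3 : MvPolynomial.eval P.rep (hom f) = 0 := hP
  rw [h1, eval_smul (hom_homogeneous f), mul_eq_zero, or_iff_right (pow_ne_zero _ h2),
    eval_hom_one f _ rfl] at h3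
  have h4 := hat_comp (![P.rep 0 / P.rep 2, P.rep 1 / P.rep 2] : Fin 2 → K) 1
  change MvPolynomial.eval _ f = 0
  rw [← h4]
  exact h3

theorem AZ_infinite [Infinite K] {f : MvPolynomial (Fin 2) K} (hf : f ≠ 0)
    (h : (ZZ (hom f)).Infinite) : (AZ f).Infinite := by
  set B := BZ (MvPolynomial.homogeneousComponent f.totalDegree f) with hB
  have h1 := h.sdiff (binary_finite (MvPolynomial.homogeneousComponent_isHomogeneous
    f.totalDegree f) (hom_ne_zero hf))
  have hnz : ∀ P ∈ ZZ (hom f) \ B, P.rep 2 ≠ 0 := by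
    rintro P ⟨hP1, hP2⟩ h2
    apply hP2
    refine ⟨h2, ?_⟩
    rw [← eval_hom_zero f _ h2]
    exact hP1
  refine Set.infinite_of_injOn_mapsTo
    (f := fun P : ℙ K (Fin 3 → K) => (![P.rep 0 / P.rep 2, P.rep 1 / P.rep 2] : Fin 2 → K))
    (s := ZZ (hom f) \ B) ?_ ?_ h1
  · intro P hP Q hQ heq
    have hP2 := hnz P hP
    have hQ2 := hnz Q hQ
    have e0 : P.rep 0 / P.rep 2 = Q.rep 0 / Q.rep 2 := congrFun heq 0
    have e1 : P.rep 1 / P.rep 2 = Q.rep 1 / Q.rep 2 := congrFun heq 1
    rw [← Projectivization.mk_rep P, ← Projectivization.mk_rep Q,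
      Projectivization.mk_eq_mk_iff']
    refine ⟨P.rep 2 / Q.rep 2, ?_⟩
    rw [div_eq_div_iff hP2 hQ2] at e0 e1
    refine ext3 ?_ ?_ ?_
    · simp only [Pi.smul_apply, smul_eq_mul]; field_simp; linear_combination -e0
    · simp only [Pi.smul_apply, smul_eq_mul]; field_simp; linear_combination -e1
    · simp only [Pi.smul_apply, smul_eq_mul]; field_simp
  · intro P hP
    exact mem_AZ_of hP.1 (hnz P hP)

theorem AZ_card {f : MvPolynomial (Fin 2) K} (h : (ZZ (hom f)).Finite) :
    (AZ f).ncard ≤ (ZZ (hom f)).ncard := by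
  refine Set.ncard_le_ncard_of_injOn
    (fun p => Projectivization.mk K (![p 0, p 1, 1] : Fin 3 → K) (hat_ne p)) ?_ ?_ h
  · intro p hp
    refine mem_ZZ_mk (hom_homogeneous f) (hat_ne p) ?_
    rw [eval_hom_one f _ rfl, hat_comp]
    exact hp
  · intro p _ q _ heq
    obtain ⟨c, hc⟩ := (Projectivization.mk_eq_mk_iff' K _ _ (hat_ne p) (hat_ne q)).mp heq
    have h2 : c * 1 = 1 := congrFun hc 2
    rw [mul_one] at h2
    subst h2
    rw [one_smul] at hc
    funext i
    fin_cases i
    · exact (congrFun hc 0).symm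
    · exact (congrFun hc 1).symm

theorem affine_seven [Infinite K] (φ : K →+* ℂ) (h4 : ∀ p : K[X], p.natDegree ≤ 4 → p.Splits)
    {f : MvPolynomial (Fin 2) K} (hf : f.totalDegree ≤ 6) :
    (AZ f).Infinite ∨ (AZ f).ncard ≤ 7 := by
  by_cases hf0 : f = 0
  · left
    have : AZ f = Set.univ := by
      ext p
      simp [AZ, hf0]
    rw [this]
    exact Set.infinite_univ
  · by_cases hinf : (ZZ (hom f)).Infinite
    · exact Or.inl (AZ_infinite hf0 hinf)
    · right
      refine (AZ_card (Set.not_infinite.mp hinf)).trans ?_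
      have hF := hom_homogeneous f
      by_cases h6 : f.totalDegree = 6
      · rw [h6] at hF
        exact (core6 φ h4 hF).resolve_left hinf
      · exact ((core5 h4 (by omega) hF).resolve_left hinf).trans (by norm_num)

/-- The restriction of a polynomial to the line `p + X w`. -/
noncomputable def line {σ : Type*} (f : MvPolynomial σ K) (p w : σ → K) : K[X] :=
  MvPolynomial.aeval (fun j => C (p j) + X * C (w j)) f

/-- The derivative of `f` at `p` in the direction `w`. -/
noncomputable def dd {σ : Type*} [Fintype σ] (f : MvPolynomial σ K) (p w : σ → K) : K :=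
  ∑ j, MvPolynomial.eval p (MvPolynomial.pderiv j f) * w j

theorem line_eval {σ : Type*} (f : MvPolynomial σ K) (p w : σ → K) (c : K) :
    (line f p w).eval c = MvPolynomial.eval (p + c • w) f := by
  unfold line
  induction f using MvPolynomial.induction_on with
  | C a => simp
  | add p q hp hq => rw [map_add, eval_add, hp, hq, map_add]
  | mul_X p i hp =>
    rw [map_mul, eval_mul, hp, map_mul]
    simp only [MvPolynomial.aeval_X, eval_add, eval_C, eval_mul, eval_X, MvPolynomial.eval_X,
      Pi.add_apply, Pi.smul_apply, smul_eq_mul]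

theorem line_derivative (f : MvPolynomial (Fin 2) K) (p w : Fin 2 → K) :
    derivative (line f p w) = C (w 0) * line (MvPolynomial.pderiv 0 f) p w +
      C (w 1) * line (MvPolynomial.pderiv 1 f) p w := by
  unfold line
  induction f using MvPolynomial.induction_on with
  | C a => simp
  | add p q hp hq =>
    simp only [map_add, hp, hq]
    ring
  | mul_X p i hp =>
    rw [map_mul, derivative_mul, hp]
    simp only [Derivation.leibniz, smul_eq_mul, map_add, map_mul, MvPolynomial.aeval_X,
      derivative_mul, derivative_C, derivative_X, MvPolynomial.pderiv_X]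
    fin_cases i <;> simp <;> ring

theorem line_derivative_eval (f : MvPolynomial (Fin 2) K) (p w : Fin 2 → K) :
    (derivative (line f p w)).eval 0 = dd f p w := by
  rw [line_derivative]
  simp only [eval_add, eval_mul, eval_C, line_eval, zero_smul, add_zero]
  unfold dd
  rw [Fin.sum_univ_two]
  ring

theorem res_hat [Infinite K] (f : MvPolynomial (Fin 2) K) (p w : Fin 2 → K) :
    res (hom f) ![p 0, p 1, 1] ![w 0, w 1, 0] = line f p w := by
  refine eq_of_infinite_eval_eq _ _ (Set.infinite_univ.mono ?_)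
  intro x _
  change eval x _ = eval x _
  rw [res_eval, line_eval, eval_hom_one _ _ (by simp)]
  congr 2
  funext i
  fin_cases i <;> simp

theorem dt_hat [Infinite K] (f : MvPolynomial (Fin 2) K) (p w : Fin 2 → K) :
    dt (gr (hom f) ![p 0, p 1, 1]) ![w 0, w 1, 0] = dd f p w := by
  have h1 := res_derivative_eval (hom f) ![p 0, p 1, 1] ![w 0, w 1, 0] 0
  rw [zero_smul, add_zero, res_hat, line_derivative_eval] at h1
  exact h1.symm

theorem hat_zero {f : MvPolynomial (Fin 2) K} {p : Fin 2 → K} (hp : MvPolynomial.eval p f = 0) :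
    MvPolynomial.eval ![p 0, p 1, 1] (hom f) = 0 := by
  rw [eval_hom_one f _ rfl, hat_comp]
  exact hp

theorem hat_diff (p q : Fin 2 → K) :
    (![q 0, q 1, 1] : Fin 3 → K) = (1 : K) • ![(q - p) 0, (q - p) 1, 0] + (1 : K) • ![p 0, p 1, 1] := by
  refine ext3 ?_ ?_ ?_ <;> simp

theorem dt_hat' [Infinite K] {f : MvPolynomial (Fin 2) K} {p : Fin 2 → K}
    (hp : MvPolynomial.eval p f = 0) (q : Fin 2 → K) :
    dt (gr (hom f) ![p 0, p 1, 1]) ![q 0, q 1, 1] = dd f p (q - p) := by
  rw [hat_diff p q, dt_add, dt_smul, dt_smul, dt_hat, euler (hom_homogeneous f), hat_zero hp]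
  ring

theorem affine_smooth [Infinite K] (h4 : ∀ p : K[X], p.natDegree ≤ 4 → p.Splits)
    {f : MvPolynomial (Fin 2) K} (hf : f.totalDegree ≤ 5) {p w : Fin 2 → K}
    (hp : MvPolynomial.eval p f = 0) (hw : dd f p w ≠ 0) : (AZ f).Infinite := by
  have hf0 : f ≠ 0 := by
    rintro rfl
    apply hw
    simp [dd]
  refine AZ_infinite hf0 (core5s h4 hf (hom_homogeneous f) (hat_ne p) (hat_zero hp) ?_)
  intro h0
  apply hw
  rw [← dt_hat, h0]
  exact dt_zero_left _

theorem affine_chain [Infinite K] (φ : K →+* ℂ) (h4 : ∀ p : K[X], p.natDegree ≤ 4 → p.Splits)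
    {f : MvPolynomial (Fin 2) K} (hf : f.totalDegree ≤ 6) {p q r : Fin 2 → K}
    (hp : MvPolynomial.eval p f = 0) (hq : MvPolynomial.eval q f = 0)
    (hpq : dd f p (q - p) = 0) (hqp : dd f q (p - q) ≠ 0) (hqr : dd f q r = 0)
    (h5 : ¬ X ^ 5 ∣ line f p (q - p)) (h5r : ¬ X ^ 5 ∣ line f q r) : (AZ f).Infinite := by
  by_cases h6 : f.totalDegree = 6
  · have hf0 : f ≠ 0 := by
      rintro rfl
      apply hqp
      simp [dd]
    have hF := hom_homogeneous f
    rw [h6] at hF
    refine AZ_infinite hf0 (core_chain φ h4 hF (hat_zero hp) (hat_zero hq) (r := ![r 0, r 1, 0])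
      ?_ ?_ ?_ ?_ ?_)
    · rw [dt_hat' hp]
      exact hpq
    · rw [dt_hat' hq]
      exact hqp
    · rw [dt_hat]
      exact hqr
    · intro h
      apply h5
      rw [← res_hat]
      have h1 := dvd_change hF h 1 (-1)
      have h2 : (1 : K) • ![q 0, q 1, 1] + (-1 : K) • ![p 0, p 1, 1] =
          ![(q - p) 0, (q - p) 1, 0] := by
        refine ext3 ?_ ?_ ?_ <;> simp <;> ring
      rwa [h2] at h1
    · rw [res_hat]
      exact h5r
  · exact affine_smooth h4 (by omega) hq hqp

theorem line_eq_res (F : MvPolynomial (Fin 3) K) (u w : Fin 3 → K) :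
    line F u w = res F u w := rfl

theorem dd_eq_dt (F : MvPolynomial (Fin 3) K) (u w : Fin 3 → K) :
    dd F u w = dt (gr F u) w := by
  unfold dd dt gr
  rw [Fin.sum_univ_three]

/-- The dichotomy for forms of degree at most six. -/
theorem dichotomy [Infinite K] (φ : K →+* ℂ) (h4 : ∀ p : K[X], p.natDegree ≤ 4 → p.Splits)
    {F : MvPolynomial (Fin 3) K} {n : ℕ} (hn : n ≤ 6) (hF : F.IsHomogeneous n) :
    (ZZ F).Infinite ∨ ((ZZ F).ncard ≤ 7 ∧
      (∃ u : Fin 3 → K, u ≠ 0 ∧ {P | P ∈ ZZ F ∧ dt u P.rep ≠ 0}.Subsingleton) ∧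
      ∀ p q r : Fin 3 → K, MvPolynomial.eval p F = 0 → MvPolynomial.eval q F = 0 →
        dd F p q = 0 → dd F q p ≠ 0 → dd F q r = 0 →
        X ^ 5 ∣ line F p q ∨ X ^ 5 ∣ line F q r) := by
  classical
  by_cases hinf : (ZZ F).Infinite
  · exact Or.inl hinf
  right
  by_cases h6 : n = 6
  · subst h6
    obtain ⟨h1, h2⟩ := (core6' φ h4 hF).resolve_left hinf
    refine ⟨h1, h2, ?_⟩
    intro p q r hp hq hpq hqp hqr
    by_contra hno
    rw [not_or] at hno
    rw [dd_eq_dt] at hpq hqp hqr
    exact hinf (core_chain φ h4 hF hp hq hpq hqp hqr hno.1 hno.2)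
  · have h5 : n ≤ 5 := by omega
    have h1 := (core5 h4 h5 hF).resolve_left hinf
    refine ⟨h1.trans (by norm_num), ?_, ?_⟩
    · refine ⟨![1, 0, 0], fun h => one_ne_zero (congrFun h 0), ?_⟩
      rintro P ⟨hP, _⟩ Q ⟨hQ, _⟩
      exact (Set.ncard_le_one (Set.not_infinite.mp hinf)).mp h1 P hP Q hQ
    · intro p q r hp hq hpq hqp hqr
      exfalso
      rw [dd_eq_dt] at hpq hqp hqr
      have hg : gr F q ≠ 0 := by
        intro h0
        rw [h0, dt_zero_left] at hqp
        exact hqp rfl
      by_cases hq0 : q = 0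
      · -- the form is linear
        subst hq0
        have hp0 : p ≠ 0 := by
          rintro rfl
          apply hqp
          unfold dt
          simp
        rcases n with _ | _ | m
        · have h2 : F = MvPolynomial.C (F.coeff 0) :=
            MvPolynomial.totalDegree_eq_zero_iff_eq_C.mp (Nat.le_zero.mp hF.totalDegree_le)
          apply hg
          unfold gr
          rw [h2]
          funext j
          simp
        · have h3 : gr F 0 = gr F p := by
            have h4' := gr_smul (n := 0) hF 0 p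
            rw [zero_smul, pow_zero, one_smul] at h4'
            exact h4'
          exact hinf (core5s h4 h5 hF hp0 hp (h3 ▸ hg))
        · apply hg
          have h4' := gr_smul (n := m + 1) hF 0 p
          rw [zero_smul, zero_pow (by omega), zero_smul] at h4'
          exact h4'
      · exact hinf (core5s h4 h5 hF hq0 hq hg)

end General

/-- The embedding into the complex numbers. -/
noncomputable def emb : Qs →+* ℂ :=
  have : Algebra.IsAlgebraic ℚ (AlgebraicClosure ℚ) := AlgebraicClosure.isAlgebraic ℚ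
  ((IsAlgClosed.lift : AlgebraicClosure ℚ →ₐ[ℚ] ℂ) : AlgebraicClosure ℚ →+* ℂ).comp
    (algebraMap Qs (AlgebraicClosure ℚ))

theorem Qs_dichotomy {F : MvPolynomial (Fin 3) Qs} {n : ℕ} (hn : n ≤ 6)
    (hF : F.IsHomogeneous n) :
    (ZZ F).Infinite ∨ ((ZZ F).ncard ≤ 7 ∧
      (∃ u : Fin 3 → Qs, u ≠ 0 ∧ {P | P ∈ ZZ F ∧ dt u P.rep ≠ 0}.Subsingleton) ∧
      ∀ p q r : Fin 3 → Qs, MvPolynomial.eval p F = 0 → MvPolynomial.eval q F = 0 →
        dd F p q = 0 → dd F q p ≠ 0 → dd F q r = 0 →
        X ^ 5 ∣ line F p q ∨ X ^ 5 ∣ line F q r) := by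
  have : Infinite Qs := CharZero.infinite Qs
  exact dichotomy emb Qs_splits hn hF

end Pool.Agent.H31.SX
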