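import Pool.Agent.H31.SX.Res

/-! # Projection from a point -/

set_option autoImplicit false

namespace Pool.Agent.H31.SX

open Polynomial

variable {K : Type*} [Field K]

open scoped LinearAlgebra.Projectivization

/-- The zeros of a form in the projective plane. -/
def ZZ (F : MvPolynomial (Fin 3) K) : Set (ℙ K (Fin 3 → K)) :=
  {P | MvPolynomial.eval P.rep F = 0}

theorem mem_ZZ_mk {F : MvPolynomial (Fin 3) K} {n : ℕ} (hF : F.IsHomogeneous n)
    {x : Fin 3 → K} (hx : x ≠ 0) (h0 : MvPolynomial.eval x F = 0) :
    Projectivization.mk K x hx ∈ ZZ F := by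
  obtain ⟨a, ha⟩ := Projectivization.exists_smul_eq_mk_rep K x hx
  change MvPolynomial.eval (Projectivization.mk K x hx).rep F = 0
  rw [← ha]
  have : (a • x : Fin 3 → K) = (a : K) • x := rfl
  rw [this, eval_smul hF, h0, mul_zero]

theorem cr_smul_self (a : K) (x : Fin 3 → K) : cr (a • x) x = 0 := by
  refine ext3 ?_ ?_ ?_ <;> simp <;> ring

theorem inf_crit {F : MvPolynomial (Fin 3) K} {n : ℕ} (hF : F.IsHomogeneous n)
    {T : Set K} (hT : T.Infinite) (x : K → Fin 3 → K) (h1 : ∀ t ∈ T, x t ≠ 0)
    (h2 : ∀ t ∈ T, MvPolynomial.eval (x t) F = 0)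
    (h3 : ∀ t ∈ T, ∀ t' ∈ T, t ≠ t' → cr (x t) (x t') ≠ 0) : (ZZ F).Infinite := by
  have : Infinite T := hT.to_subtype
  refine Set.infinite_of_injective_forall_mem
    (f := fun t : T => Projectivization.mk K (x t) (h1 t t.2)) ?_ ?_
  · intro t t' heq
    by_contra hne
    have hne' : (t : K) ≠ t' := fun h => hne (Subtype.ext h)
    apply h3 t t.2 t' t'.2 hne'
    obtain ⟨a, ha⟩ := (Projectivization.mk_eq_mk_iff' K _ _ (h1 t t.2) (h1 t' t'.2)).mp heq
    rw [← ha]
    exact cr_smul_self a _
  · intro t
    exact mem_ZZ_mk hF (h1 t t.2) (h2 t t.2)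

theorem d3_ne_cr {a b c : Fin 3 → K} (h : d3 a b c ≠ 0) : cr a b ≠ 0 := by
  intro h0
  apply h
  unfold d3
  rw [h0]
  simp [dt]

theorem exists_third {a b : Fin 3 → K} (h : cr a b ≠ 0) : ∃ c, d3 a b c ≠ 0 := by
  by_contra hno
  simp only [not_exists, not_not] at hno
  apply h
  have h0 := hno ![1, 0, 0]
  have h1 := hno ![0, 1, 0]
  have h2 := hno ![0, 0, 1]
  unfold d3 dt at h0 h1 h2
  refine ext3 ?_ ?_ ?_
  · simpa using h0
  · simpa using h1
  · simpa using h2

/-- A line of zeros. -/
theorem inf_line [Infinite K] {F : MvPolynomial (Fin 3) K} {n : ℕ} (hF : F.IsHomogeneous n)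
    {u v : Fin 3 → K} (h : cr u v ≠ 0) (h0 : ∀ s : K, MvPolynomial.eval (u + s • v) F = 0) :
    (ZZ F).Infinite := by
  obtain ⟨c, hc⟩ := exists_third h
  have key : ∀ t t' : K, d3 (u + t • v) (u + t' • v) c = (t' - t) * d3 u v c := by
    intro t t'
    unfold d3 dt
    simp
    ring
  have hnz : ∀ t : K, u + t • v ≠ 0 := by
    intro t ht
    apply hc
    have h1 : d3 (u + t • v) v c = d3 u v c := by
      unfold d3 dt
      simp
      ring
    rw [← h1, ht]
    unfold d3 dt
    simp
  refine inf_crit hF Set.infinite_univ (fun t => u + t • v) (fun t _ => hnz t)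
    (fun t _ => h0 t) ?_
  intro t _ t' _ hne
  apply d3_ne_cr (c := c)
  rw [key]
  exact mul_ne_zero (sub_ne_zero.mpr (Ne.symm hne)) hc

/-- The family of restrictions to the lines through `P`. -/
noncomputable def GG (F : MvPolynomial (Fin 3) K) (Q R P : Fin 3 → K) : K[X][X] :=
  MvPolynomial.aeval (fun j => C (C (Q j) + X * C (R j)) + X * C (C (P j))) F

theorem GG_map (F : MvPolynomial (Fin 3) K) (Q R P : Fin 3 → K) (t : K) :
    (GG F Q R P).map (evalRingHom t) = res F (Q + t • R) P := by
  unfold GG res
  induction F using MvPolynomial.induction_on with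
  | C a =>
    rw [MvPolynomial.aeval_C, MvPolynomial.aeval_C]
    change Polynomial.map (evalRingHom t) (C (C a)) = C a
    simp
  | add p q hp hq =>
    rw [map_add, Polynomial.map_add, hp, hq, map_add]
  | mul_X p i hp =>
    rw [map_mul, Polynomial.map_mul, hp, map_mul, MvPolynomial.aeval_X, MvPolynomial.aeval_X]
    congr 1
    simp
    ring

theorem GG_coeff (F : MvPolynomial (Fin 3) K) (Q R P : Fin 3 → K) (t : K) (m : ℕ) :
    ((GG F Q R P).coeff m).eval t = (res F (Q + t • R) P).coeff m := by
  rw [← GG_map, coeff_map]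
  rfl

/-- Projection: if the lines through the zero `P` leave at most four further intersection points
and there is a second zero, then there are infinitely many zeros. -/
theorem proj [Infinite K] (h4 : ∀ p : K[X], p.natDegree ≤ 4 → p.Splits)
    {F : MvPolynomial (Fin 3) K} {n : ℕ} (hF : F.IsHomogeneous n) {P Q : Fin 3 → K}
    (hdeg : ∀ w, (res F w P).natDegree ≤ 4) (hPQ : cr P Q ≠ 0)
    (hQ : MvPolynomial.eval Q F = 0) : (ZZ F).Infinite := by
  obtain ⟨R, hR⟩ := exists_third hPQ
  by_cases hT : {t : K | ∃ s, (res F (Q + t • R) P).eval s = 0}.Infinite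
  · choose! s hs using (fun (t : K) (ht : t ∈ {t : K | ∃ s, (res F (Q + t • R) P).eval s = 0}) => ht)
    refine inf_crit hF hT (fun t => (Q + t • R) + s t • P) ?_ ?_ ?_
    · intro t _ h0
      apply hR
      have h1 : d3 P ((Q + t • R) + s t • P) R = d3 P Q R := by
        unfold d3 dt
        simp
        ring
      rw [← h1, h0]
      unfold d3 dt
      simp
    · intro t ht
      rw [← res_eval]
      exact hs t ht
    · intro t _ t' _ hne
      apply d3_ne_cr (c := P)
      have h1 : d3 ((Q + t • R) + s t • P) ((Q + t' • R) + s t' • P) P =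
          (t' - t) * d3 P Q R := by
        unfold d3 dt
        simp
        ring
      rw [h1]
      exact mul_ne_zero (sub_ne_zero.mpr (Ne.symm hne)) hR
  · have hfin : {t : K | ∃ s, (res F (Q + t • R) P).eval s = 0}.Finite := Set.not_infinite.mp hT
    have hcof : ({t : K | ∃ s, (res F (Q + t • R) P).eval s = 0}ᶜ).Infinite :=
      hfin.infinite_compl
    have hz : ∀ m, 1 ≤ m → (GG F Q R P).coeff m = 0 := by
      intro m hm
      refine eq_of_infinite_eval_eq _ _ (hcof.mono ?_)
      intro t ht
      change ((GG F Q R P).coeff m).eval t = (0 : K[X]).eval t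
      rw [GG_coeff, eval_zero]
      have hsp := h4 _ (hdeg (Q + t • R))
      by_contra hne
      apply ht
      refine hsp.exists_eval_eq_zero ?_
      intro hd
      have h5 : (res F (Q + t • R) P).natDegree = 0 := natDegree_eq_of_degree_eq_some hd
      apply hne
      apply coeff_eq_zero_of_natDegree_lt
      omega
    have hres : ∀ m, 1 ≤ m → (res F Q P).coeff m = 0 := by
      intro m hm
      have h5 := GG_coeff F Q R P 0 m
      rw [hz m hm, eval_zero, zero_smul, add_zero] at h5
      exact h5.symm
    have hconst : ∀ s : K, MvPolynomial.eval (Q + s • P) F = 0 := by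
      intro s
      rw [← res_eval]
      have h6 : res F Q P = C ((res F Q P).coeff 0) := by
        apply Polynomial.eq_C_of_natDegree_eq_zero
        by_contra hne
        have h7 := hres (res F Q P).natDegree (by omega)
        have h8 : res F Q P = 0 := leadingCoeff_eq_zero.mp h7
        rw [h8] at hne
        exact hne natDegree_zero
      have h9 : (res F Q P).coeff 0 = 0 := by
        rw [coeff_zero_eq_eval_zero, res_eval]
        simpa using hQ
      rw [h6, h9]
      simp
    refine inf_line hF ?_ hconst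
    intro h0
    apply hPQ
    have e0 := congrFun h0 0
    have e1 := congrFun h0 1
    have e2 := congrFun h0 2
    simp only [cr_zero, cr_one, cr_two, Pi.zero_apply] at e0 e1 e2
    refine ext3 ?_ ?_ ?_
    · simp only [cr_zero, Pi.zero_apply]; linear_combination -e0
    · simp only [cr_one, Pi.zero_apply]; linear_combination -e1
    · simp only [cr_two, Pi.zero_apply]; linear_combination -e2

end Pool.Agent.H31.SX
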