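import Pool.Agent.H31.SX.Defs

/-! # The restriction of a form to a line -/

set_option autoImplicit false

namespace Pool.Agent.H31.SX

open Polynomial

variable {K : Type*} [Field K]

/-- `F (u + X v)`. -/
noncomputable def res (F : MvPolynomial (Fin 3) K) (u v : Fin 3 → K) : K[X] :=
  MvPolynomial.aeval (fun j => C (u j) + X * C (v j)) F

theorem res_eval (F : MvPolynomial (Fin 3) K) (u v : Fin 3 → K) (c : K) :
    (res F u v).eval c = MvPolynomial.eval (u + c • v) F := by
  unfold res
  induction F using MvPolynomial.induction_on with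
  | C a => simp
  | add p q hp hq => rw [map_add, eval_add, hp, hq, map_add]
  | mul_X p i hp =>
    rw [map_mul, eval_mul, hp, map_mul]
    simp only [MvPolynomial.aeval_X, eval_add, eval_C, eval_mul, eval_X, MvPolynomial.eval_X,
      Pi.add_apply, Pi.smul_apply, smul_eq_mul]

theorem res_derivative (F : MvPolynomial (Fin 3) K) (u v : Fin 3 → K) :
    derivative (res F u v) = C (v 0) * res (MvPolynomial.pderiv 0 F) u v +
      C (v 1) * res (MvPolynomial.pderiv 1 F) u v +
      C (v 2) * res (MvPolynomial.pderiv 2 F) u v := by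
  unfold res
  induction F using MvPolynomial.induction_on with
  | C a => simp
  | add p q hp hq =>
    simp only [map_add, hp, hq]
    ring
  | mul_X p i hp =>
    rw [map_mul, derivative_mul, hp]
    simp only [Derivation.leibniz, smul_eq_mul, map_add, map_mul, MvPolynomial.aeval_X,
      derivative_mul, derivative_C, derivative_X, MvPolynomial.pderiv_X]
    fin_cases i <;> simp <;> ring

/-- The gradient. -/
noncomputable def gr (F : MvPolynomial (Fin 3) K) (v : Fin 3 → K) : Fin 3 → K :=
  fun j => MvPolynomial.eval v (MvPolynomial.pderiv j F)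

theorem res_derivative_eval (F : MvPolynomial (Fin 3) K) (u v : Fin 3 → K) (c : K) :
    (derivative (res F u v)).eval c = dt (gr F (u + c • v)) v := by
  rw [res_derivative]
  simp only [eval_add, eval_mul, eval_C, res_eval]
  unfold gr dt
  ring

theorem euler {F : MvPolynomial (Fin 3) K} {n : ℕ} (hF : F.IsHomogeneous n) (v : Fin 3 → K) :
    dt (gr F v) v = n * MvPolynomial.eval v F := by
  have h := congrArg (MvPolynomial.eval v) hF.sum_X_mul_pderiv
  rw [Fin.sum_univ_three] at h
  simp only [map_add, map_mul, MvPolynomial.eval_X, nsmul_eq_mul, map_natCast] at h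
  unfold gr dt
  rw [← h]
  ring

theorem eval_smul {F : MvPolynomial (Fin 3) K} {n : ℕ} (hF : F.IsHomogeneous n) (c : K)
    (v : Fin 3 → K) : MvPolynomial.eval (c • v) F = c ^ n * MvPolynomial.eval v F := by
  rw [MvPolynomial.eval_eq', MvPolynomial.eval_eq', Finset.mul_sum]
  refine Finset.sum_congr rfl fun d hd => ?_
  have h1 := hF (MvPolynomial.mem_support_iff.mp hd)
  have h2 : d 0 + d 1 + d 2 = n := by
    rw [← h1, Finsupp.weight_apply, Finsupp.sum_fintype _ _ (by simp)]
    simp [Fin.sum_univ_three]
  rw [Fin.prod_univ_three, Fin.prod_univ_three, ← h2]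
  simp only [Pi.smul_apply, smul_eq_mul]
  ring

theorem res_natDegree_le {F : MvPolynomial (Fin 3) K} {n : ℕ} (hF : F.IsHomogeneous n)
    (u v : Fin 3 → K) : (res F u v).natDegree ≤ n := by
  have h := MvPolynomial.aeval_natDegree_le F hF.totalDegree_le
    (fun j => C (u j) + X * C (v j)) (n := 1) (by
      intro i
      refine (natDegree_add_le _ _).trans (max_le (by simp) ?_)
      refine natDegree_mul_le.trans ?_
      simp)
  rw [mul_one] at h
  exact h

/-- The restriction with the two vectors exchanged. -/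
theorem res_reflect [Infinite K] {F : MvPolynomial (Fin 3) K} {n : ℕ} (hF : F.IsHomogeneous n)
    (u v : Fin 3 → K) : res F u v = reflect n (res F v u) := by
  refine eq_of_infinite_eval_eq _ _ ?_
  have hinf : ({0}ᶜ : Set K).Infinite := (Set.finite_singleton (0 : K)).infinite_compl
  refine hinf.mono ?_
  intro c hc
  have hc0 : c ≠ 0 := by simpa using hc
  change (res F u v).eval c = (reflect n (res F v u)).eval c
  have hci : c⁻¹ ≠ 0 := inv_ne_zero hc0
  let _ : Invertible c⁻¹ := invertibleOfNonzero hci
  have h := eval₂_reflect_mul_pow (RingHom.id K) c⁻¹ n (res F v u) (res_natDegree_le hF v u)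
  have h1 : ⅟(c⁻¹) = c := by rw [invOf_eq_inv, inv_inv]
  rw [h1, eval₂_id, eval₂_id, res_eval] at h
  rw [res_eval]
  have h2 : u + c • v = c • (v + c⁻¹ • u) := by
    rw [smul_add, smul_smul, mul_inv_cancel₀ hc0, one_smul, add_comm]
  rw [h2, eval_smul hF, ← h]
  have h3 : c ^ n * (eval c (reflect n (res F v u)) * c⁻¹ ^ n) =
      eval c (reflect n (res F v u)) * (c * c⁻¹) ^ n := by rw [mul_pow]; ring
  rw [h3, mul_inv_cancel₀ hc0, one_pow, mul_one]

theorem res_coeff_top [Infinite K] {F : MvPolynomial (Fin 3) K} {n : ℕ} (hF : F.IsHomogeneous n)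
    (u v : Fin 3 → K) : (res F u v).coeff n = MvPolynomial.eval v F := by
  rw [res_reflect hF, coeff_reflect, revAt_le le_rfl, Nat.sub_self, coeff_zero_eq_eval_zero,
    res_eval]
  simp

theorem res_coeff_pred [Infinite K] {F : MvPolynomial (Fin 3) K} {n : ℕ}
    (hF : F.IsHomogeneous (n + 1)) (u v : Fin 3 → K) :
    (res F u v).coeff n = dt (gr F v) u := by
  rw [res_reflect hF, coeff_reflect, revAt_le (Nat.le_succ n)]
  have h1 : n + 1 - n = 1 := by omega
  rw [h1]
  have h2 : (derivative (res F v u)).coeff 0 = (res F v u).coeff 1 := by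
    rw [coeff_derivative]
    simp
  rw [← h2, coeff_zero_eq_eval_zero, res_derivative_eval]
  simp

/-- If `F (v) = 0`, the degree drops. -/
theorem res_natDegree_lt [Infinite K] {F : MvPolynomial (Fin 3) K} {n : ℕ}
    (hF : F.IsHomogeneous (n + 1)) (u v : Fin 3 → K) (h0 : MvPolynomial.eval v F = 0) :
    (res F u v).natDegree ≤ n := by
  have h1 := res_natDegree_le hF u v
  rcases h1.lt_or_eq with h2 | h2
  · omega
  · have h3 := res_coeff_top hF u v
    rw [← h2, h0] at h3
    have h4 : (res F u v) = 0 := leadingCoeff_eq_zero.mp h3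
    rw [h4]
    simp

/-- If `v` is a singular zero, the degree drops by two. -/
theorem res_natDegree_lt2 [Infinite K] {F : MvPolynomial (Fin 3) K} {n : ℕ}
    (hF : F.IsHomogeneous (n + 2)) (u v : Fin 3 → K) (h0 : MvPolynomial.eval v F = 0)
    (hg : gr F v = 0) : (res F u v).natDegree ≤ n := by
  have h1 := res_natDegree_lt hF u v h0
  rcases h1.lt_or_eq with h2 | h2
  · omega
  · have h3 := res_coeff_pred (n := n + 1) hF u v
    rw [← h2, hg] at h3
    have h4 : (res F u v) = 0 := by
      apply leadingCoeff_eq_zero.mp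
      rw [leadingCoeff, h3]
      simp [dt]
    rw [h4]
    simp

end Pool.Agent.H31.SX
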