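import Mathlib

/-! # Galois groups of polynomials of degree at most four -/

set_option autoImplicit false

namespace Pool.Agent.H31.SX

open Polynomial

/-- The double transpositions. -/
def V4 : Subgroup (Equiv.Perm (Fin 4)) where
  carrier := {σ | σ = 1 ∨ σ = Equiv.swap 0 1 * Equiv.swap 2 3 ∨
    σ = Equiv.swap 0 2 * Equiv.swap 1 3 ∨ σ = Equiv.swap 0 3 * Equiv.swap 1 2}
  one_mem' := Or.inl rfl
  mul_mem' := by
    rintro a b (rfl | rfl | rfl | rfl) (rfl | rfl | rfl | rfl) <;>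
      simp only [Set.mem_ofPred_eq] <;> decide +kernel
  inv_mem' := by
    rintro a (rfl | rfl | rfl | rfl) <;> simp only [Set.mem_ofPred_eq] <;> decide +kernel

theorem comm_V4 : ∀ g h : Equiv.Perm (Fin 4), Equiv.Perm.sign g = 1 → Equiv.Perm.sign h = 1 →
    (g * h * g⁻¹ * h⁻¹ = 1 ∨ g * h * g⁻¹ * h⁻¹ = Equiv.swap 0 1 * Equiv.swap 2 3 ∨
    g * h * g⁻¹ * h⁻¹ = Equiv.swap 0 2 * Equiv.swap 1 3 ∨
    g * h * g⁻¹ * h⁻¹ = Equiv.swap 0 3 * Equiv.swap 1 2) := by
  decide +kernel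

theorem V4_comm : ∀ g ∈ V4, ∀ h ∈ V4, g * h * g⁻¹ * h⁻¹ = 1 := by
  rintro a (rfl | rfl | rfl | rfl) b (rfl | rfl | rfl | rfl) <;> decide +kernel

theorem solvable_S4 : Group.IsSolvable (Equiv.Perm (Fin 4)) := by
  refine ⟨⟨3, ?_⟩⟩
  have h1 : derivedSeries (Equiv.Perm (Fin 4)) 1 ≤ (Equiv.Perm.sign (α := Fin 4)).ker := by
    rw [derivedSeries_one, commutator_def, Subgroup.commutator_le]
    intro g _ h _
    rw [MonoidHom.mem_ker, map_commutatorElement, commutatorElement_eq_one_iff_mul_comm]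
    exact mul_comm _ _
  have h2 : derivedSeries (Equiv.Perm (Fin 4)) 2 ≤ V4 := by
    rw [derivedSeries_succ, Subgroup.commutator_le]
    intro g hg h hh
    exact comm_V4 g h (h1 hg) (h1 hh)
  rw [derivedSeries_succ, eq_bot_iff, Subgroup.commutator_le]
  intro g hg h hh
  rw [Subgroup.mem_bot]
  exact V4_comm g (h2 hg) h (h2 hh)

end Pool.Agent.H31.SX
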